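import Pool.Agent.TRB.St2

/-!
# TRB, modules BLQ and KKT: the number of vertices of the centre
-/

set_option autoImplicit false

namespace Pool.Agent.TRB

open Finset Pool.Agent.Lib_helper61.SwitchBasic Pool.Agent.TRC Pool.Agent.NTW

namespace BLQ

theorem cov {α : Type} [Fintype α] [DecidableEq α] {C : SimpleGraph α} {K : Finset α}
    {T : α → Finset α} (hcov : ∀ v, ∃ b ∈ K, v ∈ T b) :
    Fintype.card α ≤ ∑ b ∈ K, (T b).card := by
  have hsub : (univ : Finset α) ⊆ K.biUnion T := fun v _ => by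
    obtain ⟨b, hb, hv⟩ := hcov v
    exact mem_biUnion.2 ⟨b, hb, hv⟩
  calc Fintype.card α = (univ : Finset α).card := card_univ.symm
    _ ≤ (K.biUnion T).card := card_le_card hsub
    _ ≤ _ := card_biUnion_le

theorem two_le {α : Type} [Fintype α] [DecidableEq α] (hCE1 : S_CE1) (hCE3 : S_CE3)
    (C : SimpleGraph α) (hconn : C.Connected) (hNoC : NoC C) : 2 ≤ (KK C).card := by
  have hcen := hCE3 α C hconn hNoC
  have hT := (hCE1 α C hNoC).1
  have hcov := cov (C := C) hcen.cover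
  have h0 : 0 < Fintype.card α := by
    obtain ⟨x⟩ := hconn.nonempty
    exact Fintype.card_pos_iff.2 ⟨x⟩
  have h1 : 2 * ∑ b ∈ KK C, (Tc C b).card ≤ (KK C).card * Fintype.card α := by
    rw [mul_sum, ← smul_eq_mul, ← sum_const]
    exact sum_le_sum fun b _ => hT b
  by_contra hlt
  have h2 : (KK C).card ≤ 1 := by omega
  have h3 : (KK C).card * Fintype.card α ≤ 1 * Fintype.card α := Nat.mul_le_mul_right _ h2
  omega

end BLQ

theorem t_KKT (hCE1 : S_CE1) (hCE3 : S_CE3) : S_KKT := fun _ _ _ C hconn hNoC =>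
  BLQ.two_le hCE1 hCE3 C hconn hNoC

theorem t_BLQ (hCE1 : S_CE1) (hCE3 : S_CE3) (hTWO : S_TWO) : S_BLQ := by
  intro α _ _ C hconn hNoC haut h8
  have hcen := hCE3 α C hconn hNoC
  have hT := (hCE1 α C hNoC).1
  have hcov := BLQ.cov (C := C) hcen.cover
  have hm2 : 2 ≤ (KK C).card := BLQ.two_le hCE1 hCE3 C hconn hNoC
  -- the two largest branches
  have hne : (KK C).Nonempty := card_pos.1 (by omega)
  obtain ⟨b₁, hb₁, hmax₁⟩ := exists_max_image (KK C) (fun b => (Tc C b).card) hne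
  have hce : ((KK C).erase b₁).card = (KK C).card - 1 := card_erase_of_mem hb₁
  have hne' : ((KK C).erase b₁).Nonempty := card_pos.1 (by omega)
  obtain ⟨b₂, hb₂, hmax₂⟩ := exists_max_image ((KK C).erase b₁) (fun b => (Tc C b).card) hne'
  have hb₂' := mem_erase.1 hb₂
  have hbig : 4 * (KK C).card < (Tc C b₂).card := by
    by_contra hlt
    have hle : (Tc C b₂).card ≤ 4 * (KK C).card := by omega
    have hsum : ∑ b ∈ (KK C).erase b₁, (Tc C b).card ≤
        ((KK C).card - 1) * (4 * (KK C).card) := by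
      rw [← hce, ← smul_eq_mul, ← sum_const]
      exact sum_le_sum fun b hb => (hmax₂ b hb).trans hle
    have hadd : (Tc C b₁).card + ∑ b ∈ (KK C).erase b₁, (Tc C b).card =
        ∑ b ∈ KK C, (Tc C b).card := add_sum_erase (KK C) (fun b => (Tc C b).card) hb₁
    have hT1 := hT b₁
    have e : 8 * (KK C).card * ((KK C).card - 1) =
        2 * (((KK C).card - 1) * (4 * (KK C).card)) := by ring
    rw [e] at h8
    omega
  have hbig₁ : 4 * (KK C).card < (Tc C b₁).card := lt_of_lt_of_le hbig (hmax₁ b₂ hb₂'.2)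
  exact hTWO α C (KK C) (Tc C) hcen haut b₁ hb₁ b₂ hb₂'.2 (Ne.symm hb₂'.1) hbig₁ hbig

end Pool.Agent.TRB
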