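import Pool.Agent.TRB.St2

/-!
# TRB (MP_e73337_co), module CAC: the automorphisms of a cycle
-/

set_option autoImplicit false

namespace Pool.Agent.TRB

open Finset Pool.Agent.Lib_helper61.SwitchBasic Pool.Agent.TRC Pool.Agent.NTW

namespace CAC

/-- An automorphism of a connected 2-regular graph that fixes two adjacent vertices is trivial. -/
theorem fix {β : Type} (D : SimpleGraph β) (hD : D.Connected)
    (h2 : ∀ x y z w, D.Adj x y → D.Adj x z → D.Adj x w → y = z ∨ y = w ∨ z = w)
    (θ : D ≃g D) {u v : β} (huv : D.Adj u v) (hu : θ u = u) (hv : θ v = v) (x : β) : θ x = x := by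
  have key : ∀ (a b : β), D.Walk a b → (θ a = a ∧ ∃ y, D.Adj a y ∧ θ y = y) →
      (θ b = b ∧ ∃ y, D.Adj b y ∧ θ y = y) := by
    intro a b w
    induction w with
    | nil => exact fun h => h
    | @cons a c b hac p ih =>
      rintro ⟨ha, y, hay, hy⟩
      apply ih
      refine ⟨?_, a, hac.symm, ha⟩
      have h3 : D.Adj a (θ c) := by
        have := θ.map_adj_iff.2 hac
        rwa [ha] at this
      rcases h2 a y c (θ c) hay hac h3 with h | h | h
      · rw [← h]
        exact hy
      · have h4 : θ y = θ c := hy.trans h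
        have h5 : y = c := θ.injective h4
        rw [← h5]
        exact hy
      · exact h.symm
  obtain ⟨w⟩ := hD.preconnected u x
  exact (key u x w ⟨hu, v, huv, hv⟩).1

/-- A connected 2-regular graph on `m` vertices has at most `2 m` automorphisms. -/
theorem card_le {β : Type} [Finite β] (D : SimpleGraph β) (hD : D.Connected)
    (h2 : ∀ x y z w, D.Adj x y → D.Adj x z → D.Adj x w → y = z ∨ y = w ∨ z = w)
    {u v : β} (huv : D.Adj u v) : Nat.card (D ≃g D) ≤ 2 * Nat.card β := by
  classical
  have := Fintype.ofFinite β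
  -- the pairs
  let P : Finset (β × β) := univ.filter fun p => D.Adj p.1 p.2
  have hP : P.card ≤ 2 * Fintype.card β := by
    have h3 : P.card = ∑ x : β, (univ.filter fun y => D.Adj x y).card := by
      have h4 : ∀ p ∈ P, p.1 ∈ (univ : Finset β) := fun p _ => mem_univ _
      rw [card_eq_sum_card_fiberwise h4]
      refine sum_congr rfl fun x _ => ?_
      refine card_nbij' (fun p => p.2) (fun y => (x, y)) ?_ ?_ ?_ ?_
      · intro p hp
        simp only [P, coe_filter, mem_filter, mem_univ, true_and, Set.mem_ofPred_eq] at hp ⊢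
        rw [← hp.2]
        exact hp.1
      · intro y hy
        simp only [P, coe_filter, mem_filter, mem_univ, true_and, Set.mem_ofPred_eq] at hy ⊢
        exact ⟨hy, trivial⟩
      · intro p hp
        simp only [P, coe_filter, mem_filter, mem_univ, true_and, Set.mem_ofPred_eq] at hp
        exact Prod.ext hp.2.symm rfl
      · intro y _
        rfl
    rw [h3]
    calc ∑ x : β, (univ.filter fun y => D.Adj x y).card ≤ ∑ _x : β, 2 := by
          refine sum_le_sum fun x _ => ?_
          by_contra hcon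
          rw [not_le, two_lt_card] at hcon
          obtain ⟨a, ha, b, hb, c, hc, hab, hac, hbc⟩ := hcon
          simp only [mem_filter, mem_univ, true_and] at ha hb hc
          rcases h2 x a b c ha hb hc with h | h | h
          · exact hab h
          · exact hac h
          · exact hbc h
      _ = 2 * Fintype.card β := by
          rw [sum_const, smul_eq_mul, card_univ, mul_comm]
  let f : (D ≃g D) → P := fun φ => ⟨(φ u, φ v), by
    simp only [P, mem_filter, mem_univ, true_and]
    exact φ.map_adj_iff.2 huv⟩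
  have hf : Function.Injective f := by
    intro φ ψ h
    have h3 : (φ u, φ v) = (ψ u, ψ v) := congrArg Subtype.val h
    have h4 : φ u = ψ u := congrArg Prod.fst h3
    have h5 : φ v = ψ v := congrArg Prod.snd h3
    have h6 : ∀ x, (φ.trans ψ.symm) x = x := by
      refine fix D hD h2 (φ.trans ψ.symm) huv ?_ ?_
      · show ψ.symm (φ u) = u
        rw [h4]
        exact ψ.symm_apply_apply u
      · show ψ.symm (φ v) = v
        rw [h5]
        exact ψ.symm_apply_apply v
    ext x
    have h7 : ψ.symm (φ x) = x := h6 x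
    have h8 := congrArg ψ h7
    rw [ψ.apply_symm_apply] at h8
    exact h8
  have h8 := Nat.card_le_card_of_injective f hf
  rw [Nat.card_eq_fintype_card (α := P), Fintype.card_coe] at h8
  rw [Nat.card_eq_fintype_card (α := β)]
  exact h8.trans hP

theorem num {m : ℕ} (hm : 13 ≤ m) : 8 * m < 2 ^ (m - m / 2) := by
  have key : ∀ k : ℕ, 8 * (2 * k + 14) < 2 ^ (k + 7) := by
    intro k
    induction k with
    | zero => norm_num
    | succ k ih =>
      rw [show k + 1 + 7 = (k + 7) + 1 from rfl, pow_succ]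
      have : 2 ^ 7 ≤ 2 ^ (k + 7) := Nat.pow_le_pow_right (by norm_num) (by omega)
      norm_num at this
      omega
  obtain ⟨k, hk | hk⟩ : ∃ k, m = 2 * k + 13 ∨ m = 2 * k + 14 := ⟨(m - 13) / 2, by omega⟩
  · have h := key k
    have e : m - m / 2 = k + 7 := by omega
    rw [e]
    omega
  · have h := key k
    have e : m - m / 2 = k + 7 := by omega
    rw [e]
    omega

end CAC

/-- In a cactus with at least 1057 vertices every block is small or has few automorphisms. -/
theorem t_CAC {α : Type} [Fintype α] [DecidableEq α] (C : SimpleGraph α)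
    (hp : 1057 ≤ Fintype.card α) (X : Finset α) (h3 : 3 ≤ X.card)
    (hX : ∀ x ∈ X, (C.induce {v | v ∈ X ∧ v ≠ x}).Connected)
    (hdeg : ∀ x ∈ X, ∀ y ∈ X, ∀ z ∈ X, ∀ w ∈ X, C.Adj x y → C.Adj x z → C.Adj x w →
      y = z ∨ y = w ∨ z = w) :
    8 * X.card * (X.card - 1) < Fintype.card α ∨
      4 * Nat.card (C.induce {v | v ∈ X} ≃g C.induce {v | v ∈ X}) < 2 ^ (X.card - X.card / 2) := by
  by_cases hs : 8 * X.card * (X.card - 1) < Fintype.card α
  · exact Or.inl hs
  right
  have hm : 13 ≤ X.card := by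
    by_contra hlt
    have h1 : X.card ≤ 12 := by omega
    have h2 : X.card * (X.card - 1) ≤ 12 * 11 := Nat.mul_le_mul h1 (by omega)
    have h4 : 8 * X.card * (X.card - 1) = 8 * (X.card * (X.card - 1)) := by ring
    omega
  -- the induced graph is connected
  have hconn : ∀ a b : {v | v ∈ X}, (C.induce {v | v ∈ X}).Reachable a b := by
    intro a b
    have h4 : ∃ x ∈ X, x ≠ a.1 ∧ x ≠ b.1 := by
      have h5 : 0 < (X \ {a.1, b.1}).card := by
        have h6 := le_card_sdiff ({a.1, b.1} : Finset α) X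
        have h7 : ({a.1, b.1} : Finset α).card ≤ 2 := card_le_two
        omega
      obtain ⟨x, hx⟩ := card_pos.1 h5
      rw [mem_sdiff, mem_insert, mem_singleton] at hx
      exact ⟨x, hx.1, fun h => hx.2 (Or.inl h), fun h => hx.2 (Or.inr h)⟩
    obtain ⟨x, hx, hxa, hxb⟩ := h4
    have h8 := (hX x hx).preconnected ⟨a.1, a.2, hxa.symm⟩ ⟨b.1, b.2, hxb.symm⟩
    refine h8.map (⟨fun v => ⟨v.1, v.2.1⟩, ?_⟩ :
      C.induce {v | v ∈ X ∧ v ≠ x} →g C.induce {v | v ∈ X})
    intro c d hcd
    exact hcd
  have hpos : 0 < X.card := by omega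
  obtain ⟨u, hu⟩ := card_pos.1 hpos
  have hD : (C.induce {v | v ∈ X}).Connected :=
    { preconnected := hconn, nonempty := ⟨⟨u, hu⟩⟩ }
  have hadj : ∃ v : {v | v ∈ X}, (C.induce {v | v ∈ X}).Adj ⟨u, hu⟩ v := by
    obtain ⟨w, hw, hwu⟩ : ∃ w ∈ X, w ≠ u := by
      have h5 : 0 < (X.erase u).card := by
        rw [card_erase_of_mem hu]
        omega
      obtain ⟨w, hw⟩ := card_pos.1 h5
      exact ⟨w, mem_of_mem_erase hw, ne_of_mem_erase hw⟩
    obtain ⟨p⟩ := hconn ⟨u, hu⟩ ⟨w, hw⟩
    cases p with
    | nil => exact absurd rfl hwu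
    | cons h _ => exact ⟨_, h⟩
  obtain ⟨v, hv⟩ := hadj
  have h2 : ∀ x y z w : {v | v ∈ X}, (C.induce {v | v ∈ X}).Adj x y →
      (C.induce {v | v ∈ X}).Adj x z → (C.induce {v | v ∈ X}).Adj x w →
      y = z ∨ y = w ∨ z = w := by
    intro x y z w hy hz hw
    rcases hdeg x.1 x.2 y.1 y.2 z.1 z.2 w.1 w.2 hy hz hw with h | h | h
    · exact Or.inl (Subtype.ext h)
    · exact Or.inr (Or.inl (Subtype.ext h))
    · exact Or.inr (Or.inr (Subtype.ext h))
  have h9 := CAC.card_le (C.induce {v | v ∈ X}) hD h2 hv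
  have h10 : Nat.card {v | v ∈ X} = X.card := by
    rw [Nat.card_eq_fintype_card]
    simp
  rw [h10] at h9
  have h11 := CAC.num hm
  omega

end Pool.Agent.TRB
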