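import Pool.Agent.TRB.St

/-!
# TRB (MP_e73337_co): module CE1
-/

set_option autoImplicit false

namespace Pool.Agent.TRB

open Finset Pool.Agent.Lib_helper61.SwitchBasic Pool.Agent.TRC Pool.Agent.NTW

namespace CE1

variable {α : Type} [Fintype α] [DecidableEq α] {C : SimpleGraph α} {c : α}

theorem notMem_self {x : α} (hx : x ≠ c) : c ∉ blk C c x := by
  rw [mem_blk]
  intro h
  obtain ⟨w⟩ := h.symm
  cases w with
  | nil => exact hx rfl
  | cons h _ => exact h.2.1 rfl

omit [DecidableEq α] in
theorem mem_Tc {v : α} : v ∈ Tc C c ↔ v = c ∨ 2 * (blk C c v).card < Fintype.card α := by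
  simp [Tc]

end CE1

open CE1 in
theorem t_CE1 : S_CE1 := by
  intro α _ _ C hno
  refine ⟨fun c => ?_, fun c v w hv hw => ?_, fun c v w hv hvc hvw => ?_⟩
  · obtain ⟨x, hx, hcard⟩ := hno c
    have hd : Disjoint (Tc C c) (blk C c x) := by
      rw [Finset.disjoint_left]
      intro v hv hvx
      rcases mem_Tc.1 hv with rfl | hv
      · exact notMem_self hx hvx
      · rw [mem_blk] at hvx
        rw [blk_eq.2 hvx] at hcard
        omega
    have h1 := card_union_of_disjoint hd
    have h2 := card_le_univ (Tc C c ∪ blk C c x)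
    omega
  · rw [mem_Tc, not_or, not_lt] at hv hw
    by_contra hn
    have hd : Disjoint (blk C c v) (blk C c w) := by
      rw [Finset.disjoint_left]
      intro y h1 h2
      rw [mem_blk] at h1 h2
      exact hn (h1.trans h2.symm)
    have hd2 : Disjoint {c} (blk C c v ∪ blk C c w) := by
      rw [disjoint_singleton_left, mem_union, not_or]
      exact ⟨notMem_self hv.1, notMem_self hw.1⟩
    have h1 := card_union_of_disjoint hd
    have h3 := card_union_of_disjoint hd2
    have h2 := card_le_univ ({c} ∪ (blk C c v ∪ blk C c w))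
    rw [card_singleton] at h3
    have h4 := hv.2
    have h5 := hw.2
    omega
  · rw [mem_Tc] at hv ⊢
    by_cases hwc : w = c
    · exact Or.inl hwc
    · right
      have h : (del C c).Reachable v w := SimpleGraph.Adj.reachable ⟨hvw, hvc, hwc⟩
      rcases hv with hv | hv
      · exact absurd hv hvc
      · rwa [← blk_eq.2 h]

end Pool.Agent.TRB
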