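import Pool.Agent.TRB.St

/-! TRB, module CE2 (helper34). -/

set_option autoImplicit false

namespace Pool.Agent.TRB

open Finset Pool.Agent.Lib_helper61.SwitchBasic Pool.Agent.TRC Pool.Agent.NTW

namespace CE2

variable {α : Type}

theorem rind {G : SimpleGraph α} {x : α} (P : α → Prop) (h0 : P x)
    (hs : ∀ y z, G.Reachable x y → P y → G.Adj y z → P z) : ∀ y, G.Reachable x y → P y := by
  intro y hy
  have h1 := (SimpleGraph.reachable_iff_reflTransGen x y).1 hy
  clear hy
  induction h1 with
  | refl => exact h0
  | tail h2 h3 ih => exact hs _ _ ((SimpleGraph.reachable_iff_reflTransGen _ _).2 h2) ih h3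

theorem mTc [Fintype α] {C : SimpleGraph α} {c v : α} :
    v ∈ Tc C c ↔ v = c ∨ 2 * (blk C c v).card < Fintype.card α := by
  simp [Tc]

theorem mblk [Fintype α] {C : SimpleGraph α} {c x y : α} :
    y ∈ blk C c x ↔ (del C c).Reachable x y := by
  simp [blk]

end CE2

open CE2 in
/-- CE2. -/
theorem t_CE2 : S_CE1 → S_CE2 := by
  intro hCE1 α _ _ C hC hN c c' hne hc
  obtain ⟨ha, hb, hcl⟩ := hCE1 α C hN
  have hsm : 2 * (blk C c' c).card < Fintype.card α := by
    rcases mTc.1 hc with h | h
    · exact absurd h hne
    · exact h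
  have p1 : c' ∉ Tc C c := by
    intro hc'
    have hn := ha c
    have hpos : 0 < Fintype.card α := Fintype.card_pos_iff.2 ⟨c⟩
    have hD : (Tc C c)ᶜ.Nonempty := by
      rw [← card_pos, card_compl]
      omega
    obtain ⟨d, hd⟩ := hD
    rw [mem_compl] at hd
    -- a neighbour of `c` outside `Tc C c`
    have hnb : ∃ v, v ∉ Tc C c ∧ C.Adj v c := by
      have key : ∀ y, C.Reachable d y → y ∉ Tc C c ∨ ∃ v, v ∉ Tc C c ∧ C.Adj v c := by
        refine rind _ (Or.inl hd) ?_
        intro y z _ h1 h2
        rcases h1 with h1 | h1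
        · by_cases hz : z ∈ Tc C c
          · right
            by_cases hzc : z = c
            · exact ⟨y, h1, hzc ▸ h2⟩
            · exact absurd (hcl c z y hz hzc h2.symm) h1
          · exact Or.inl hz
        · exact Or.inr h1
      rcases key c (hC.preconnected d c) with h | h
      · exact absurd (mTc.2 (Or.inl rfl)) h
      · exact h
    obtain ⟨v, hv, hvc⟩ := hnb
    have hne1 : ∀ y, y ∉ Tc C c → y ≠ c' := fun y hy g => hy (g ▸ hc')
    have hreach : ∀ y, y ∉ Tc C c → (del C c').Reachable v y := by
      intro y hy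
      have h1 := hb c v y hv hy
      have key : ∀ y, (del C c).Reachable v y → y ∉ Tc C c ∧ (del C c').Reachable v y := by
        refine rind _ ⟨hv, SimpleGraph.Reachable.refl v⟩ ?_
        rintro y z _ ⟨h2, h3⟩ h4
        have hz : z ∉ Tc C c := fun g => h2 (hcl c z y g h4.2.2 h4.1.symm)
        have h5 : (del C c').Adj y z := ⟨h4.1, hne1 y h2, hne1 z hz⟩
        exact ⟨hz, h3.trans h5.reachable⟩
      exact (key y h1).2
    have hcv : (del C c').Adj c v := ⟨hvc.symm, hne, hne1 v hv⟩
    have hsub : insert c (Tc C c)ᶜ ⊆ blk C c' c := by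
      intro y hy
      rw [mblk]
      rcases mem_insert.1 hy with g | g
      · rw [g]
      · exact hcv.reachable.trans (hreach y (mem_compl.1 g))
    have h6 := card_le_card hsub
    rw [card_insert_of_notMem (by
      rw [mem_compl, not_not]
      exact mTc.2 (Or.inl rfl)), card_compl] at h6
    omega
  refine ⟨?_, p1⟩
  intro v hv
  have key : ∀ x, C.Reachable x c → x ∈ Tc C c → (del C c').Reachable x c := by
    intro x hx
    have h1 := (SimpleGraph.reachable_iff_reflTransGen x c).1 hx
    induction h1 using Relation.ReflTransGen.head_induction_on with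
    | refl => exact fun _ => SimpleGraph.Reachable.refl c
    | head h2 h3 ih =>
      rename_i x y
      intro h4
      by_cases hxc : x = c
      · rw [hxc]
      · have h5 := hcl c x y h4 hxc h2
        have h6 : (del C c').Adj x y := ⟨h2, fun g => p1 (g ▸ h4), fun g => p1 (g ▸ h5)⟩
        exact h6.reachable.trans
          (ih ((SimpleGraph.reachable_iff_reflTransGen _ _).2 h3) h5)
  have h7 := key v (hC.preconnected v c) hv
  rw [mTc]
  right
  have h8 : blk C c' v = blk C c' c := by
    ext y
    rw [mblk, mblk]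
    exact ⟨fun g => h7.symm.trans g, fun g => h7.trans g⟩
  rw [h8]
  exact hsm

end Pool.Agent.TRB
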