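import Pool.Agent.TRB.St

/-!
# TRB, module CE3: the central block and its branches form a centre
-/

set_option autoImplicit false

namespace Pool.Agent.TRB

open Finset Pool.Agent.Lib_helper61.SwitchBasic Pool.Agent.TRC Pool.Agent.NTW

namespace CE3

theorem mem_Tc {α : Type} [Fintype α] (C : SimpleGraph α) (c v : α) :
    v ∈ Tc C c ↔ v = c ∨ 2 * (blk C c v).card < Fintype.card α := by
  classical
  simp [Tc]

theorem mem_KK {α : Type} [Fintype α] (C : SimpleGraph α) (v : α) :
    v ∈ KK C ↔ ∀ c, c ≠ v → v ∉ Tc C c := by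
  classical
  simp [KK]

theorem mem_bk {α : Type} [Fintype α] (C : SimpleGraph α) (c x y : α) :
    y ∈ blk C c x ↔ (del C c).Reachable x y := by
  classical
  simp [blk]

/-- `σ` as an isomorphism of the graphs without the edges at `c` and at `σ c`. -/
def iso {α : Type} (C : SimpleGraph α) (c : α) (σ : Equiv.Perm α) (h : IsAut C σ) :
    del C c ≃g del C (σ c) where
  toEquiv := σ
  map_rel_iff' := by
    intro u v
    show (C.Adj (σ u) (σ v) ∧ σ u ≠ σ c ∧ σ v ≠ σ c) ↔ (C.Adj u v ∧ u ≠ c ∧ v ≠ c)
    rw [h u v, σ.injective.ne_iff, σ.injective.ne_iff]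

theorem card_bk {α : Type} [Fintype α] [DecidableEq α] (C : SimpleGraph α) (c z : α)
    (σ : Equiv.Perm α) (h : IsAut C σ) : (blk C (σ c) (σ z)).card = (blk C c z).card := by
  symm
  apply Finset.card_bij (fun y _ => σ y)
  · intro y hy
    rw [mem_bk] at hy ⊢
    exact ((iso C c σ h).reachable_iff).2 hy
  · intro a _ b _ hab
    exact σ.injective hab
  · intro b hb
    refine ⟨σ.symm b, ?_, σ.apply_symm_apply b⟩
    rw [mem_bk] at hb ⊢
    refine ((iso C c σ h).reachable_iff).1 ?_
    have : (iso C c σ h) (σ.symm b) = b := σ.apply_symm_apply b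
    rw [this]
    exact hb

theorem Tc_perm {α : Type} [Fintype α] [DecidableEq α] (C : SimpleGraph α) (c v : α)
    (σ : Equiv.Perm α) (h : IsAut C σ) : σ v ∈ Tc C (σ c) ↔ v ∈ Tc C c := by
  rw [mem_Tc, mem_Tc, card_bk C c v σ h, σ.injective.eq_iff]

/-- A walk to the root of a branch stays in the branch. -/
theorem walk {α : Type} [Fintype α] (C : SimpleGraph α) (b b' : α)
    (h3 : ∀ v w, v ∈ Tc C b → v ≠ b → C.Adj v w → w ∈ Tc C b) (hb : b' ∉ Tc C b) :
    ∀ {v w : α} (_ : C.Walk v w), w = b → v ∈ Tc C b → (del C b').Reachable v b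
  | _, _, .nil, h, _ => h ▸ SimpleGraph.Reachable.refl _
  | v, _, .cons (v := v1) h p, hw, hv => by
    by_cases hvb : v = b
    · rw [hvb]
    · have h1 : v1 ∈ Tc C b := h3 v v1 hv hvb h
      have ih := walk C b b' h3 hb p hw h1
      have n0 : v ≠ b' := fun e => hb (e ▸ hv)
      have n1 : v1 ≠ b' := fun e => hb (e ▸ h1)
      have hadj : (del C b').Adj v v1 := ⟨h, n0, n1⟩
      exact hadj.reachable.trans ih

end CE3

open CE3 in
theorem t_CE3 : S_CE1 → S_CE2 → S_CE3 := by
  intro hCE1 hCE2 α _ _ C hC hN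
  obtain ⟨-, -, h3⟩ := hCE1 α C hN
  have h2 := hCE2 α C hC hN
  have hroot : ∀ b, b ∈ Tc C b := fun b => (mem_Tc C b b).2 (Or.inl rfl)
  refine ⟨fun b _ => hroot b, ?_, ?_, ?_, ?_, ?_⟩
  · -- cover
    intro v
    classical
    obtain ⟨c, hc, hmax⟩ := exists_max_image (univ.filter fun c => v ∈ Tc C c)
      (fun c => (Tc C c).card) ⟨v, by simpa using hroot v⟩
    have hvc : v ∈ Tc C c := by simpa using hc
    refine ⟨c, ?_, hvc⟩
    rw [mem_KK]
    intro c' hne hcc'
    obtain ⟨hsub, hnot⟩ := h2 c c' hne.symm hcc'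
    have hm := hmax c' (by simpa using hsub hvc)
    have hlt : (Tc C c).card < (Tc C c').card := by
      apply card_lt_card
      rw [ssubset_iff_of_subset hsub]
      exact ⟨c', hroot c', hnot⟩
    exact absurd hm (not_le.2 hlt)
  · -- disj
    intro b hb b' hb' hne
    rw [mem_KK] at hb hb'
    have n1 : b ∉ Tc C b' := hb b' hne.symm
    have n2 : b' ∉ Tc C b := hb' b hne
    rw [disjoint_left]
    intro v hv hv'
    have hvb' : v ≠ b' := fun e => n2 (e ▸ hv)
    obtain ⟨p⟩ := hC.preconnected v b
    have hr := walk C b b' (h3 b) n2 p rfl hv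
    apply n1
    rw [mem_Tc] at hv' ⊢
    right
    rcases hv' with h | h
    · exact absurd h hvb'
    · rwa [← blk_eq.2 hr]
  · -- invK
    intro s hs x
    rw [mem_KK, mem_KK]
    constructor
    · intro h c hc hx
      exact h (s c) (fun e => hc (s.injective e)) ((Tc_perm C c x s hs).2 hx)
    · intro h c hc hx
      have e : s (s.symm c) = c := s.apply_symm_apply c
      rw [← e] at hx hc
      exact h (s.symm c) (fun e => hc (by rw [e])) ((Tc_perm C (s.symm c) x s hs).1 hx)
  · -- invT
    intro s hs b _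
    ext y
    have e : s (s⁻¹ y) = y := s.apply_symm_apply y
    rw [mem_im, ← Tc_perm C b (s⁻¹ y) s hs, e]
  · -- loc
    intro s hs b _ hsb
    have hT : ∀ v, s v ∈ Tc C b ↔ v ∈ Tc C b := by
      intro v
      have := Tc_perm C b v s hs
      rwa [hsb] at this
    have hT' : ∀ v, s⁻¹ v ∈ Tc C b ↔ v ∈ Tc C b := by
      intro v
      have e : s (s⁻¹ v) = v := s.apply_symm_apply v
      rw [← hT (s⁻¹ v), e]
    have hsne : ∀ v, v ≠ b → s v ≠ b := fun v hv e => hv (s.injective (e.trans hsb.symm))
    let s' : Equiv.Perm α :=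
      { toFun := fun v => if v ∈ Tc C b then s v else v
        invFun := fun v => if v ∈ Tc C b then s⁻¹ v else v
        left_inv := by
          intro v
          by_cases hv : v ∈ Tc C b
          · have h' := (hT v).2 hv
            simp [hv, h']
          · simp [hv]
        right_inv := by
          intro v
          by_cases hv : v ∈ Tc C b
          · have h' := (hT' v).2 hv
            simp only [hv, if_true, h']
            simp
          · simp [hv] }
    have e1 : ∀ v ∈ Tc C b, s' v = s v := fun v hv => if_pos hv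
    have e2 : ∀ v, v ∉ Tc C b → s' v = v := fun v hv => if_neg hv
    refine ⟨s', ?_, e1, e2⟩
    -- the mixed case
    have key : ∀ u v, u ∈ Tc C b → v ∉ Tc C b → (C.Adj (s u) v ↔ C.Adj u v) := by
      intro u v hu hv
      by_cases hub : u = b
      · rw [hub, hsb]
      · constructor
        · intro h
          exact absurd (h3 b (s u) v ((hT u).2 hu) (hsne u hub) h) hv
        · intro h
          exact absurd (h3 b u v hu hub h) hv
    intro u v
    by_cases hu : u ∈ Tc C b
    · by_cases hv : v ∈ Tc C b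
      · rw [e1 u hu, e1 v hv]
        exact hs u v
      · rw [e1 u hu, e2 v hv]
        exact key u v hu hv
    · by_cases hv : v ∈ Tc C b
      · rw [e2 u hu, e1 v hv, C.adj_comm, key v u hv hu, C.adj_comm]
      · rw [e2 u hu, e2 v hv]

end Pool.Agent.TRB
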