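import Pool.Agent.TRB.St

/-!
# TRB: the central block is 2-connected (CE4)
-/

set_option autoImplicit false

namespace Pool.Agent.TRB

open Finset Pool.Agent.Lib_helper61.SwitchBasic Pool.Agent.TRC Pool.Agent.NTW

namespace CE4

variable {α : Type} [Fintype α] [DecidableEq α] {C : SimpleGraph α}

omit [DecidableEq α] in
theorem nmem {v x : α} (hv : v ∈ KK C) (h : x ≠ v) : v ∉ Tc C x := by
  simp only [KK, mem_filter, mem_univ, true_and] at hv
  exact hv x h

theorem out (h1 : S_CE1) (hN : NoC C) {x v w : α} (hv : v ∉ Tc C x) (h : (del C x).Adj v w) :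
    w ∉ Tc C x := by
  intro hw
  exact hv ((h1 α C hN).2.2 x w v hw h.2.2 h.1.symm)

theorem uniq (hc : Central C (KK C) (Tc C)) {v b b' : α} (hb : b ∈ KK C) (hb' : b' ∈ KK C)
    (h : v ∈ Tc C b) (h' : v ∈ Tc C b') : b = b' := by
  by_contra hne
  exact disjoint_left.1 (hc.disj b hb b' hb' hne) h h'

theorem edge (h1 : S_CE1) (hN : NoC C) (hc : Central C (KK C) (Tc C)) {v w b b' : α}
    (hvw : C.Adj v w) (hb : b ∈ KK C) (hb' : b' ∈ KK C) (h : v ∈ Tc C b) (h' : w ∈ Tc C b') :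
    b = b' ∨ (v = b ∧ w = b') := by
  by_cases e1 : v = b
  · by_cases e2 : w = b'
    · exact Or.inr ⟨e1, e2⟩
    · exact Or.inl (uniq hc hb hb' h ((h1 α C hN).2.2 b' w v h' e2 hvw.symm))
  · exact Or.inl (uniq hc hb hb' ((h1 α C hN).2.2 b v w h e1 hvw) h')

theorem walk (h1 : S_CE1) (hN : NoC C) (hc : Central C (KK C) (Tc C)) {x v w : α}
    (p : (del C x).Walk v w) : ∀ (hw : w ∈ KK C ∧ w ≠ x), v ∉ Tc C x →
    ∀ (b : α) (hb : b ∈ KK C ∧ b ≠ x), v ∈ Tc C b →
    (C.induce {v | v ∈ KK C ∧ v ≠ x}).Reachable ⟨b, hb⟩ ⟨w, hw⟩ := by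
  induction p with
  | nil =>
    rename_i u
    intro hw _ b hb hv
    have e : b = u := by
      by_contra hne
      exact nmem hw.1 hne hv
    subst e
    exact SimpleGraph.Reachable.refl _
  | cons h p ih =>
    rename_i u v' w'
    intro hw hv b hb hvb
    obtain ⟨b', hb', hvb'⟩ := hc.cover v'
    have hv' : v' ∉ Tc C x := out h1 hN hv h
    have hbx : b' ≠ x := by
      rintro rfl
      exact hv' hvb'
    have key := ih hw hv' b' ⟨hb', hbx⟩ hvb'
    rcases edge h1 hN hc h.1 hb.1 hb' hvb hvb' with e | ⟨e1, e2⟩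
    · subst e
      exact key
    · subst e1
      subst e2
      refine SimpleGraph.Reachable.trans (SimpleGraph.Adj.reachable ?_) key
      exact h.1

end CE4

theorem t_CE4 (h1 : S_CE1) (h3 : S_CE3) : S_CE4 := by
  intro α _ _ C hC hN hK x hx
  have hc := h3 α C hC hN
  have hne : (C.induce {v | v ∈ KK C ∧ v ≠ x}).Preconnected := by
    rintro ⟨u, hu⟩ ⟨w, hw⟩
    have hu' : u ∉ Tc C x := CE4.nmem hu.1 (Ne.symm hu.2)
    have hw' : w ∉ Tc C x := CE4.nmem hw.1 (Ne.symm hw.2)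
    obtain ⟨p⟩ := (h1 α C hN).2.1 x u w hu' hw'
    exact CE4.walk h1 hN hc p hw hu' u hu (hc.root u hu.1)
  have h2 : 0 < ((KK C).erase x).card := by
    rw [card_erase_of_mem hx]
    omega
  obtain ⟨y, hy⟩ := card_pos.1 h2
  rw [mem_erase] at hy
  have : Nonempty ({v | v ∈ KK C ∧ v ≠ x} : Set α) := ⟨⟨y, hy.2, hy.1⟩⟩
  exact ⟨hne⟩

end Pool.Agent.TRB
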