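import Pool.Agent.TRB.St

/-!
# TRB, module CRD: a missing number of elements in a large branch
-/

set_option autoImplicit false

namespace Pool.Agent.TRB

open Finset Pool.Agent.Lib_helper61.SwitchBasic Pool.Agent.TRC Pool.Agent.NTW

namespace CRD

theorem card_im {α : Type} [DecidableEq α] (s : Equiv.Perm α) (S : Finset α) :
    (im s S).card = S.card := by
  unfold im
  exact Finset.card_map _

/-- the trace on a branch is the image of the trace on another branch -/
theorem trace {α : Type} [Fintype α] [DecidableEq α] {C : SimpleGraph α} {K : Finset α}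
    {T : α → Finset α} (hC : Central C K T) (t : Finset α) {s : Equiv.Perm α} (hs : IsAut C s)
    {b : α} (hb : b ∈ K) : ∃ b' ∈ K,
      (im s t ∩ (T b).erase b).card = (t ∩ (T b').erase b').card := by
  have h0 : s (s⁻¹ b) = b := s.apply_symm_apply b
  have hb' : s⁻¹ b ∈ K := by
    have := hC.invK s hs (s⁻¹ b)
    rw [h0] at this
    exact this.1 hb
  refine ⟨s⁻¹ b, hb', ?_⟩
  have hT := hC.invT s hs _ hb'
  rw [h0] at hT
  rw [← card_im s (t ∩ (T (s⁻¹ b)).erase (s⁻¹ b))]
  congr 1
  ext x
  rw [mem_im, Finset.mem_inter, Finset.mem_inter, Finset.mem_erase, Finset.mem_erase, mem_im,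
    ← hT, mem_im]
  have h1 : s⁻¹ x ≠ s⁻¹ b ↔ x ≠ b := (s⁻¹).injective.ne_iff
  rw [h1]

end CRD

theorem t_CRD : S_CRD := by
  classical
  intro α _ _ C K T hC hA t t' b hb hcard
  set X := (T b).erase b with hX
  have hXc : X.card + 1 = (T b).card := Finset.card_erase_add_one (hC.root b hb)
  set V : Finset ℕ := (K.image fun b' => (t ∩ (T b').erase b').card) ∪
    (K.image fun b' => X.card - (t ∩ (T b').erase b').card) ∪
    ((K.image fun b' => (t' ∩ (T b').erase b').card) ∪
    (K.image fun b' => X.card - (t' ∩ (T b').erase b').card)) with hV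
  have hVc : V.card ≤ 4 * K.card := by
    refine (Finset.card_union_le _ _).trans ?_
    have h1 := Finset.card_union_le (K.image fun b' => (t ∩ (T b').erase b').card)
      (K.image fun b' => X.card - (t ∩ (T b').erase b').card)
    have h2 := Finset.card_union_le (K.image fun b' => (t' ∩ (T b').erase b').card)
      (K.image fun b' => X.card - (t' ∩ (T b').erase b').card)
    have e1 : (K.image fun b' => (t ∩ (T b').erase b').card).card ≤ K.card :=
      Finset.card_image_le
    have e2 : (K.image fun b' => X.card - (t ∩ (T b').erase b').card).card ≤ K.card :=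
      Finset.card_image_le
    have e3 : (K.image fun b' => (t' ∩ (T b').erase b').card).card ≤ K.card :=
      Finset.card_image_le
    have e4 : (K.image fun b' => X.card - (t' ∩ (T b').erase b').card).card ≤ K.card :=
      Finset.card_image_le
    omega
  obtain ⟨k, hk1, hk2⟩ := Finset.exists_mem_notMem_of_card_lt_card
    (s := V) (t := Finset.range (X.card + 1)) (by rw [Finset.card_range]; omega)
  refine ⟨k, by rw [Finset.mem_range] at hk1; omega, ?_⟩
  have key : ∀ (S q : Finset α), Nonempty (sw C S ≃g sw C q) → ∃ b' ∈ K,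
      (S ∩ X).card = (q ∩ (T b').erase b').card ∨
      (S ∩ X).card = X.card - (q ∩ (T b').erase b').card := by
    intro S q h
    obtain ⟨s, hs, hS⟩ := (iso_iff hA S q).1 h
    obtain ⟨b', hb', htr⟩ := CRD.trace hC q (mem_AA.1 hs) hb
    refine ⟨b', hb', ?_⟩
    rcases hS with hS | hS
    · left
      rw [← hS]
      exact htr
    · right
      have e : S ∩ X = X \ (im s q ∩ X) := by
        rw [hS]
        ext x
        simp only [Finset.mem_inter, Finset.mem_sdiff, Finset.mem_compl]
        tauto
      rw [e, Finset.card_sdiff_of_subset Finset.inter_subset_right, htr]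
  intro S hS hcon
  apply hk2
  rw [hV, Finset.mem_union, Finset.mem_union, Finset.mem_union]
  rcases hS with hS | hS
  · obtain ⟨b', hb', h | h⟩ := key S t hS
    · exact Or.inl (Or.inl (Finset.mem_image.2 ⟨b', hb', by rw [← h, hcon]⟩))
    · exact Or.inl (Or.inr (Finset.mem_image.2 ⟨b', hb', by rw [← h, hcon]⟩))
  · obtain ⟨b', hb', h | h⟩ := key S t' hS
    · exact Or.inr (Or.inl (Finset.mem_image.2 ⟨b', hb', by rw [← h, hcon]⟩))
    · exact Or.inr (Or.inr (Finset.mem_image.2 ⟨b', hb', by rw [← h, hcon]⟩))

end Pool.Agent.TRB
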