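import Pool.Agent.TRB.St

/-!
# TRB, module DEG: small degrees make every class automorphism an automorphism
-/

set_option autoImplicit false

namespace Pool.Agent.TRB

open Finset Pool.Agent.Lib_helper61.SwitchBasic Pool.Agent.TRC Pool.Agent.NTW

namespace DEG

variable {α : Type} [Fintype α] [DecidableEq α]

/-- The indicator of adjacency. -/
def ad (T : SimpleGraph α) [DecidableRel T.Adj] (u v : α) : ℤ := if T.Adj u v then 1 else 0

omit [Fintype α] [DecidableEq α] in
theorem ad_comm (T : SimpleGraph α) [DecidableRel T.Adj] (u v : α) : ad T u v = ad T v u := by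
  unfold ad
  rw [if_congr (T.adj_comm u v) rfl rfl]

omit [Fintype α] [DecidableEq α] in
theorem ad_self (T : SimpleGraph α) [DecidableRel T.Adj] (u : α) : ad T u u = 0 := by
  unfold ad
  rw [if_neg (T.loopless.irrefl u)]

omit [Fintype α] [DecidableEq α] in
theorem ad_nonneg (T : SimpleGraph α) [DecidableRel T.Adj] (u v : α) : 0 ≤ ad T u v := by
  unfold ad
  split_ifs <;> norm_num

omit [DecidableEq α] in
theorem deg_eq (T : SimpleGraph α) [DecidableRel T.Adj] (u : α) :
    (T.degree u : ℤ) = ∑ v, ad T u v := by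
  unfold ad
  rw [← SimpleGraph.card_neighborFinset_eq_degree, SimpleGraph.neighborFinset_eq_filter,
    Finset.card_filter]
  push_cast
  rfl

/-- The number of pairs with one end in `S`. -/
def cr (T : SimpleGraph α) [DecidableRel T.Adj] (S : Finset α) : ℤ :=
  ∑ u ∈ S, ∑ v ∈ Sᶜ, ad T u v

theorem cr_compl (T : SimpleGraph α) [DecidableRel T.Adj] (S : Finset α) :
    cr T Sᶜ = cr T S := by
  unfold cr
  rw [compl_compl, Finset.sum_comm]
  refine Finset.sum_congr rfl fun u _ => Finset.sum_congr rfl fun v _ => ad_comm T v u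

theorem split (f : α → α → ℤ) (S : Finset α) :
    ∑ u, ∑ v, f u v = (∑ u ∈ S, ∑ v ∈ S, f u v) + (∑ u ∈ S, ∑ v ∈ Sᶜ, f u v) +
      ((∑ u ∈ Sᶜ, ∑ v ∈ S, f u v) + ∑ u ∈ Sᶜ, ∑ v ∈ Sᶜ, f u v) := by
  rw [← Finset.sum_add_sum_compl S (fun u => ∑ v, f u v)]
  congr 1
  · rw [← Finset.sum_add_distrib]
    exact Finset.sum_congr rfl fun u _ => (Finset.sum_add_sum_compl S (f u)).symm
  · rw [← Finset.sum_add_distrib]
    exact Finset.sum_congr rfl fun u _ => (Finset.sum_add_sum_compl S (f u)).symm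

theorem key (T : SimpleGraph α) [DecidableRel T.Adj] (S : Finset α) (σ : Equiv.Perm α)
    (h : ∀ u v : α, (sw T S).Adj (σ u) (σ v) ↔ T.Adj u v) :
    (S.card : ℤ) * ((Fintype.card α : ℤ) - S.card) = 2 * cr T S := by
  classical
  have e1 : ∑ u, ∑ v, ad (sw T S) u v = ∑ u, ∑ v, ad T u v := by
    rw [← Equiv.sum_comp σ (fun u => ∑ v, ad (sw T S) u v)]
    refine Finset.sum_congr rfl fun u _ => ?_
    rw [← Equiv.sum_comp σ (fun v => ad (sw T S) (σ u) v)]
    refine Finset.sum_congr rfl fun v _ => ?_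
    unfold ad
    exact if_congr (h u v) rfl rfl
  have same : ∀ u v, (u ∈ S ↔ v ∈ S) → ad (sw T S) u v = ad T u v := by
    intro u v huv
    unfold ad
    refine if_congr ?_ rfl rfl
    rw [sw_adj]
    constructor
    · intro hh
      exact hh.2.2 huv
    · intro hh
      exact ⟨hh.ne, ⟨fun _ => huv, fun _ => hh⟩⟩
  have diff : ∀ u v, ¬ (u ∈ S ↔ v ∈ S) → ad (sw T S) u v = 1 - ad T u v := by
    intro u v huv
    have hne : u ≠ v := by
      rintro rfl
      exact huv Iff.rfl
    unfold ad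
    by_cases hh : T.Adj u v
    · rw [if_pos hh, if_neg]
      · norm_num
      · rw [sw_adj]
        intro h2
        exact huv (h2.2.1 hh)
    · rw [if_neg hh, if_pos]
      · norm_num
      · rw [sw_adj]
        exact ⟨hne, ⟨fun h3 => absurd h3 hh, fun h3 => absurd h3 huv⟩⟩
  rw [split (ad (sw T S)) S, split (ad T) S] at e1
  have a1 : (∑ u ∈ S, ∑ v ∈ S, ad (sw T S) u v) = ∑ u ∈ S, ∑ v ∈ S, ad T u v :=
    Finset.sum_congr rfl fun u hu => Finset.sum_congr rfl fun v hv => same u v (by simp [hu, hv])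
  have a4 : (∑ u ∈ Sᶜ, ∑ v ∈ Sᶜ, ad (sw T S) u v) = ∑ u ∈ Sᶜ, ∑ v ∈ Sᶜ, ad T u v :=
    Finset.sum_congr rfl fun u hu => Finset.sum_congr rfl fun v hv => same u v (by
      rw [Finset.mem_compl] at hu hv
      simp [hu, hv])
  have a2 : (∑ u ∈ S, ∑ v ∈ Sᶜ, ad (sw T S) u v) = (S.card : ℤ) * Sᶜ.card - cr T S := by
    have : (∑ u ∈ S, ∑ v ∈ Sᶜ, ad (sw T S) u v) = ∑ u ∈ S, ∑ v ∈ Sᶜ, (1 - ad T u v) :=
      Finset.sum_congr rfl fun u hu => Finset.sum_congr rfl fun v hv => diff u v (by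
        rw [Finset.mem_compl] at hv
        simp [hu, hv])
    rw [this]
    simp only [Finset.sum_sub_distrib, Finset.sum_const, nsmul_eq_mul, mul_one]
    rfl
  have a3 : (∑ u ∈ Sᶜ, ∑ v ∈ S, ad (sw T S) u v) = (S.card : ℤ) * Sᶜ.card - cr T S := by
    have : (∑ u ∈ Sᶜ, ∑ v ∈ S, ad (sw T S) u v) = ∑ u ∈ Sᶜ, ∑ v ∈ S, (1 - ad T u v) :=
      Finset.sum_congr rfl fun u hu => Finset.sum_congr rfl fun v hv => diff u v (by
        rw [Finset.mem_compl] at hu
        simp [hu, hv])
    rw [this, ← cr_compl T S]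
    simp only [Finset.sum_sub_distrib, Finset.sum_const, nsmul_eq_mul, mul_one]
    unfold cr
    rw [compl_compl]
    ring
  have b2 : (∑ u ∈ S, ∑ v ∈ Sᶜ, ad T u v) = cr T S := rfl
  have b3 : (∑ u ∈ Sᶜ, ∑ v ∈ S, ad T u v) = cr T S := by
    rw [← cr_compl T S]
    unfold cr
    rw [compl_compl]
  rw [a1, a2, a3, a4, b2, b3] at e1
  have hc : (Sᶜ.card : ℤ) = (Fintype.card α : ℤ) - S.card := by
    have h5 := Finset.card_add_card_compl S
    have h6 : (S.card : ℤ) + Sᶜ.card = Fintype.card α := by exact_mod_cast h5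
    linarith
  rw [← hc]
  linarith

theorem cr_deg (T : SimpleGraph α) [DecidableRel T.Adj] (S : Finset α) :
    cr T S ≤ ∑ v ∈ S, (T.degree v : ℤ) := by
  unfold cr
  refine Finset.sum_le_sum fun u _ => ?_
  rw [deg_eq]
  exact Finset.sum_le_sum_of_subset_of_nonneg (Finset.subset_univ _) fun v _ _ => ad_nonneg T u v

/-- the set of a class automorphism is empty if it has at most half of the vertices -/
theorem empty_of (C : SimpleGraph α) [DecidableRel C.Adj]
    (hd : ∀ v, 4 * C.degree v < Fintype.card α) (S : Finset α) (hS : 2 * S.card ≤ Fintype.card α)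
    (hk : (S.card : ℤ) * ((Fintype.card α : ℤ) - S.card) = 2 * cr C S) : S = ∅ := by
  by_contra hne
  have hne' : S.Nonempty := Finset.nonempty_iff_ne_empty.2 hne
  have h1 := cr_deg C S
  have h2 : ∑ v ∈ S, (4 * (C.degree v : ℤ)) < ∑ _v ∈ S, (Fintype.card α : ℤ) := by
    refine Finset.sum_lt_sum_of_nonempty hne' fun v _ => ?_
    exact_mod_cast hd v
  rw [Finset.sum_const, nsmul_eq_mul, ← Finset.mul_sum] at h2
  have h3 : (2 : ℤ) * S.card ≤ Fintype.card α := by exact_mod_cast hS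
  have h4 : (0 : ℤ) ≤ S.card := by positivity
  nlinarith [mul_nonneg h4 (sub_nonneg.2 h3)]

end DEG

theorem t_DEG : S_DEG := by
  intro α _ _ C _ hd σ hσ
  obtain ⟨S, hS⟩ := hσ
  have hk := DEG.key C S σ hS
  have hcases : S = ∅ ∨ Sᶜ = ∅ := by
    rcases le_total (2 * S.card) (Fintype.card α) with h | h
    · exact Or.inl (DEG.empty_of C hd S h hk)
    · right
      have hc := Finset.card_add_card_compl S
      refine DEG.empty_of C hd Sᶜ (by omega) ?_
      rw [DEG.cr_compl, ← hk]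
      have h6 : (S.card : ℤ) + Sᶜ.card = Fintype.card α := by exact_mod_cast hc
      have h7 : (Sᶜ.card : ℤ) = (Fintype.card α : ℤ) - S.card := by linarith
      rw [h7]
      ring
  have hsw : ∀ u v, (sw C S).Adj u v ↔ C.Adj u v := by
    intro u v
    rw [sw_adj]
    have hiff : (u ∈ S ↔ v ∈ S) := by
      rcases hcases with h | h
      · rw [h]
        simp
      · rw [Finset.compl_eq_empty_iff] at h
        rw [h]
        simp
    constructor
    · intro h
      exact h.2.2 hiff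
    · intro h
      exact ⟨h.ne, ⟨fun _ => hiff, fun _ => h⟩⟩
  intro u v
  rw [← hsw, hS]

end Pool.Agent.TRB
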