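import Pool.Agent.TRB.St

/-!
# TRB, module EXS (helper52): exchange of a trace on a branch
-/

set_option autoImplicit false

namespace Pool.Agent.TRB

open Finset Pool.Agent.Lib_helper61.SwitchBasic Pool.Agent.TRC Pool.Agent.NTW

namespace EXS

/-- Some term is negative if one is positive. -/
theorem core (h1 : S_MIS) {α : Type} [Fintype α] [DecidableEq α] (F : Finset α → ℚ)
    (hF : ∀ S, ∑ i : α, F (symmDiff S {i}) = 0) {X Z₀ : Finset α} (hZ : Z₀ ⊆ X)
    (hv : ∀ S, S ∩ X = Z₀ → F S = 0) {S : Finset α} (hS : 0 < F S) :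
    ∃ S', F S' < 0 ∧ S' \ X = S \ X := by
  have h2 := h1 α F hF X Z₀ hZ hv (S \ X) Finset.sdiff_disjoint
  by_contra hno
  push Not at hno
  have h3 : ∀ Z ∈ X.powerset, 0 ≤ F (Z ∪ S \ X) := by
    intro Z hZX
    by_contra hlt
    refine hno (Z ∪ S \ X) (not_le.1 hlt) ?_
    have hZX := Finset.mem_powerset.1 hZX
    ext x
    have h4 : x ∈ Z → x ∈ X := fun h => hZX h
    simp only [Finset.mem_sdiff, Finset.mem_union]
    tauto
  have h5 : (S ∩ X) ∪ S \ X = S := by
    ext x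
    simp only [Finset.mem_sdiff, Finset.mem_union, Finset.mem_inter]
    tauto
  have h6 : 0 < ∑ Z ∈ X.powerset, F (Z ∪ S \ X) := by
    refine Finset.sum_pos' h3 ⟨S ∩ X, Finset.mem_powerset.2 Finset.inter_subset_right, ?_⟩
    rw [h5]
    exact hS
  exact absurd h2 h6.ne'

end EXS

open EXS in
theorem t_EXS (h1 : S_MIS) (h2 : S_CRD) : S_EXS := by
  intro α _ _ C K T hC hA t t' hdeck hne b hb hbig
  obtain ⟨k, hk, hcrd⟩ := h2 α C K T hC hA t t' b hb hbig
  obtain ⟨Z₀, hZ, hZk⟩ := Finset.exists_subset_card_eq hk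
  obtain ⟨T₀, hT₀⟩ := exists_sw hdeck b
  have c1 : 0 < cnt (sw C t) (sw C t') := cnt_pos _ _ T₀ hT₀
  have c2 : 0 < cnt (sw C t) (sw C t) := by
    refine cnt_pos _ _ ∅ ?_
    rw [sw_empty]
    exact ⟨SimpleGraph.Iso.refl⟩
  -- the function
  obtain ⟨F, hF⟩ : ∃ F : Finset α → ℚ,
      F = fun S => ff (sw C t) (sw C t') (symmDiff t S) := ⟨_, rfl⟩
  have hval : ∀ S, F S = cnt (sw C t) (sw C t') * ind (sw C S) (sw C t) -
      cnt (sw C t) (sw C t) * ind (sw C S) (sw C t') := by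
    intro S
    rw [hF]
    show ff (sw C t) (sw C t') (symmDiff t S) = _
    unfold ff
    rw [sw_sw, symmDiff_symmDiff_cancel_left]
  have hsum : ∀ S, ∑ i : α, F (symmDiff S {i}) = 0 := by
    intro S
    rw [← sum_ff hdeck (symmDiff t S)]
    refine Finset.sum_congr rfl fun i _ => ?_
    rw [hF]
    show ff (sw C t) (sw C t') (symmDiff t (symmDiff S {i})) = _
    rw [symmDiff_assoc]
  have hexcl : ∀ S, Nonempty (sw C S ≃g sw C t) → ¬ Nonempty (sw C S ≃g sw C t') := by
    rintro S ⟨φ⟩ ⟨ψ⟩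
    exact hne ⟨φ.symm.trans ψ⟩
  have hvan : ∀ S, S ∩ (T b).erase b = Z₀ → F S = 0 := by
    intro S hS
    have h3 : ¬ Nonempty (sw C S ≃g sw C t) := by
      intro h
      refine hcrd S (Or.inl h) ?_
      rw [hS, hZk]
    have h4 : ¬ Nonempty (sw C S ≃g sw C t') := by
      intro h
      refine hcrd S (Or.inr h) ?_
      rw [hS, hZk]
    rw [hval, ind_of_not _ _ h3, ind_of_not _ _ h4]
    ring
  constructor
  · intro S hS
    have hpos : 0 < F S := by
      rw [hval, ind_of _ _ hS, ind_of_not _ _ (hexcl S hS)]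
      linarith
    obtain ⟨S', hneg, hS'⟩ := core h1 F hsum hZ hvan hpos
    refine ⟨S', ?_, hS'⟩
    by_contra hno
    rw [hval, ind_of_not _ _ hno] at hneg
    have h5 := mul_nonneg c1.le (ind_nonneg (sw C S') (sw C t))
    linarith
  · intro S' hS'
    have hno : ¬ Nonempty (sw C S' ≃g sw C t) := fun h => hexcl S' h hS'
    have hpos : 0 < -F S' := by
      rw [hval, ind_of _ _ hS', ind_of_not _ _ hno]
      linarith
    obtain ⟨S, hneg, hS⟩ := core h1 (fun S => -F S)
      (fun S => by rw [Finset.sum_neg_distrib, hsum, neg_zero]) hZ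
      (fun S h => by rw [hvan S h, neg_zero]) hpos
    refine ⟨S, ?_, hS⟩
    by_contra hno'
    have hneg' : -F S < 0 := hneg
    rw [hval, ind_of_not _ _ hno'] at hneg'
    have h5 := mul_nonneg c2.le (ind_nonneg (sw C S) (sw C t'))
    linarith

end Pool.Agent.TRB
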