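import Pool.Agent.TRB.St

/-!
# TRB (MP_e73337_co), module HNG: an invariant vertex set with hanging parts
-/

set_option autoImplicit false

namespace Pool.Agent.TRB

open Finset Pool.Agent.Lib_helper61.SwitchBasic Pool.Agent.TRC Pool.Agent.NTW

/-- `C` without the edges inside `K`. -/
def offK {α : Type} (C : SimpleGraph α) (K : Finset α) : SimpleGraph α where
  Adj u v := C.Adj u v ∧ ¬ (u ∈ K ∧ v ∈ K)
  symm := ⟨fun _ _ h => ⟨h.1.symm, fun g => h.2 ⟨g.2, g.1⟩⟩⟩
  loopless := ⟨fun _ h => h.1.ne rfl⟩

open Classical in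
/-- The component of `b` in `C` without the edges inside `K`. -/
noncomputable def hang {α : Type} [Fintype α] (C : SimpleGraph α) (K : Finset α) (b : α) :
    Finset α :=
  univ.filter fun v => (offK C K).Reachable b v

namespace HNG

variable {α : Type} [Fintype α] [DecidableEq α] {C : SimpleGraph α} {K : Finset α}

omit [DecidableEq α] in
theorem mem_hang {b v : α} : v ∈ hang C K b ↔ (offK C K).Reachable b v := by
  simp [hang]

omit [Fintype α] [DecidableEq α] in
theorem map_reach {s : Equiv.Perm α} (hs : IsAut C s) (hK : ∀ x, s x ∈ K ↔ x ∈ K) {u v : α}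
    (h : (offK C K).Reachable u v) : (offK C K).Reachable (s u) (s v) := by
  refine h.map (⟨s, ?_⟩ : offK C K →g offK C K)
  intro a b hab
  exact ⟨(hs a b).2 hab.1, fun g => hab.2 ⟨(hK a).1 g.1, (hK b).1 g.2⟩⟩

omit [Fintype α] [DecidableEq α] in
theorem inv_aut {s : Equiv.Perm α} (hs : IsAut C s) : IsAut C s⁻¹ := fun u v => by
  have := hs (s⁻¹ u) (s⁻¹ v)
  simpa using this.symm

omit [Fintype α] [DecidableEq α] in
theorem inv_K {s : Equiv.Perm α} (hK : ∀ x, s x ∈ K ↔ x ∈ K) (x : α) : s⁻¹ x ∈ K ↔ x ∈ K := by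
  have := hK (s⁻¹ x)
  simpa using this.symm

omit [DecidableEq α] in
theorem mem_map {s : Equiv.Perm α} (hs : IsAut C s) (hK : ∀ x, s x ∈ K ↔ x ∈ K) {b v : α} :
    s v ∈ hang C K (s b) ↔ v ∈ hang C K b := by
  rw [mem_hang, mem_hang]
  constructor
  · intro h
    have := map_reach (inv_aut hs) (inv_K hK) h
    simpa using this
  · exact map_reach hs hK

end HNG

open HNG in
/-- An invariant set with hanging parts is a centre. -/
theorem t_HNG {α : Type} [Fintype α] [DecidableEq α] (C : SimpleGraph α) (K : Finset α)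
    (hC : C.Connected) (hne : K.Nonempty) (hK : ∀ s, IsAut C s → ∀ x, s x ∈ K ↔ x ∈ K)
    (hsep : ∀ b ∈ K, ∀ b' ∈ K, b ≠ b' → ¬ (offK C K).Reachable b b') :
    Central C K (hang C K) where
  root := fun b _ => mem_hang.2 (SimpleGraph.Reachable.refl b)
  cover := by
    intro v
    obtain ⟨b₀, hb₀⟩ := hne
    obtain ⟨w⟩ := hC.preconnected b₀ v
    have key : ∀ (x y : α), C.Walk x y → (∃ b ∈ K, y ∈ hang C K b) → ∃ b ∈ K, x ∈ hang C K b := by
      intro x y w
      induction w with
      | nil => exact fun h => h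
      | @cons a b c hab p ih =>
        intro h
        obtain ⟨b₁, hb₁, h1⟩ := ih h
        by_cases hk : a ∈ K ∧ b ∈ K
        · exact ⟨a, hk.1, mem_hang.2 (SimpleGraph.Reachable.refl a)⟩
        · refine ⟨b₁, hb₁, ?_⟩
          rw [mem_hang] at h1 ⊢
          have h2 : (offK C K).Adj b a := ⟨hab.symm, fun g => hk ⟨g.2, g.1⟩⟩
          exact h1.trans h2.reachable
    exact key v b₀ w.reverse ⟨b₀, hb₀, mem_hang.2 (SimpleGraph.Reachable.refl b₀)⟩
  disj := by
    intro b hb b' hb' hne
    rw [disjoint_left]
    intro v h1 h2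
    rw [mem_hang] at h1 h2
    exact hsep b hb b' hb' hne (h1.trans h2.symm)
  invK := hK
  invT := by
    intro s hs b _
    ext v
    rw [mem_im]
    have h := mem_map (b := b) (v := s⁻¹ v) hs (hK s hs)
    rw [← h]
    simp
  loc := by
    intro s hs b hb hsb
    have hp : ∀ x, x ∈ hang C K b ↔ s x ∈ hang C K b := by
      intro x
      have h := mem_map (b := b) (v := x) hs (hK s hs)
      rw [hsb] at h
      exact h.symm
    have hp' : ∀ x, s x ∈ hang C K b ↔ x ∈ hang C K b := fun x => (hp x).symm
    refine ⟨Equiv.Perm.ofSubtype (s.subtypePerm hp'), ?_, ?_, ?_⟩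
    · have h1 : ∀ v ∈ hang C K b, Equiv.Perm.ofSubtype (s.subtypePerm hp') v = s v := by
        intro v hv
        rw [Equiv.Perm.ofSubtype_apply_of_mem _ hv]
        rfl
      have h2 : ∀ v, v ∉ hang C K b → Equiv.Perm.ofSubtype (s.subtypePerm hp') v = v :=
        fun v hv => Equiv.Perm.ofSubtype_apply_of_not_mem _ hv
      -- an edge that leaves the part starts at `b`
      have h3 : ∀ u ∈ hang C K b, ∀ v, v ∉ hang C K b → C.Adj u v → u = b := by
        intro u hu v hv huv
        by_contra hub
        apply hv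
        have hu' := mem_hang.1 hu
        have huK : u ∉ K := fun hk => hsep b hb u hk (fun g => hub g.symm) hu'
        rw [mem_hang]
        have h4 : (offK C K).Adj u v := ⟨huv, fun g => huK g.1⟩
        exact hu'.trans h4.reachable
      have h5 : ∀ u ∈ hang C K b, ∀ v, v ∉ hang C K b → (C.Adj (s u) v ↔ C.Adj u v) := by
        intro u hu v hv
        constructor
        · intro h
          have h6 := h3 (s u) ((hp u).1 hu) v hv h
          have h7 : u = b := s.injective (h6.trans hsb.symm)
          rw [h7]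
          rw [h6] at h
          exact h
        · intro h
          have h6 := h3 u hu v hv h
          rw [h6, hsb, ← h6]
          exact h
      intro u v
      by_cases hu : u ∈ hang C K b
      · by_cases hv : v ∈ hang C K b
        · rw [h1 u hu, h1 v hv]
          exact hs u v
        · rw [h1 u hu, h2 v hv]
          exact h5 u hu v hv
      · by_cases hv : v ∈ hang C K b
        · rw [h2 u hu, h1 v hv, C.adj_comm u (s v), C.adj_comm u v]
          exact h5 v hv u hu
        · rw [h2 u hu, h2 v hv]
    · intro v hv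
      rw [Equiv.Perm.ofSubtype_apply_of_mem _ hv]
      rfl
    · intro v hv
      exact Equiv.Perm.ofSubtype_apply_of_not_mem _ hv

end Pool.Agent.TRB
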