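import Pool.Agent.TRB.St2
import Pool.Agent.RGP15.Cor

/-!
# TRB (MP_e73337_co), module IMG: a centre with few automorphisms
-/

set_option autoImplicit false

namespace Pool.Agent.TRB

open Finset Pool.Agent.Lib_helper61.SwitchBasic Pool.Agent.TRC Pool.Agent.NTW

namespace IMG

/-- The restriction of an automorphism to an invariant set. -/
def res {α : Type} {C : SimpleGraph α} {K : Finset α} (σ : Equiv.Perm α) (hσ : IsAut C σ)
    (hK : ∀ x, σ x ∈ K ↔ x ∈ K) : C.induce {v | v ∈ K} ≃g C.induce {v | v ∈ K} where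
  toEquiv := σ.subtypeEquiv fun x => (hK x).symm
  map_rel_iff' := fun {a b} => hσ a.1 b.1

end IMG

theorem t_IMG : S_IMG := by
  intro α _ _ C K hA hK hcard t t' hdeck
  by_contra hne
  have h1 := Pool.Agent.RGP15.local_bound (sw C t) (sw C t') hdeck hne K
  have h2 : ∀ φ : Pool.Agent.RGP15.Rest (sw C t) K, ∃ σ : Equiv.Perm α, IsAut C σ ∧
      ∀ u, φ.1 u = σ u := by
    intro φ
    obtain ⟨σ, hσ, h⟩ := φ.2
    exact ⟨σ, hA σ (Pool.Agent.RGP15.classAut_unsw C t σ hσ), h⟩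
  choose σ hσ hφ using h2
  have h3 : Function.Injective fun φ : Pool.Agent.RGP15.Rest (sw C t) K =>
      IMG.res (σ φ) (hσ φ) (hK (σ φ) (hσ φ)) := by
    intro φ ψ h
    apply Subtype.ext
    funext u
    have h4 : (IMG.res (σ φ) (hσ φ) (hK (σ φ) (hσ φ))) ⟨u.1, u.2⟩ =
        (IMG.res (σ ψ) (hσ ψ) (hK (σ ψ) (hσ ψ))) ⟨u.1, u.2⟩ := by
      have h5 := congrArg (fun e : C.induce {v | v ∈ K} ≃g C.induce {v | v ∈ K} =>
        e ⟨u.1, u.2⟩) h
      exact h5
    have h6 : (σ φ) u.1 = (σ ψ) u.1 := congrArg Subtype.val h4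
    rw [hφ φ, hφ ψ]
    exact h6
  have h4 : Finite (C.induce {v | v ∈ K} ≃g C.induce {v | v ∈ K}) :=
    Finite.of_injective (fun e => (e : {v | v ∈ K} → {v | v ∈ K})) fun e e' h =>
      RelIso.ext fun x => congrFun h x
  have h5 := Nat.card_le_card_of_injective _ h3
  rw [Nat.card_coe_set_eq] at h5
  omega

end Pool.Agent.TRB
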