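import Pool.Agent.TRB.St

/-!
# TRB, module KAP: the class of a trace
-/

set_option autoImplicit false

namespace Pool.Agent.TRB

open Finset Pool.Agent.Lib_helper61.SwitchBasic Pool.Agent.TRC Pool.Agent.NTW

namespace KAP

variable {α : Type} [DecidableEq α]

theorem im_int (s : Equiv.Perm α) (X Y : Finset α) : im s X ∩ im s Y = im s (X ∩ Y) := by
  ext x
  rw [mem_inter, mem_im, mem_im, mem_im, mem_inter]

theorem im_sdf (s : Equiv.Perm α) (X Y : Finset α) : im s X \ im s Y = im s (X \ Y) := by
  ext x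
  rw [mem_sdiff, mem_im, mem_im, mem_im, mem_sdiff]

/-- One inclusion of the first part. -/
theorem sub [Fintype α] {C : SimpleGraph α} {K : Finset α} {T : α → Finset α} (h : Central C K T)
    {s : Equiv.Perm α} (hs : IsAut C s) (S : Finset α) {b : α} (hb : b ∈ K) :
    kap C T (im s S) (s b) ⊆ kap C T S b := by
  rintro p ⟨r, hr, h2, h3⟩
  have e1 : im s S ∩ T (s b) = im s (S ∩ T b) := by rw [← h.invT s hs b hb, im_int]
  have e2 : T (s b) \ im s S = im s (T b \ S) := by rw [← h.invT s hs b hb, im_sdf]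
  refine ⟨r * s, mem_AA.1 (mul_AA (mem_AA.2 hr) (mem_AA.2 hs)), h2, ?_⟩
  rw [e1, e2] at h3
  rw [im_mul, im_mul]
  exact h3

end KAP

open KAP in
theorem t_KAP : S_KAP := by
  intro α _ _ C K T h
  refine ⟨?_, ?_, ?_⟩
  · intro s hs S b hb
    apply Set.Subset.antisymm (sub h hs S hb)
    have hs' : IsAut C s⁻¹ := mem_AA.1 (inv_AA (mem_AA.2 hs))
    have hsb : s b ∈ K := (h.invK s hs b).2 hb
    have h1 := sub h hs' (im s S) hsb
    have e0 : s⁻¹ (s b) = b := by simp
    rw [← im_mul, inv_mul_cancel, im_one, e0] at h1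
    exact h1
  · intro S b _
    have e1 : Sᶜ ∩ T b = T b \ S := by
      ext x
      rw [mem_inter, mem_compl, mem_sdiff]
      tauto
    have e2 : T b \ Sᶜ = S ∩ T b := by
      ext x
      rw [mem_inter, mem_sdiff, mem_compl, not_not]
      tauto
    unfold kap
    rw [e1, e2]
    ext p
    constructor
    · rintro ⟨s, h1, h2, h3⟩
      exact ⟨s, h1, h2, h3.symm⟩
    · rintro ⟨s, h1, h2, h3⟩
      exact ⟨s, h1, h2, h3.symm⟩
  · intro S S' b hb hSS hk
    have hout : ∀ x, x ∉ (T b).erase b → (x ∈ S ↔ x ∈ S') := by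
      intro x hx
      have h1 := Finset.ext_iff.1 hSS x
      rw [mem_sdiff, mem_sdiff] at h1
      tauto
    have hbb : b ∈ S ↔ b ∈ S' := hout b (by simp)
    have hbT : b ∈ T b := h.root b hb
    have hmem : ((S ∩ T b, b) : Finset α × α) ∈ kap C T S b :=
      ⟨1, mem_AA.1 (one_AA C), rfl, Or.inl (im_one _).symm⟩
    rw [hk] at hmem
    obtain ⟨s, hs, hsb, hcase⟩ := hmem
    have hsb' : s b = b := hsb.symm
    have hsib : s⁻¹ b = b := by
      rw [Equiv.Perm.inv_eq_iff_eq]
      exact hsb
    rcases hcase with hc | hc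
    · obtain ⟨s', hs', hin, hoff⟩ := h.loc s hs b hb hsb'
      have hTb : im s (T b) = T b := by rw [h.invT s hs b hb, hsb']
      have him : im s' S' = S := by
        ext x
        rw [mem_im]
        by_cases hx : x ∈ T b
        · have h1 : s⁻¹ x ∈ T b := by
            rw [← hTb, mem_im] at hx
            exact hx
          have h2 : s'⁻¹ x = s⁻¹ x := by
            rw [Equiv.Perm.inv_eq_iff_eq, hin _ h1]
            simp
          have h3 := Finset.ext_iff.1 hc x
          simp only [mem_inter, mem_im] at h3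
          rw [h2]
          tauto
        · have h2 : s'⁻¹ x = x := by
            rw [Equiv.Perm.inv_eq_iff_eq]
            exact (hoff x hx).symm
          rw [h2]
          exact (hout x (fun h3 => hx (mem_of_mem_erase h3))).symm
      obtain ⟨φ⟩ := iso_im (mem_AA.2 hs') S'
      rw [him] at φ
      exact ⟨φ.symm⟩
    · exfalso
      have h3 := Finset.ext_iff.1 hc b
      simp only [mem_inter, mem_im, mem_sdiff] at h3
      rw [hsib] at h3
      tauto

end Pool.Agent.TRB
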