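import Pool.Agent.TRB.St

/-!
# TRB, module MIS: a missing pattern on `X` makes the sums over `X` vanish
-/

set_option autoImplicit false

namespace Pool.Agent.TRB

open Finset Pool.Agent.Lib_helper61.SwitchBasic Pool.Agent.TRC Pool.Agent.NTW

namespace MIS

/-- Fourier inversion on the subsets of `Y`. -/
theorem inv {α : Type} [DecidableEq α] (Y : Finset α) (g : Finset α → ℚ) (R₀ : Finset α)
    (hR₀ : R₀ ⊆ Y) :
    ∑ E ∈ Y.powerset, homChi R₀ E * ∑ R ∈ Y.powerset, homChi R E * g R =
      2 ^ Y.card * g R₀ := by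
  simp only [Finset.mul_sum]
  rw [Finset.sum_comm]
  rw [Finset.sum_eq_single R₀]
  · have h1 : ∀ E ∈ Y.powerset, homChi R₀ E * (homChi R₀ E * g R₀) = g R₀ := by
      intro E _
      rw [← mul_assoc, hom_chi_sq, one_mul]
    rw [Finset.sum_congr rfl h1, Finset.sum_const, Finset.card_powerset, nsmul_eq_mul]
    push_cast
    ring
  · intro R hR hne
    have hRY := Finset.mem_powerset.1 hR
    have h1 : ∀ E ∈ Y.powerset, homChi R₀ E * (homChi R E * g R) =
        (∏ i ∈ E, ((if i ∈ R₀ then (-1 : ℚ) else 1) * (if i ∈ R then (-1 : ℚ) else 1))) * g R := by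
      intro E _
      unfold homChi
      rw [Finset.prod_mul_distrib]
      ring
    rw [Finset.sum_congr rfl h1, ← Finset.sum_mul, ← Finset.prod_one_add]
    obtain ⟨i, hi⟩ : ∃ i, ¬ (i ∈ R ↔ i ∈ R₀) := by
      by_contra hc
      push Not at hc
      exact hne (Finset.ext fun i => hc i)
    have hiY : i ∈ Y := by
      by_cases h2 : i ∈ R
      · exact hRY h2
      · have h3 : i ∈ R₀ := by
          by_contra h3
          exact hi ⟨fun h => absurd h h2, fun h => absurd h h3⟩
        exact hR₀ h3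
    have h0 : ∏ i ∈ Y, (1 + (if i ∈ R₀ then (-1 : ℚ) else 1) * (if i ∈ R then (-1 : ℚ) else 1)) = 0 := by
      refine Finset.prod_eq_zero hiY ?_
      by_cases h4 : i ∈ R <;> by_cases h5 : i ∈ R₀
      · exact absurd ⟨fun _ => h5, fun _ => h4⟩ hi
      · simp [h4, h5]
      · simp [h4, h5]
      · exact absurd ⟨fun h => absurd h h4, fun h => absurd h h5⟩ hi
    rw [h0, zero_mul]
  · intro h
    exact absurd (Finset.mem_powerset.2 hR₀) h

/-- The coefficients of `F` by means of the parts in `X` and in its complement. -/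
theorem coef {α : Type} [Fintype α] [DecidableEq α] (F : Finset α → ℚ) (X D E : Finset α)
    (hD : D ⊆ X) (hE : E ⊆ Xᶜ) :
    ∑ Z ∈ X.powerset, homChi Z D * ∑ R ∈ Xᶜ.powerset, homChi R E * F (Z ∪ R) =
      ∑ S, homChi S (D ∪ E) * F S := by
  rw [hom_split X]
  refine Finset.sum_congr rfl fun Z hZ => ?_
  rw [Finset.mul_sum]
  refine Finset.sum_congr rfl fun R hR => ?_
  have hZ' := Finset.mem_powerset.1 hZ
  have hR' := Finset.mem_powerset.1 hR
  rw [hom_chi_union _ _ _ (Finset.disjoint_left.2 fun x hx hx' =>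
    (Finset.mem_compl.1 (hE hx')) (hD hx))]
  have e1 : homChi (Z ∪ R) D = homChi Z D := by
    unfold homChi
    refine Finset.prod_congr rfl fun i hi => ?_
    have : i ∉ R := fun h => (Finset.mem_compl.1 (hR' h)) (hD hi)
    simp [this]
  have e2 : homChi (Z ∪ R) E = homChi R E := by
    unfold homChi
    refine Finset.prod_congr rfl fun i hi => ?_
    have : i ∉ Z := fun h => (Finset.mem_compl.1 (hE hi)) (hZ' h)
    simp [this]
  rw [e1, e2]
  ring

theorem chi_empty {α : Type} [DecidableEq α] (S : Finset α) : homChi S ∅ = 1 := by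
  simp [homChi]

end MIS

open MIS in
theorem t_MIS : S_MIS := by
  intro α _ _ F hF X Z₀ hZ₀ hmiss R₀ hR₀
  -- all coefficients at subsets of the complement vanish
  have hcoef : ∀ E : Finset α, E ⊆ Xᶜ → ∑ S, homChi S E * F S = 0 := by
    intro E hE
    by_cases hc : 2 * E.card = Fintype.card α
    · have h1 := inv X (fun Z => ∑ R ∈ Xᶜ.powerset, homChi R E * F (Z ∪ R)) Z₀ hZ₀
      have h2 : ∑ R ∈ Xᶜ.powerset, homChi R E * F (Z₀ ∪ R) = 0 := by
        refine Finset.sum_eq_zero fun R hR => ?_
        have hR' := Finset.mem_powerset.1 hR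
        have h3 : (Z₀ ∪ R) ∩ X = Z₀ := by
          ext x
          rw [Finset.mem_inter, Finset.mem_union]
          constructor
          · rintro ⟨h | h, hX⟩
            · exact h
            · exact absurd hX (Finset.mem_compl.1 (hR' h))
          · intro h
            exact ⟨Or.inl h, hZ₀ h⟩
        rw [hmiss _ h3, mul_zero]
      rw [h2, mul_zero] at h1
      rw [Finset.sum_eq_single ∅] at h1
      · rw [chi_empty, one_mul, coef F X ∅ E (Finset.empty_subset _) hE,
          Finset.empty_union] at h1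
        exact h1
      · intro D hD hne
        have hD' := Finset.mem_powerset.1 hD
        rw [coef F X D E hD' hE, hom_F_zero F hF, mul_zero]
        rw [Finset.card_union_of_disjoint (Finset.disjoint_left.2 fun x hx hx' =>
          (Finset.mem_compl.1 (hE hx')) (hD' hx))]
        have h4 : 0 < D.card := Finset.card_pos.2 (Finset.nonempty_iff_ne_empty.2 hne)
        omega
      · intro h
        exact absurd (Finset.empty_mem_powerset X) h
    · exact hom_F_zero F hF E hc
  have hR₀' : R₀ ⊆ Xᶜ := fun x hx => Finset.mem_compl.2 fun h => Finset.disjoint_left.1 hR₀ hx h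
  have h1 := inv Xᶜ (fun R => ∑ Z ∈ X.powerset, F (Z ∪ R)) R₀ hR₀'
  have h2 : ∀ E ∈ (Xᶜ).powerset, homChi R₀ E * ∑ R ∈ (Xᶜ).powerset, homChi R E *
      ∑ Z ∈ X.powerset, F (Z ∪ R) = 0 := by
    intro E hE
    have hE' := Finset.mem_powerset.1 hE
    have h3 := coef F X ∅ E (Finset.empty_subset _) hE'
    rw [Finset.empty_union, hcoef E hE'] at h3
    have h4 : ∑ R ∈ (Xᶜ).powerset, homChi R E * ∑ Z ∈ X.powerset, F (Z ∪ R) =
        ∑ Z ∈ X.powerset, homChi Z ∅ * ∑ R ∈ Xᶜ.powerset, homChi R E * F (Z ∪ R) := by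
      simp only [chi_empty, one_mul, Finset.mul_sum]
      rw [Finset.sum_comm]
    rw [h4, h3, mul_zero]
  rw [Finset.sum_eq_zero h2] at h1
  rcases mul_eq_zero.1 h1.symm with h | h
  · exact absurd h (by positivity)
  · exact h

end Pool.Agent.TRB
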