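import Pool.Agent.TRB.St

/-!
# TRB, module TWO (helper73): two large branches
-/

set_option autoImplicit false

namespace Pool.Agent.TRB

open Finset Pool.Agent.Lib_helper61.SwitchBasic Pool.Agent.TRC Pool.Agent.NTW

namespace TWO

variable {α : Type} [Fintype α] [DecidableEq α] {C : SimpleGraph α} {K : Finset α}
  {T : α → Finset α}

open Classical in
/-- The number of branches with the class `k` of the trace of `S`. -/
noncomputable def N (C : SimpleGraph α) (K : Finset α) (T : α → Finset α) (S : Finset α)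
    (k : Set (Finset α × α)) : ℕ := (K.filter fun b => kap C T S b = k).card

omit [Fintype α] in
theorem kap_congr (hC : Central C K T) {S S' : Finset α} {b b' : α} (hb : b ∈ K) (hb' : b' ∈ K)
    (hne : b' ≠ b) (h : S' \ (T b).erase b = S \ (T b).erase b) :
    kap C T S b' = kap C T S' b' := by
  have hd := hC.disj b' hb' b hb hne
  have hx : ∀ x ∈ T b', (x ∈ S ↔ x ∈ S') := by
    intro x hx
    have h1 : x ∉ (T b).erase b := fun g => disjoint_left.1 hd hx (mem_of_mem_erase g)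
    have h2 : x ∈ S' \ (T b).erase b ↔ x ∈ S \ (T b).erase b := by rw [h]
    rw [mem_sdiff, mem_sdiff] at h2
    tauto
  have e1 : S ∩ T b' = S' ∩ T b' := by
    ext x
    rw [mem_inter, mem_inter]
    constructor
    · rintro ⟨h1, h2⟩
      exact ⟨(hx x h2).1 h1, h2⟩
    · rintro ⟨h1, h2⟩
      exact ⟨(hx x h2).2 h1, h2⟩
  have e2 : T b' \ S = T b' \ S' := by
    ext x
    rw [mem_sdiff, mem_sdiff]
    constructor
    · rintro ⟨h1, h2⟩
      exact ⟨h1, fun g => h2 ((hx x h1).2 g)⟩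
    · rintro ⟨h1, h2⟩
      exact ⟨h1, fun g => h2 ((hx x h1).1 g)⟩
  unfold kap
  rw [e1, e2]

omit [Fintype α] in
theorem N_lt (hC : Central C K T) {S S' : Finset α} {b : α} (hb : b ∈ K)
    (h : S' \ (T b).erase b = S \ (T b).erase b) (hne : kap C T S b ≠ kap C T S' b) :
    N C K T S' (kap C T S b) < N C K T S (kap C T S b) := by
  unfold N
  apply card_lt_card
  rw [ssubset_iff_of_subset]
  · refine ⟨b, ?_, ?_⟩
    · rw [mem_filter]
      exact ⟨hb, rfl⟩
    · rw [mem_filter]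
      exact fun g => hne g.2.symm
  · intro b' hb'
    rw [mem_filter] at hb' ⊢
    refine ⟨hb'.1, ?_⟩
    have h1 : b' ≠ b := by
      rintro rfl
      exact hne hb'.2.symm
    rw [kap_congr hC hb hb'.1 h1 h]
    exact hb'.2

omit [Fintype α] in
theorem N_im (hC : Central C K T)
    (h1 : ∀ s, IsAut C s → ∀ S, ∀ b ∈ K, kap C T (im s S) (s b) = kap C T S b)
    {s : Equiv.Perm α} (hs : IsAut C s) (S : Finset α) (k : Set (Finset α × α)) :
    N C K T (im s S) k = N C K T S k := by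
  unfold N
  refine card_nbij' (fun b => s⁻¹ b) (fun b => s b) ?_ ?_ ?_ ?_
  · intro b hb
    simp only [coe_filter, Set.mem_ofPred_eq] at hb ⊢
    have h0 : s (s⁻¹ b) = b := by simp
    have h2 : s⁻¹ b ∈ K := by
      rw [← hC.invK s hs, h0]
      exact hb.1
    have h3 := h1 s hs S (s⁻¹ b) h2
    rw [h0] at h3
    exact ⟨h2, h3.symm.trans hb.2⟩
  · intro b hb
    simp only [coe_filter, Set.mem_ofPred_eq] at hb ⊢
    exact ⟨(hC.invK s hs b).2 hb.1, (h1 s hs S b hb.1).trans hb.2⟩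
  · intro b _
    simp
  · intro b _
    simp

theorem N_compl (h2 : ∀ S, ∀ b ∈ K, kap C T Sᶜ b = kap C T S b) (S : Finset α)
    (k : Set (Finset α × α)) : N C K T Sᶜ k = N C K T S k := by
  unfold N
  congr 1
  refine filter_congr fun b hb => ?_
  rw [h2 S b hb]

theorem N_iso (hC : Central C K T) (hA : ∀ σ, IsClassAut C σ → IsAut C σ)
    (h1 : ∀ s, IsAut C s → ∀ S, ∀ b ∈ K, kap C T (im s S) (s b) = kap C T S b)
    (h2 : ∀ S, ∀ b ∈ K, kap C T Sᶜ b = kap C T S b) {S t : Finset α}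
    (h : Nonempty (sw C S ≃g sw C t)) (k : Set (Finset α × α)) :
    N C K T S k = N C K T t k := by
  rw [iso_iff hA] at h
  obtain ⟨s, hs, h | h⟩ := h
  · rw [← h]
    exact N_im hC h1 (mem_AA.1 hs) t k
  · rw [← N_compl h2 S k, ← h]
    exact N_im hC h1 (mem_AA.1 hs) t k

end TWO

theorem t_TWO : S_EXS → S_KAP → S_TWO := by
  intro hE hK α _ _ C K T hC hA b₁ hb₁ b₂ hb₂ hb h41 h42 t t' hdeck
  by_contra hne
  obtain ⟨k1, k2, k3⟩ := hK α C K T hC
  have kne : ∀ S S' : Finset α, Nonempty (sw C S ≃g sw C t) → Nonempty (sw C S' ≃g sw C t') →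
      ∀ b ∈ K, S' \ (T b).erase b = S \ (T b).erase b → kap C T S b ≠ kap C T S' b := by
    rintro S S' ⟨e1⟩ ⟨e2⟩ b hbK h h'
    obtain ⟨e3⟩ := k3 S S' b hbK h h'
    exact hne ⟨e1.symm.trans (e3.trans e2)⟩
  -- claim A
  have clA : ∀ S : Finset α, Nonempty (sw C S ≃g sw C t) → ∀ b ∈ K, 4 * K.card < (T b).card →
      TWO.N C K T t' (kap C T S b) < TWO.N C K T t (kap C T S b) := by
    intro S hS b hbK hlarge
    obtain ⟨S', hS', h⟩ := (hE α C K T hC hA t t' hdeck hne b hbK hlarge).1 S hS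
    have h1 := TWO.N_lt hC hbK h (kne S S' hS hS' b hbK h)
    rw [TWO.N_iso hC hA k1 k2 hS', TWO.N_iso hC hA k1 k2 hS] at h1
    exact h1
  -- claim B
  have clB : ∀ S' : Finset α, Nonempty (sw C S' ≃g sw C t') → ∀ b ∈ K, 4 * K.card < (T b).card →
      TWO.N C K T t (kap C T S' b) < TWO.N C K T t' (kap C T S' b) := by
    intro S' hS' b hbK hlarge
    obtain ⟨S, hS, h⟩ := (hE α C K T hC hA t t' hdeck hne b hbK hlarge).2 S' hS'
    have h1 := TWO.N_lt hC hbK h (kne S S' hS hS' b hbK h.symm).symm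
    rw [TWO.N_iso hC hA k1 k2 hS', TWO.N_iso hC hA k1 k2 hS] at h1
    exact h1
  have ht : Nonempty (sw C t ≃g sw C t) := ⟨SimpleGraph.Iso.refl⟩
  obtain ⟨S', hS', h⟩ := (hE α C K T hC hA t t' hdeck hne b₁ hb₁ h41).1 t ht
  have h1 := TWO.kap_congr hC hb₁ hb₂ hb.symm h
  have h2 := clA t ht b₂ hb₂ h42
  have h3 := clB S' hS' b₂ hb₂ h42
  rw [← h1] at h3
  exact lt_asymm h2 h3

end Pool.Agent.TRB
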