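import Pool.Agent.TRB.St2
import Pool.Agent.TRB.MMIS
import Pool.Agent.TRB.MCRD
import Pool.Agent.TRB.MEXS
import Pool.Agent.TRB.MKAP
import Pool.Agent.TRB.MTWO
import Pool.Agent.TRB.MCE1
import Pool.Agent.TRB.MCE2
import Pool.Agent.TRB.MCE3
import Pool.Agent.TRB.MCE4
import Pool.Agent.TRB.MBLQ
import Pool.Agent.TRB.MIMG
import Pool.Agent.TRB.MDEG
import Pool.Agent.TRB.MHNG
import Pool.Agent.TRB.MCAC
import Pool.Agent.TRC.Asm

/-!
# TRB (MP_e73337_co): graphs with small blocks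
-/

set_option autoImplicit false

namespace Pool.Agent.TRB

open Finset Pool.Agent.Lib_helper61.SwitchBasic Pool.Agent.TRC Pool.Agent.NTW

theorem two : S_TWO := t_TWO (t_EXS t_MIS t_CRD) t_KAP

theorem ce3 : S_CE3 := t_CE3 t_CE1 (t_CE2 t_CE1)

/-- Graphs with small blocks. -/
theorem blocks {α : Type} [Fintype α] [DecidableEq α] (C : SimpleGraph α) (hC : C.Connected)
    (hA : ∀ σ, IsClassAut C σ → IsAut C σ) (hp : 16 < Fintype.card α)
    (hX : ∀ X : Finset α, 3 ≤ X.card → (∀ x ∈ X, (C.induce {v | v ∈ X ∧ v ≠ x}).Connected) →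
      8 * X.card * (X.card - 1) < Fintype.card α ∨
      4 * Nat.card (C.induce {v | v ∈ X} ≃g C.induce {v | v ∈ X}) < 2 ^ (X.card - X.card / 2)) :
    AllRec C := by
  by_cases hc : ∃ c, ∀ x, x ≠ c → 2 * (blk C c x).card < Fintype.card α
  · obtain ⟨c, hc⟩ := hc
    exact central_vertex (by omega) C c hc
      (fun σ hσ => t_FIX α C c hC hc σ (hA σ hσ))
  · have hN : NoC C := by
      intro c
      by_contra h
      push Not at h
      exact hc ⟨c, h⟩
    have h2 : 2 ≤ (KK C).card := t_KKT t_CE1 ce3 α C hC hN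
    have hbl : 8 * (KK C).card * ((KK C).card - 1) < Fintype.card α → AllRec C :=
      t_BLQ t_CE1 ce3 two α C hC hN hA
    rcases Nat.lt_or_ge (KK C).card 3 with h3 | h3
    · have h4 : (KK C).card = 2 := by omega
      apply hbl
      rw [h4]
      omega
    · rcases hX (KK C) h3 (t_CE4 t_CE1 ce3 α C hC hN h3) with h | h
      · exact hbl h
      · exact t_IMG α C (KK C) hA (ce3 α C hC hN).invK h

/-- An invariant vertex set with hanging parts, two of which are large. -/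
theorem hanging {α : Type} [Fintype α] [DecidableEq α] (C : SimpleGraph α) (K : Finset α)
    (hC : C.Connected) (hA : ∀ σ, IsClassAut C σ → IsAut C σ)
    (hK : ∀ s, IsAut C s → ∀ x, s x ∈ K ↔ x ∈ K)
    (hsep : ∀ b ∈ K, ∀ b' ∈ K, b ≠ b' → ¬ (offK C K).Reachable b b') (b₁ b₂ : α) (h₁ : b₁ ∈ K)
    (h₂ : b₂ ∈ K) (hne : b₁ ≠ b₂) (l₁ : 4 * K.card < (hang C K b₁).card)
    (l₂ : 4 * K.card < (hang C K b₂).card) : AllRec C :=
  two α C K (hang C K) (t_HNG C K hC ⟨b₁, h₁⟩ hK hsep) hA b₁ h₁ b₂ h₂ hne l₁ l₂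

/-- Graphs with small degrees and small blocks. -/
theorem blocks_degree {α : Type} [Fintype α] [DecidableEq α] (C : SimpleGraph α)
    [DecidableRel C.Adj] (hC : C.Connected) (hd : ∀ v, 4 * C.degree v < Fintype.card α)
    (hp : 16 < Fintype.card α)
    (hX : ∀ X : Finset α, 3 ≤ X.card → (∀ x ∈ X, (C.induce {v | v ∈ X ∧ v ≠ x}).Connected) →
      8 * X.card * (X.card - 1) < Fintype.card α ∨
      4 * Nat.card (C.induce {v | v ∈ X} ≃g C.induce {v | v ∈ X}) < 2 ^ (X.card - X.card / 2)) :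
    AllRec C :=
  blocks C hC (t_DEG α C hd) hp hX

/-- Cacti (connected graphs whose blocks are edges and cycles). -/
theorem cactus {α : Type} [Fintype α] [DecidableEq α] (C : SimpleGraph α) (hC : C.Connected)
    (hA : ∀ σ, IsClassAut C σ → IsAut C σ) (hp : 1057 ≤ Fintype.card α)
    (hX : ∀ X : Finset α, 3 ≤ X.card → (∀ x ∈ X, (C.induce {v | v ∈ X ∧ v ≠ x}).Connected) →
      ∀ x ∈ X, ∀ y ∈ X, ∀ z ∈ X, ∀ w ∈ X, C.Adj x y → C.Adj x z → C.Adj x w →
        y = z ∨ y = w ∨ z = w) :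
    AllRec C :=
  blocks C hC hA (by omega) fun X h3 h => t_CAC C hp X h3 h (hX X h3 h)

end Pool.Agent.TRB
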