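import Pool.Agent.TRB.MOUT

/-!
# TRB (MP_e73337_co), module OUT2: outerplanar graphs from the plain definition
-/

set_option autoImplicit false

namespace Pool.Agent.TRB

open Finset Pool.Agent.Lib_helper61.SwitchBasic Pool.Agent.TRC Pool.Agent.NTW

/-- `C` is outerplanar: its vertices can be placed on a circle (numbered) so that no two edges cross. -/
def NonCross {α : Type} (C : SimpleGraph α) : Prop :=
  ∃ o : α → ℕ, Function.Injective o ∧ ∀ a b c d, o a < o b → o b < o c → o c < o d →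
    ¬ (C.Adj a c ∧ C.Adj b d)

namespace OUT

variable {α : Type} [DecidableEq α] {C : SimpleGraph α} {X : Finset α} {f : ℕ → α}

/-- A property that passes to neighbours holds everywhere in a connected graph. -/
theorem spread {β : Type} {D : SimpleGraph β} (hD : D.Connected) (P : β → Prop)
    (hP : ∀ x y, D.Adj x y → P x → P y) {u : β} (hu : P u) (v : β) : P v := by
  have key : ∀ (a b : β), D.Walk a b → P a → P b := by
    intro a b w
    induction w with
    | nil => exact fun h => h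
    | cons h _ ih => exact fun ha => ih (hP _ _ h ha)
  obtain ⟨w⟩ := hD.preconnected u v
  exact key u v w hu

/-- The first and the last vertex are adjacent. -/
theorem ends {g : ℕ → α} (hg : ∀ x, x ∈ X ↔ ∃ i < X.card, g i = x) (h3 : 3 ≤ X.card)
    (hc : ∀ a b c d, a < b → b < c → c < d → d < X.card →
      ¬ (C.Adj (g a) (g c) ∧ C.Adj (g b) (g d)))
    (hX : ∀ x ∈ X, (C.induce {v | v ∈ X ∧ v ≠ x}).Connected) :
    C.Adj (g 0) (g (X.card - 1)) := by
  classical
  by_contra hna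
  have hgX : ∀ k < X.card, g k ∈ X := fun k hk => (hg _).2 ⟨k, hk, rfl⟩
  have hne : ∀ {i j : ℕ}, i < X.card → j < X.card → i ≠ j → g i ≠ g j := by
    intro i j hi hj hij h
    exact hij (inj hg hi hj h)
  -- `g 0` has a neighbour
  have hnb : ∃ k, k < X.card ∧ C.Adj (g 0) (g k) := by
    by_contra hno
    push Not at hno
    have h0 : g 0 ∈ X ∧ g 0 ≠ g 1 := ⟨hgX 0 (by omega), hne (by omega) (by omega) (by omega)⟩
    have h2 : g 2 ∈ X ∧ g 2 ≠ g 1 := ⟨hgX 2 (by omega), hne (by omega) (by omega) (by omega)⟩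
    have h4 := spread (hX (g 1) (hgX 1 (by omega))) (fun v => v.1 = g 0) (by
      intro x y hxy hx
      have h5 : C.Adj x.1 y.1 := hxy
      obtain ⟨k, hk, hky⟩ := (hg y.1).1 y.2.1
      have hx' : x.1 = g 0 := hx
      rw [hx', ← hky] at h5
      exact absurd h5 (hno k hk)) (u := ⟨g 0, h0⟩) rfl ⟨g 2, h2⟩
    exact hne (by omega) (by omega) (by omega) (h4 : g 2 = g 0)
  obtain ⟨k₀, hk₀, hk₀a⟩ := hnb
  -- the last one
  let S : Finset ℕ := (range X.card).filter fun k => C.Adj (g 0) (g k)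
  have hS : S.Nonempty := ⟨k₀, mem_filter.2 ⟨mem_range.2 hk₀, hk₀a⟩⟩
  have hk := S.max'_mem hS
  have hmax : ∀ l, l < X.card → C.Adj (g 0) (g l) → l ≤ S.max' hS := fun l hl hla =>
    S.le_max' l (mem_filter.2 ⟨mem_range.2 hl, hla⟩)
  generalize S.max' hS = k at hk hmax
  rw [mem_filter, mem_range] at hk
  obtain ⟨hk1, hk2⟩ := hk
  have hk0 : k ≠ 0 := by
    rintro rfl
    exact hk2.ne rfl
  have hkm : k ≠ X.card - 1 := by
    rintro rfl
    exact hna hk2
  have h0 : g 0 ∈ X ∧ g 0 ≠ g k := ⟨hgX 0 (by omega), hne (by omega) hk1 (Ne.symm hk0)⟩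
  have hl : g (X.card - 1) ∈ X ∧ g (X.card - 1) ≠ g k :=
    ⟨hgX _ (by omega), hne (by omega) hk1 (Ne.symm hkm)⟩
  have h4 := spread (hX (g k) (hgX k hk1)) (fun v => ∃ a < k, g a = v.1) (by
    rintro x y hxy ⟨a, ha, hax⟩
    have h5 : C.Adj x.1 y.1 := hxy
    obtain ⟨b, hb, hby⟩ := (hg y.1).1 y.2.1
    rw [← hax, ← hby] at h5
    have hbk : b ≠ k := by
      rintro rfl
      exact y.2.2 hby.symm
    by_contra hcon
    have hb2 : k < b := by
      by_contra h6
      exact hcon ⟨b, by omega, hby⟩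
    by_cases ha0 : a = 0
    · rw [ha0] at h5
      have := hmax b hb h5
      omega
    · exact hc 0 a k b (by omega) ha hb2 hb ⟨hk2, h5⟩) (u := ⟨g 0, h0⟩) ⟨0, by omega, rfl⟩
    ⟨g (X.card - 1), hl⟩
  obtain ⟨a, ha, hae⟩ := h4
  have := inj hg (by omega) (by omega) (hae : g a = g (X.card - 1))
  omega

/-- Consecutive vertices of a 2-connected outerplanar graph are adjacent. -/
theorem steps (hf : ∀ x, x ∈ X ↔ ∃ i < X.card, f i = x) (h3 : 3 ≤ X.card)
    (hc : ∀ a b c d, a < b → b < c → c < d → d < X.card →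
      ¬ (C.Adj (f a) (f c) ∧ C.Adj (f b) (f d)))
    (hX : ∀ x ∈ X, (C.induce {v | v ∈ X ∧ v ≠ x}).Connected) {i : ℕ} (hi : i < X.card) :
    C.Adj (f i) (f ((i + 1) % X.card)) := by
  have hm : ∀ j, j < X.card → ((i + 1 + j) % X.card = i + 1 + j ∧ i + 1 + j < X.card) ∨
      ((i + 1 + j) % X.card + X.card = i + 1 + j ∧ X.card ≤ i + 1 + j) := by
    intro j hj
    by_cases h : i + 1 + j < X.card
    · exact Or.inl ⟨Nat.mod_eq_of_lt h, h⟩
    · right
      have h4 : (i + 1 + j) % X.card = i + 1 + j - X.card := by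
        rw [Nat.mod_eq_sub_mod (by omega), Nat.mod_eq_of_lt (by omega)]
      omega
  have h := ends (g := fun j => f ((i + 1 + j) % X.card)) (X := X) (C := C) ?_ h3 ?_ hX
  · have e0 : (i + 1 + 0) % X.card = (i + 1) % X.card := rfl
    have e1 : (i + 1 + (X.card - 1)) % X.card = i := by
      rw [show i + 1 + (X.card - 1) = i + X.card by omega, Nat.add_mod_right,
        Nat.mod_eq_of_lt hi]
    have h5 : C.Adj (f ((i + 1 + 0) % X.card)) (f ((i + 1 + (X.card - 1)) % X.card)) := h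
    rw [e0, e1] at h5
    exact h5.symm
  · intro x
    rw [hf]
    constructor
    · rintro ⟨k, hk, rfl⟩
      by_cases hki : i < k
      · refine ⟨k - (i + 1), by omega, ?_⟩
        show f ((i + 1 + (k - (i + 1))) % X.card) = f k
        rw [show i + 1 + (k - (i + 1)) = k by omega, Nat.mod_eq_of_lt hk]
      · refine ⟨k + X.card - (i + 1), by omega, ?_⟩
        show f ((i + 1 + (k + X.card - (i + 1))) % X.card) = f k
        rw [show i + 1 + (k + X.card - (i + 1)) = k + X.card by omega, Nat.add_mod_right,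
          Nat.mod_eq_of_lt hk]
    · rintro ⟨j, _, rfl⟩
      exact ⟨_, Nat.mod_lt _ (by omega), rfl⟩
  · intro a b c d hab hbc hcd hd
    have hma := hm a (by omega)
    have hmb := hm b (by omega)
    have hmc := hm c (by omega)
    have hmd := hm d hd
    rintro ⟨h1, h2⟩
    have h1' : C.Adj (f ((i + 1 + a) % X.card)) (f ((i + 1 + c) % X.card)) := h1
    have h2' : C.Adj (f ((i + 1 + b) % X.card)) (f ((i + 1 + d) % X.card)) := h2
    generalize (i + 1 + a) % X.card = A at *
    generalize (i + 1 + b) % X.card = B at *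
    generalize (i + 1 + c) % X.card = E at *
    generalize (i + 1 + d) % X.card = F at *
    have hcases : (A < B ∧ B < E ∧ E < F ∧ F < X.card) ∨ (F < A ∧ A < B ∧ B < E ∧ E < X.card) ∨
        (E < F ∧ F < A ∧ A < B ∧ B < X.card) ∨ (B < E ∧ E < F ∧ F < A ∧ A < X.card) := by
      omega
    rcases hcases with ⟨u1, u2, u3, u4⟩ | ⟨u1, u2, u3, u4⟩ | ⟨u1, u2, u3, u4⟩ | ⟨u1, u2, u3, u4⟩
    · exact hc A B E F u1 u2 u3 u4 ⟨h1', h2'⟩
    · exact hc F A B E u1 u2 u3 u4 ⟨h2'.symm, h1'⟩
    · exact hc E F A B u1 u2 u3 u4 ⟨h1'.symm, h2'.symm⟩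
    · exact hc B E F A u1 u2 u3 u4 ⟨h2', h1'.symm⟩

/-- The vertices of `X` in their order. -/
theorem enum (o : α → ℕ) (ho : Function.Injective o) {x₀ : α} (hx₀ : x₀ ∈ X) :
    ∃ f : ℕ → α, (∀ x, x ∈ X ↔ ∃ i < X.card, f i = x) ∧
      ∀ i j, i < j → j < X.card → o (f i) < o (f j) := by
  classical
  have hY : (X.image o).card = X.card := card_image_of_injective _ ho
  let e := (X.image o).orderEmbOfFin hY
  have he : ∀ i : Fin X.card, ∃ x ∈ X, o x = e i := by
    intro i
    exact mem_image.1 ((X.image o).orderEmbOfFin_mem hY i)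
  choose q hq1 hq2 using he
  refine ⟨fun i => if h : i < X.card then q ⟨i, h⟩ else x₀, ?_, ?_⟩
  · intro x
    constructor
    · intro hx
      have h1 : o x ∈ Set.range e := by
        rw [(X.image o).range_orderEmbOfFin hY]
        exact mem_coe.2 (mem_image_of_mem o hx)
      obtain ⟨i, hi⟩ := h1
      refine ⟨i.1, i.2, ?_⟩
      show (if h : i.1 < X.card then q ⟨i.1, h⟩ else x₀) = x
      rw [dif_pos i.2]
      exact ho ((hq2 i).trans hi)
    · rintro ⟨i, hi, rfl⟩
      show (if h : i < X.card then q ⟨i, h⟩ else x₀) ∈ X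
      rw [dif_pos hi]
      exact hq1 _
  · intro i j hij hj
    have hi : i < X.card := by omega
    show o (if h : i < X.card then q ⟨i, h⟩ else x₀) < o (if h : j < X.card then q ⟨j, h⟩ else x₀)
    rw [dif_pos hi, dif_pos hj, hq2, hq2]
    exact e.strictMono (Fin.mk_lt_mk.2 hij)

/-- A 2-connected induced subgraph of an outerplanar graph is a polygon with non-crossing chords. -/
theorem outer (hO : NonCross C) (h3 : 3 ≤ X.card)
    (hX : ∀ x ∈ X, (C.induce {v | v ∈ X ∧ v ≠ x}).Connected) : Outer C X := by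
  obtain ⟨o, ho, hc⟩ := hO
  obtain ⟨x₀, hx₀⟩ := card_pos.1 (show 0 < X.card by omega)
  obtain ⟨f, hf, hfo⟩ := enum o ho hx₀
  have hc' : ∀ a b c d, a < b → b < c → c < d → d < X.card →
      ¬ (C.Adj (f a) (f c) ∧ C.Adj (f b) (f d)) := fun a b c d hab hbc hcd hd =>
    hc _ _ _ _ (hfo a b hab (by omega)) (hfo b c hbc (by omega)) (hfo c d hcd hd)
  exact ⟨f, hf, fun i hi => steps hf h3 hc' hX hi, hc'⟩

end OUT

/-- Large blocks of outerplanar graphs have few automorphisms. -/
theorem few_OUT {α : Type} [Fintype α] [DecidableEq α] (C : SimpleGraph α) (hO : NonCross C)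
    (X : Finset α) (hm : 13 ≤ X.card)
    (hX : ∀ x ∈ X, (C.induce {v | v ∈ X ∧ v ≠ x}).Connected) :
    4 * Nat.card (C.induce {v | v ∈ X} ≃g C.induce {v | v ∈ X}) < 2 ^ (X.card - X.card / 2) := by
  have h9 := OUT.card_aut (OUT.outer hO (by omega) hX) (by omega)
  have h11 := CAC.num hm
  omega

/-- Blocks of outerplanar graphs, `p ≥ 2305`. -/
theorem t_OUT2 {α : Type} [Fintype α] [DecidableEq α] (C : SimpleGraph α) (hO : NonCross C)
    (hp : 2305 ≤ Fintype.card α) (X : Finset α)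
    (hX : ∀ x ∈ X, (C.induce {v | v ∈ X ∧ v ≠ x}).Connected) :
    16 * X.card ^ 2 < Fintype.card α ∨
      4 * Nat.card (C.induce {v | v ∈ X} ≃g C.induce {v | v ∈ X}) < 2 ^ (X.card - X.card / 2) := by
  rcases Nat.lt_or_ge X.card 13 with h | h
  · left
    have h2 : X.card ^ 2 ≤ 12 ^ 2 := Nat.pow_le_pow_left (by omega) 2
    omega
  · exact Or.inr (few_OUT C hO X h hX)

/-- Blocks of outerplanar graphs, `p ≥ 577`. -/
theorem t_OUT3 {α : Type} [Fintype α] [DecidableEq α] (C : SimpleGraph α) (hO : NonCross C)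
    (hp : 577 ≤ Fintype.card α) (X : Finset α)
    (hX : ∀ x ∈ X, (C.induce {v | v ∈ X ∧ v ≠ x}).Connected) :
    4 * X.card ^ 2 < Fintype.card α ∨
      4 * Nat.card (C.induce {v | v ∈ X} ≃g C.induce {v | v ∈ X}) < 2 ^ (X.card - X.card / 2) := by
  rcases Nat.lt_or_ge X.card 13 with h | h
  · left
    have h2 : X.card ^ 2 ≤ 12 ^ 2 := Nat.pow_le_pow_left (by omega) 2
    omega
  · exact Or.inr (few_OUT C hO X h hX)

end Pool.Agent.TRB
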