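import Pool.Agent.TRD.Blocks
import Pool.Agent.TRB.MOUT2

/-!
# TRB (MP_e73337_co): blocks that are small or have few automorphisms, connected or not; outerplanar graphs
-/

set_option autoImplicit false

namespace Pool.Agent.TRB

open Finset Pool.Agent.Lib_helper61.SwitchBasic Pool.Agent.Lib_helper61.SwMain Pool.Agent.TRC
  Pool.Agent.TRD

namespace FEW

variable {α : Type} [Fintype α] [DecidableEq α]

/-- A vertex set with at most two images and few automorphisms. -/
theorem few2 (C : SimpleGraph α) (X : Finset α) (hA : ∀ σ, IsClassAut C σ → IsAut C σ)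
    (s₁ : Equiv.Perm α) (hs₁ : IsAut C s₁)
    (h2 : ∀ s, IsAut C s → (∀ x, s x ∈ X ↔ x ∈ X) ∨ (∀ x, (s₁⁻¹ * s) x ∈ X ↔ x ∈ X))
    (hcard : 8 * Nat.card (C.induce {v | v ∈ X} ≃g C.induce {v | v ∈ X}) <
      2 ^ (X.card - X.card / 2)) : TRC.AllRec C := by
  classical
  intro t t' hdeck
  by_contra hne
  have h1 := Pool.Agent.RGP15.local_bound (sw C t) (sw C t') hdeck hne X
  have h3 : ∀ φ : Pool.Agent.RGP15.Rest (sw C t) X, ∃ σ : Equiv.Perm α, IsAut C σ ∧
      ∀ u, φ.1 u = σ u := by
    intro φ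
    obtain ⟨σ, hσ, h⟩ := φ.2
    exact ⟨σ, hA σ (Pool.Agent.RGP15.classAut_unsw C t σ hσ), h⟩
  choose σ hσ hφ using h3
  have hsec : ∀ φ, ¬ (∀ x, σ φ x ∈ X ↔ x ∈ X) → ∀ x, (s₁⁻¹ * σ φ) x ∈ X ↔ x ∈ X :=
    fun φ h => (h2 (σ φ) (hσ φ)).resolve_left h
  let F : Pool.Agent.RGP15.Rest (sw C t) X →
      Bool × (C.induce {v | v ∈ X} ≃g C.induce {v | v ∈ X}) := fun φ =>
    if h : ∀ x, σ φ x ∈ X ↔ x ∈ X then (true, IMG.res (σ φ) (hσ φ) h)
    else (false, IMG.res (s₁⁻¹ * σ φ) (mul_aut (inv_aut hs₁) (hσ φ)) (hsec φ h))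
  have hF : Function.Injective F := by
    intro φ ψ h
    apply Subtype.ext
    funext u
    have goal : (σ φ) u.1 = (σ ψ) u.1 := by
      by_cases h1 : ∀ x, σ φ x ∈ X ↔ x ∈ X
      · by_cases h4 : ∀ x, σ ψ x ∈ X ↔ x ∈ X
        · simp only [F, dif_pos h1, dif_pos h4, Prod.mk.injEq, true_and] at h
          have h5 := congrArg (fun e : C.induce {v | v ∈ X} ≃g C.induce {v | v ∈ X} =>
            (e ⟨u.1, u.2⟩).1) h
          exact h5
        · simp only [F, dif_pos h1, dif_neg h4, Prod.mk.injEq] at h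
          exact absurd h.1 (by simp)
      · by_cases h4 : ∀ x, σ ψ x ∈ X ↔ x ∈ X
        · simp only [F, dif_neg h1, dif_pos h4, Prod.mk.injEq] at h
          exact absurd h.1 (by simp)
        · simp only [F, dif_neg h1, dif_neg h4, Prod.mk.injEq, true_and] at h
          have h5 := congrArg (fun e : C.induce {v | v ∈ X} ≃g C.induce {v | v ∈ X} =>
            (e ⟨u.1, u.2⟩).1) h
          have h6 : s₁⁻¹ ((σ φ) u.1) = s₁⁻¹ ((σ ψ) u.1) := h5
          exact s₁⁻¹.injective h6
    rw [hφ φ, hφ ψ]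
    exact goal
  have h4 : Finite (C.induce {v | v ∈ X} ≃g C.induce {v | v ∈ X}) :=
    Finite.of_injective (fun e => (e : {v | v ∈ X} → {v | v ∈ X})) fun e e' h =>
      RelIso.ext fun x => congrFun h x
  have h5 := Nat.card_le_card_of_injective _ hF
  rw [Nat.card_coe_set_eq, Nat.card_prod, Nat.card_eq_fintype_card (α := Bool),
    Fintype.card_bool] at h5
  omega

/-- The centre of a component with at least half of the vertices has at most two images. -/
theorem centre_two (C : SimpleGraph α) (o : α) (X : Finset α)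
    (hX : ∀ b, b ∈ X ↔ b ∈ cpt C o ∧ Cen C b) (ho : Fintype.card α ≤ 2 * (cpt C o).card) :
    ∃ s₁, IsAut C s₁ ∧
      ∀ s, IsAut C s → (∀ x, s x ∈ X ↔ x ∈ X) ∨ (∀ x, (s₁⁻¹ * s) x ∈ X ↔ x ∈ X) := by
  have key : ∀ s, IsAut C s → s o ∈ cpt C o → ∀ x, s x ∈ X ↔ x ∈ X := by
    intro s hs hso x
    rw [hX, hX, CEO.Cen_perm hs]
    have h1 : s x ∈ cpt C (s o) ↔ x ∈ cpt C o := CEO.cpt_perm hs o x
    rw [CEO.cpt_eq hso] at h1
    rw [h1]
  by_cases h : ∀ s, IsAut C s → s o ∈ cpt C o
  · exact ⟨1, one_aut C, fun s hs => Or.inl (key s hs (h s hs))⟩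
  · push Not at h
    obtain ⟨s₁, hs₁, hno⟩ := h
    refine ⟨s₁, hs₁, fun s hs => ?_⟩
    by_cases hso : s o ∈ cpt C o
    · exact Or.inl (key s hs hso)
    · right
      have hdis : Disjoint (cpt C o) (cpt C (s₁ o)) := by
        rw [disjoint_left]
        intro v hv hv'
        apply hno
        rw [CEO.mem_cpt] at hv hv' ⊢
        exact hv.trans hv'.symm
      have hcov : s o ∈ cpt C (s₁ o) := by
        have h1 : (cpt C o ∪ cpt C (s₁ o)).card = (cpt C o).card + (cpt C (s₁ o)).card :=
          card_union_of_disjoint hdis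
        rw [CEO.cpt_card hs₁] at h1
        have h3 : cpt C o ∪ cpt C (s₁ o) = univ := by
          apply eq_univ_of_card
          have := card_le_univ (cpt C o ∪ cpt C (s₁ o))
          omega
        have h4 : s o ∈ cpt C o ∪ cpt C (s₁ o) := by
          rw [h3]
          exact mem_univ _
        exact (mem_union.1 h4).resolve_left hso
      have hs2 : IsAut C (s₁⁻¹ * s) := mul_aut (inv_aut hs₁) hs
      refine key _ hs2 ?_
      have h5 := CEO.cpt_perm hs₁ o ((s₁⁻¹ * s) o)
      rw [← h5]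
      have h6 : s₁ ((s₁⁻¹ * s) o) = s o := by
        simp
      rw [h6]
      exact hcov

/-- **Blocks that are small or have few automorphisms, connected or not.** -/
theorem blocks_few (C : SimpleGraph α) (hA : ∀ σ, IsClassAut C σ → IsAut C σ)
    (hp : 64 < Fintype.card α)
    (hX : ∀ X : Finset α, 3 ≤ X.card → (∀ x ∈ X, (C.induce {v | v ∈ X ∧ v ≠ x}).Connected) →
      16 * X.card ^ 2 < Fintype.card α ∨
      8 * Nat.card (C.induce {v | v ∈ X} ≃g C.induce {v | v ∈ X}) < 2 ^ (X.card - X.card / 2)) :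
    TRC.AllRec C := by
  intro t t' hdeck
  by_contra hne
  obtain ⟨⟨m, hm⟩, h0⟩ := four_dvd hdeck hne
  have h4 : Fintype.card α ≠ 4 := by omega
  apply hne
  rcases t_CMP α C (by omega) with ⟨h3, hs⟩ | ⟨o, ho⟩
  · exact main_comps h4 h3 hs hA t (by rw [sw_sw, symmDiff_self, Finset.bot_eq_empty, sw_empty])
      hdeck
  · rcases centre C o with ⟨c, hc⟩ | ⟨X, hXm, h2, hconn, hcov⟩
    · refine cut_general C hA c (Or.inr ?_) t t' hdeck
      rw [hc]
      nlinarith
    · have hsmall : 16 * X.card ^ 2 < Fintype.card α → Nonempty (sw C t ≃g sw C t') := by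
        intro h5
        obtain ⟨b, -, hb⟩ := TRB.num_family X (Td C) (cpt C o).card (Fintype.card α) hcov (by
          have h6 : 16 * X.card ^ 2 * Fintype.card α < Fintype.card α * Fintype.card α :=
            Nat.mul_lt_mul_of_pos_right h5 (by omega)
          have h7 : Fintype.card α * Fintype.card α ≤
              (2 * (cpt C o).card) * (2 * (cpt C o).card) := Nat.mul_le_mul ho ho
          nlinarith)
        exact cut_general C hA b (Or.inr hb) t t' hdeck
      rcases Nat.lt_or_ge X.card 3 with h | h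
      · have h6 : X.card = 2 := by omega
        apply hsmall
        rw [h6]
        omega
      · rcases hX X h (hconn h) with h7 | h7
        · exact hsmall h7
        · obtain ⟨s₁, hs₁, h8⟩ := centre_two C o X hXm ho
          exact few2 C X hA s₁ hs₁ h8 h7 t t' hdeck

theorem num {m : ℕ} (hm : 17 ≤ m) : 16 * m < 2 ^ (m - m / 2) := by
  have key : ∀ k : ℕ, 16 * (2 * k + 18) < 2 ^ (k + 9) := by
    intro k
    induction k with
    | zero => norm_num
    | succ k ih =>
      rw [show k + 1 + 9 = (k + 9) + 1 from rfl, pow_succ]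
      have : 2 ^ 9 ≤ 2 ^ (k + 9) := Nat.pow_le_pow_right (by norm_num) (by omega)
      norm_num at this
      omega
  obtain ⟨k, hk | hk⟩ : ∃ k, m = 2 * k + 17 ∨ m = 2 * k + 18 := ⟨(m - 17) / 2, by omega⟩
  · have h := key k
    have e : m - m / 2 = k + 9 := by omega
    rw [e]
    omega
  · have h := key k
    have e : m - m / 2 = k + 9 := by omega
    rw [e]
    omega

/-- **Outerplanar graphs, connected or not.** -/
theorem outerplanar (C : SimpleGraph α) (hO : NonCross C)
    (hA : ∀ σ, IsClassAut C σ → IsAut C σ) (hp : 4096 < Fintype.card α) : TRC.AllRec C := by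
  refine blocks_few C hA (by omega) fun X _ hX => ?_
  rcases Nat.lt_or_ge X.card 17 with h | h
  · left
    have h2 : X.card ^ 2 ≤ 16 ^ 2 := Nat.pow_le_pow_left (by omega) 2
    omega
  · right
    have h9 := OUT.card_aut (OUT.outer hO (by omega) hX) (by omega)
    have h11 := num h
    omega

/-- **Outerplanar graphs of small degree, connected or not.** -/
theorem outerplanar_degree (C : SimpleGraph α) (hO : NonCross C)
    (hd : ∀ v, 4 * (C.neighborSet v).ncard < Fintype.card α) (hp : 4096 < Fintype.card α) :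
    TRC.AllRec C :=
  outerplanar C hO (deg_aut C hd) hp

end FEW

end Pool.Agent.TRB
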