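import Pool.Agent.TRB.QFin
import Pool.Agent.TRB.Few

/-!
# TRB (MP_e73337_co): graphs whose central block is complete; block graphs
-/

set_option autoImplicit false

namespace Pool.Agent.TRB

open Finset Pool.Agent.Lib_helper61.SwitchBasic Pool.Agent.Lib_helper61.SwMain Pool.Agent.TRC
  Pool.Agent.TRD

namespace CLQ

variable {α : Type} [Fintype α] [DecidableEq α]

/-- The partition into the branches at the vertices of a complete centre. -/
theorem parts (C : SimpleGraph α) (X : Finset α)
    (hinv : ∀ s, IsAut C s → ∀ x, s x ∈ X ↔ x ∈ X)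
    (hcov : ∀ v, ∃ b ∈ X, v ∈ Td C b)
    (hdis : ∀ b ∈ X, ∀ b' ∈ X, b ≠ b' → Disjoint (Td C b) (Td C b'))
    (hcl : ∀ x ∈ X, ∀ y ∈ X, x ≠ y → C.Adj x y) :
    ∃ P : QComp.Parts C {b // b ∈ X}, ∀ b, P.V b = Td C b.1 := by
  classical
  choose f hf1 hf2 using hcov
  have huniq : ∀ v, ∀ b ∈ X, v ∈ Td C b → f v = b := by
    intro v b hb hv
    by_contra hne
    exact disjoint_left.1 (hdis (f v) (hf1 v) b hb hne) (hf2 v) hv
  have hroot : ∀ b ∈ X, f b = b := fun b hb => huniq b b hb (self_Td C b)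
  have hstep : ∀ u v, f u ≠ f v → C.Adj u v → u ∈ X := by
    intro u v hne h
    by_cases hu : u = f u
    · rw [hu]
      exact hf1 u
    · exfalso
      have h1 := CEO.stay (hf2 u) hu h
      exact hne (huniq v (f u) (hf1 u) h1).symm
  have hperm : ∀ s, IsAut C s → ∀ v, f (s v) = s (f v) := by
    intro s hs v
    exact huniq _ _ ((hinv s hs _).2 (hf1 v)) ((CEO.Td_perm hs _ _).2 (hf2 v))
  have hiso : ∀ φ : C ≃g C, IsAut C φ.toEquiv := fun φ u v => φ.map_rel_iff'
  refine ⟨⟨fun v => ⟨f v, hf1 v⟩, ?_, fun v => v ∈ X, ?_, ?_, ?_, ?_⟩, ?_⟩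
  · rintro ⟨b, hb⟩
    exact ⟨b, Subtype.ext (hroot b hb)⟩
  · intro u v huv
    have hne : f u ≠ f v := fun h => huv (Subtype.ext h)
    constructor
    · intro h
      exact ⟨hstep u v hne h, hstep v u hne.symm h.symm⟩
    · rintro ⟨hu, hv⟩
      exact hcl u hu v hv fun h => hne (by rw [h])
  · intro φ u
    exact hinv _ (hiso φ) u
  · intro u v hu hv
    have h1 : u ∈ X := by
      have : f u = u := hu (f u) (Subtype.ext (hroot _ (hf1 u)))
      rw [← this]
      exact hf1 u
    have h2 : v ∈ X := by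
      have : f v = v := hv (f v) (Subtype.ext (hroot _ (hf1 v)))
      rw [← this]
      exact hf1 v
    exact ⟨fun _ => h2, fun _ => h1⟩
  · intro φ u v
    have h1 : f (φ u) = φ (f u) := hperm _ (hiso φ) u
    have h2 : f (φ v) = φ (f v) := hperm _ (hiso φ) v
    constructor
    · intro h
      have h3 : f (φ u) = f (φ v) := congrArg Subtype.val h
      rw [h1, h2] at h3
      exact Subtype.ext (φ.injective h3)
    · intro h
      have h3 : f u = f v := congrArg Subtype.val h
      apply Subtype.ext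
      show f (φ u) = f (φ v)
      rw [h1, h2, h3]
  · rintro ⟨b, hb⟩
    ext v
    rw [QComp.Parts.mem_V]
    constructor
    · intro h
      have h3 : f v = b := congrArg Subtype.val h
      have h4 := hf2 v
      rw [h3] at h4
      exact h4
    · intro h
      exact Subtype.ext (huniq v b hb h)

/-- **Connected graphs whose blocks are small, or complete, or have few automorphisms.** -/
theorem blocks (C : SimpleGraph α) (hC : C.Connected)
    (hA : ∀ σ, IsClassAut C σ → IsAut C σ) (hp : 16 < Fintype.card α)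
    (hX : ∀ X : Finset α, 3 ≤ X.card → (∀ x ∈ X, (C.induce {v | v ∈ X ∧ v ≠ x}).Connected) →
      4 * X.card ^ 2 < Fintype.card α ∨ (∀ x ∈ X, ∀ y ∈ X, x ≠ y → C.Adj x y) ∨
      4 * Nat.card (C.induce {v | v ∈ X} ≃g C.induce {v | v ∈ X}) < 2 ^ (X.card - X.card / 2)) :
    TRC.AllRec C := by
  classical
  obtain ⟨o⟩ := hC.nonempty
  have hall : ∀ v, v ∈ cpt C o := fun v => CEO.mem_cpt.2 (hC.preconnected o v)
  have hn : (cpt C o).card = Fintype.card α := by
    rw [← card_univ]
    congr 1
    ext v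
    simp [hall v]
  obtain ⟨X, hXm⟩ : ∃ X : Finset α, ∀ b, b ∈ X ↔ b ∈ cpt C o ∧ Cen C b :=
    ⟨univ.filter fun b => b ∈ cpt C o ∧ Cen C b, fun b => by simp⟩
  rcases sub α C o with ⟨c, hc, -, hv⟩ | ⟨h1, h2, h3, h4⟩
  · refine cut_general C hA c (Or.inr ?_)
    have hT : Td C c = univ := by
      ext v
      rw [CEO.mem_Td, CEO.cpt_eq hc]
      simp only [mem_univ, iff_true]
      refine ⟨hall v, ?_⟩
      by_cases hvc : v = c
      · exact Or.inl hvc
      · exact Or.inr (hv v (hall v) hvc)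
    rw [hT, card_univ]
    nlinarith
  · have hcov : ∀ v, ∃ b ∈ X, v ∈ Td C b := by
      intro v
      obtain ⟨b, hbo, hbc, hvb⟩ := h2 v (hall v)
      exact ⟨b, (hXm b).2 ⟨hbo, hbc⟩, hvb⟩
    have hdis : ∀ b ∈ X, ∀ b' ∈ X, b ≠ b' → Disjoint (Td C b) (Td C b') := fun b hb b' hb' =>
      h3 b ((hXm b).1 hb).1 b' ((hXm b').1 hb').1 ((hXm b).1 hb).2 ((hXm b').1 hb').2
    have hcov' : Fintype.card α ≤ ∑ b ∈ X, (Td C b).card := by
      have h5 : (univ : Finset α) ⊆ X.biUnion (Td C) := by
        intro v _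
        obtain ⟨b, hb, hvb⟩ := hcov v
        exact mem_biUnion.2 ⟨b, hb, hvb⟩
      rw [← card_univ]
      exact (card_le_card h5).trans card_biUnion_le
    have hinv : ∀ s, IsAut C s → ∀ x, s x ∈ X ↔ x ∈ X := by
      intro s hs x
      rw [hXm, hXm, CEO.Cen_perm hs]
      exact ⟨fun g => ⟨hall x, g.2⟩, fun g => ⟨hall (s x), g.2⟩⟩
    have h2X : 2 ≤ X.card := by
      have h6 : ∑ b ∈ X, 2 * (Td C b).card ≤ X.card * (cpt C o).card := by
        rw [← smul_eq_mul]
        exact sum_le_card_nsmul _ _ _ fun b hb => h1 b ((hXm b).1 hb).1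
      rw [← mul_sum, hn] at h6
      by_contra hcon
      have h9 : X.card * Fintype.card α ≤ 1 * Fintype.card α :=
        Nat.mul_le_mul_right _ (by omega)
      omega
    have hsmall : 4 * X.card ^ 2 < Fintype.card α → TRC.AllRec C := by
      intro h5
      obtain ⟨b, -, hb⟩ := TRB.num_family X (Td C) (Fintype.card α) (Fintype.card α) hcov' (by
        rw [pow_two (Fintype.card α)]
        exact Nat.mul_lt_mul_of_pos_right h5 (by omega))
      exact cut_general C hA b (Or.inr hb)
    rcases Nat.lt_or_ge X.card 3 with h | h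
    · have h6 : X.card = 2 := by omega
      apply hsmall
      rw [h6]
      omega
    · rcases hX X h (h4 X hXm h) with h7 | h7 | h7
      · exact hsmall h7
      · obtain ⟨P, hP⟩ := parts C X hinv hcov hdis h7
        intro t t' hdeck
        refine QFin.main_parts P (by omega) (by rw [Fintype.card_coe]; exact h) (fun c => ?_)
          (fun σ hσ => hA σ hσ) t (by rw [sw_sw, symmDiff_self, Finset.bot_eq_empty, sw_empty])
          hdeck
        rw [hP]
        have h8 := h1 c.1 (hall c.1)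
        omega
      · exact TRB.t_IMG α C X hA hinv h7

/-- **Block graphs**: connected graphs in which every block is complete. -/
theorem block_graph (C : SimpleGraph α) (hC : C.Connected)
    (hA : ∀ σ, IsClassAut C σ → IsAut C σ) (hp : 16 < Fintype.card α)
    (hX : ∀ X : Finset α, 3 ≤ X.card → (∀ x ∈ X, (C.induce {v | v ∈ X ∧ v ≠ x}).Connected) →
      ∀ x ∈ X, ∀ y ∈ X, x ≠ y → C.Adj x y) : TRC.AllRec C :=
  blocks C hC hA hp fun X h3 h => Or.inr (Or.inl (hX X h3 h))

end CLQ

end Pool.Agent.TRB
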