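import Pool.Agent.TRB.Few
import Pool.Agent.TRD.Deg

/-!
# TRB (MP_e73337_co): outerplanar graphs have few edges; outerplanar graphs without very large degrees
-/

set_option autoImplicit false

namespace Pool.Agent.TRB

open Finset Pool.Agent.Lib_helper61.SwitchBasic Pool.Agent.TRC Pool.Agent.TRD

namespace OUTE

variable {α : Type} [Fintype α] [DecidableEq α]

/-- The edges, directed from left to right. -/
def fwd (C : SimpleGraph α) [DecidableRel C.Adj] (o : α → ℕ) : Finset (α × α) :=
  univ.filter fun e => C.Adj e.1 e.2 ∧ o e.1 < o e.2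

theorem mem_fwd {C : SimpleGraph α} [DecidableRel C.Adj] {o : α → ℕ} {e : α × α} :
    e ∈ fwd C o ↔ C.Adj e.1 e.2 ∧ o e.1 < o e.2 := by
  simp [fwd]

/-- At most `2 p` edges. -/
theorem card_fwd (C : SimpleGraph α) [DecidableRel C.Adj] (o : α → ℕ)
    (ho : Function.Injective o) (hc : ∀ a b c d, o a < o b → o b < o c → o c < o d →
      ¬ (C.Adj a c ∧ C.Adj b d)) : (fwd C o).card ≤ 2 * Fintype.card α := by
  classical
  -- edges which are the longest at their left end
  let P₁ := (fwd C o).filter fun e => ∀ b, C.Adj e.1 b → o e.1 < o b → o b ≤ o e.2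
  let P₂ := (fwd C o).filter fun e => ¬ ∀ b, C.Adj e.1 b → o e.1 < o b → o b ≤ o e.2
  have h0 : (fwd C o).card = P₁.card + P₂.card := (card_filter_add_card_filter_not _).symm
  have h1 : P₁.card ≤ Fintype.card α := by
    rw [← card_univ]
    refine card_le_card_of_injOn (fun e => e.1) (fun e _ => mem_coe.2 (mem_univ _)) ?_
    intro e he e' he' h
    have h' : e.1 = e'.1 := h
    obtain ⟨h2, h3⟩ := mem_filter.1 (mem_coe.1 he)
    obtain ⟨h4, h5⟩ := mem_filter.1 (mem_coe.1 he')
    rw [mem_fwd] at h2 h4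
    have a1 := h3 e'.2 (by rw [h']; exact h4.1) (by rw [h']; exact h4.2)
    have a2 := h5 e.2 (by rw [← h']; exact h2.1) (by rw [← h']; exact h2.2)
    exact Prod.ext h' (ho (le_antisymm a2 a1))
  have h2 : P₂.card ≤ Fintype.card α := by
    rw [← card_univ]
    refine card_le_card_of_injOn (fun e => e.2) (fun e _ => mem_coe.2 (mem_univ _)) ?_
    intro e he e' he' h
    have h' : e.2 = e'.2 := h
    obtain ⟨h2, h3⟩ := mem_filter.1 (mem_coe.1 he)
    obtain ⟨h4, h5⟩ := mem_filter.1 (mem_coe.1 he')
    rw [mem_fwd] at h2 h4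
    push Not at h3 h5
    obtain ⟨b, b1, b2, b3⟩ := h3
    obtain ⟨b', c1, c2, c3⟩ := h5
    refine Prod.ext ?_ h'
    rcases lt_trichotomy (o e.1) (o e'.1) with hlt | heq | hlt
    · exfalso
      -- `e.1 < e'.1 < e.2 < b'`
      refine hc e.1 e'.1 e.2 b' hlt (by rw [h']; exact h4.2) (by rw [h']; exact c3) ⟨h2.1, c1⟩
    · exact ho heq
    · exfalso
      refine hc e'.1 e.1 e'.2 b hlt (by rw [← h']; exact h2.2) (by rw [← h']; exact b3) ⟨h4.1, b1⟩
  omega

/-- The sum of the degrees of an outerplanar graph is at most `4 p`. -/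
theorem sum_deg (C : SimpleGraph α) [DecidableRel C.Adj] (hO : NonCross C) :
    ∑ v, C.degree v ≤ 4 * Fintype.card α := by
  classical
  obtain ⟨o, ho, hc⟩ := hO
  have h1 := card_fwd C o ho hc
  let A : Finset (α × α) := univ.filter fun e => C.Adj e.1 e.2
  have hA : ∑ v, C.degree v = A.card := by
    rw [card_filter, Fintype.sum_prod_type]
    refine sum_congr rfl fun v _ => ?_
    rw [← card_filter, ← SimpleGraph.card_neighborFinset_eq_degree,
      SimpleGraph.neighborFinset_eq_filter]
  have h2 : A.card = (A.filter fun e => o e.1 < o e.2).card +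
      (A.filter fun e => ¬ o e.1 < o e.2).card := (card_filter_add_card_filter_not _).symm
  have h3 : (A.filter fun e => o e.1 < o e.2).card ≤ (fwd C o).card := by
    refine card_le_card fun e he => ?_
    obtain ⟨h4, h5⟩ := mem_filter.1 he
    exact mem_fwd.2 ⟨(mem_filter.1 h4).2, h5⟩
  have h4 : (A.filter fun e => ¬ o e.1 < o e.2).card ≤ (fwd C o).card := by
    refine card_le_card_of_injOn Prod.swap (fun e he => ?_) (Prod.swap_injective.injOn)
    obtain ⟨h5, h6⟩ := mem_filter.1 (mem_coe.1 he)
    have h7 : C.Adj e.1 e.2 := (mem_filter.1 h5).2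
    have h8 : o e.1 ≠ o e.2 := fun h => h7.ne (ho h)
    refine mem_coe.2 (mem_fwd.2 ⟨h7.symm, ?_⟩)
    show o e.2 < o e.1
    omega
  omega

/-- **Outerplanar graphs with all degrees below `p / 2 - 4`, connected or not.** -/
theorem outerplanar_half (C : SimpleGraph α) (hO : NonCross C)
    (hd : ∀ v, 2 * (C.neighborSet v).ncard + 8 < Fintype.card α)
    (hp : 4096 < Fintype.card α) : TRC.AllRec C := by
  classical
  refine FEW.outerplanar C hO (deg_aut2 C fun v => ?_) hp
  have h1 := sum_deg C hO
  have h2 := hd v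
  rw [Set.ncard_eq_toFinset_card', Set.toFinset_card,
    SimpleGraph.card_neighborSet_eq_degree] at h2
  have h3 : Fintype.card α * (2 * C.degree v + 8) < Fintype.card α * Fintype.card α :=
    Nat.mul_lt_mul_of_pos_left h2 (by omega)
  nlinarith

end OUTE

end Pool.Agent.TRB
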