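import Pool.Agent.TRB.MBLQ

/-!
# TRB (MP_e73337_co): one branch of the centre is large
-/

set_option autoImplicit false

namespace Pool.Agent.TRB

open Finset Pool.Agent.Lib_helper61.SwitchBasic Pool.Agent.TRC Pool.Agent.NTW

/-- A branch with more than `2 √p` vertices, if the centre has less than `√p / 2` vertices. -/
theorem num_center {α : Type} [Fintype α] [DecidableEq α] (hCE3 : S_CE3)
    (C : SimpleGraph α) (hconn : C.Connected) (hNoC : NoC C)
    (h4 : 4 * (KK C).card ^ 2 < Fintype.card α) :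
    ∃ b ∈ KK C, 4 * Fintype.card α < (Tc C b).card ^ 2 := by
  by_contra hcon
  push Not at hcon
  have hcen := hCE3 α C hconn hNoC
  have hcov := BLQ.cov (C := C) hcen.cover
  have h1 : (∑ b ∈ KK C, (Tc C b).card) ^ 2 ≤ (KK C).card * ∑ b ∈ KK C, (Tc C b).card ^ 2 :=
    sq_sum_le_card_mul_sum_sq
  have h2 : ∑ b ∈ KK C, (Tc C b).card ^ 2 ≤ (KK C).card * (4 * Fintype.card α) := by
    rw [← smul_eq_mul, ← sum_const]
    exact sum_le_sum fun b hb => hcon b hb
  have h3 : Fintype.card α ^ 2 ≤ (∑ b ∈ KK C, (Tc C b).card) ^ 2 := Nat.pow_le_pow_left hcov 2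
  have h5 : Fintype.card α ^ 2 ≤ (KK C).card * ((KK C).card * (4 * Fintype.card α)) :=
    h3.trans (h1.trans (Nat.mul_le_mul_left _ h2))
  have h6 : Fintype.card α * Fintype.card α ≤
      (4 * (KK C).card ^ 2) * Fintype.card α := by
    calc Fintype.card α * Fintype.card α = Fintype.card α ^ 2 := by ring
      _ ≤ (KK C).card * ((KK C).card * (4 * Fintype.card α)) := h5
      _ = (4 * (KK C).card ^ 2) * Fintype.card α := by ring
  have h0 : 0 < Fintype.card α := by omega
  have h7 : Fintype.card α ≤ 4 * (KK C).card ^ 2 := Nat.le_of_mul_le_mul_right h6 h0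
  omega

/-- The same for any family of branches that covers `n` points. -/
theorem num_family {α : Type} (K : Finset α) (T : α → Finset α) (n p : ℕ)
    (hn : n ≤ ∑ b ∈ K, (T b).card) (h4 : 4 * K.card ^ 2 * p < n ^ 2) :
    ∃ b ∈ K, 4 * p < (T b).card ^ 2 := by
  by_contra hcon
  push Not at hcon
  have h1 : (∑ b ∈ K, (T b).card) ^ 2 ≤ K.card * ∑ b ∈ K, (T b).card ^ 2 :=
    sq_sum_le_card_mul_sum_sq
  have h2 : ∑ b ∈ K, (T b).card ^ 2 ≤ K.card * (4 * p) := by
    rw [← smul_eq_mul, ← sum_const]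
    exact sum_le_sum fun b hb => hcon b hb
  have h3 : n ^ 2 ≤ (∑ b ∈ K, (T b).card) ^ 2 := Nat.pow_le_pow_left hn 2
  have h5 : n ^ 2 ≤ K.card * (K.card * (4 * p)) :=
    h3.trans (h1.trans (Nat.mul_le_mul_left _ h2))
  have h6 : K.card * (K.card * (4 * p)) = 4 * K.card ^ 2 * p := by ring
  omega

end Pool.Agent.TRB
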