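import Pool.Agent.TRB.St

/-!
# TRB, module BLK: classes of graphs with small blocks are reconstructible
-/

set_option autoImplicit false

namespace Pool.Agent.TRB

open Finset Pool.Agent.Lib_helper61.SwitchBasic Pool.Agent.TRC Pool.Agent.NTW

theorem t_BLK (hCE1 : S_CE1) (hCE3 : S_CE3) (hCE4 : S_CE4) (hTWO : S_TWO) : S_BLK := by
  intro α _ _ C hconn hNoC haut h32 hX
  have hcen := hCE3 α C hconn hNoC
  have hT := (hCE1 α C hNoC).1
  have hcov : Fintype.card α ≤ ∑ b ∈ KK C, (Tc C b).card := by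
    have hsub : (univ : Finset α) ⊆ (KK C).biUnion (Tc C) := fun v _ => by
      obtain ⟨b, hb, hv⟩ := hcen.cover v
      exact mem_biUnion.2 ⟨b, hb, hv⟩
    calc Fintype.card α = (univ : Finset α).card := card_univ.symm
      _ ≤ ((KK C).biUnion (Tc C)).card := card_le_card hsub
      _ ≤ _ := card_biUnion_le
  -- at least two elements
  have hm2 : 2 ≤ (KK C).card := by
    have h1 : 2 * ∑ b ∈ KK C, (Tc C b).card ≤ (KK C).card * Fintype.card α := by
      rw [mul_sum, ← smul_eq_mul, ← sum_const]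
      exact sum_le_sum fun b _ => hT b
    by_contra hlt
    have h2 : (KK C).card ≤ 1 := by omega
    have h3 : (KK C).card * Fintype.card α ≤ 1 * Fintype.card α := Nat.mul_le_mul_right _ h2
    omega
  have h8 : 8 * (KK C).card ^ 2 ≤ Fintype.card α := by
    by_cases h3 : 3 ≤ (KK C).card
    · exact hX (KK C) h3 fun x hx => hCE4 α C hconn hNoC h3 x hx
    · have h2 : (KK C).card = 2 := by omega
      rw [h2]
      omega
  -- the two largest branches
  have hne : (KK C).Nonempty := card_pos.1 (by omega)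
  obtain ⟨b₁, hb₁, hmax₁⟩ := exists_max_image (KK C) (fun b => (Tc C b).card) hne
  have hce : ((KK C).erase b₁).card = (KK C).card - 1 := card_erase_of_mem hb₁
  have hne' : ((KK C).erase b₁).Nonempty := card_pos.1 (by omega)
  obtain ⟨b₂, hb₂, hmax₂⟩ := exists_max_image ((KK C).erase b₁) (fun b => (Tc C b).card) hne'
  have hb₂' := mem_erase.1 hb₂
  have hbig : 4 * (KK C).card < (Tc C b₂).card := by
    by_contra hlt
    have hle : (Tc C b₂).card ≤ 4 * (KK C).card := by omega
    have hsum : ∑ b ∈ (KK C).erase b₁, (Tc C b).card ≤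
        ((KK C).card - 1) * (4 * (KK C).card) := by
      rw [← hce, ← smul_eq_mul, ← sum_const]
      exact sum_le_sum fun b hb => (hmax₂ b hb).trans hle
    have hadd : (Tc C b₁).card + ∑ b ∈ (KK C).erase b₁, (Tc C b).card =
        ∑ b ∈ KK C, (Tc C b).card := add_sum_erase (KK C) (fun b => (Tc C b).card) hb₁
    have hT1 := hT b₁
    obtain ⟨k, hk⟩ : ∃ k, (KK C).card = k + 2 := ⟨(KK C).card - 2, by omega⟩
    rw [hk] at h8 hsum
    have e1 : (k + 2 - 1) * (4 * (k + 2)) = 4 * k ^ 2 + 12 * k + 8 := by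
      have : k + 2 - 1 = k + 1 := by omega
      rw [this]
      ring
    have e2 : 8 * (k + 2) ^ 2 = 8 * k ^ 2 + 32 * k + 32 := by ring
    rw [e1] at hsum
    rw [e2] at h8
    omega
  have hbig₁ : 4 * (KK C).card < (Tc C b₁).card := lt_of_lt_of_le hbig (hmax₁ b₂ hb₂'.2)
  exact hTWO α C (KK C) (Tc C) hcen haut b₁ hb₁ b₂ hb₂'.2 (Ne.symm hb₂'.1) hbig₁ hbig

end Pool.Agent.TRB
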