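import Pool.Agent.TRB.St2

/-!
# TRB (MP_e73337_co): the centre has at least two vertices
-/

set_option autoImplicit false

namespace Pool.Agent.TRB

open Finset Pool.Agent.Lib_helper61.SwitchBasic Pool.Agent.TRC Pool.Agent.NTW

theorem t_KKT : S_CE1 → S_CE3 → S_KKT := by
  intro h1 h3 α _ _ C hC hN
  have hcov := (h3 α C hC hN).cover
  have hsz := (h1 α C hN).1
  have hpos : 0 < Fintype.card α := Fintype.card_pos_iff.2 hC.nonempty
  have hsub : (univ : Finset α) ⊆ (KK C).biUnion (Tc C) := by
    intro v _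
    obtain ⟨b, hb, hv⟩ := hcov v
    exact mem_biUnion.2 ⟨b, hb, hv⟩
  have hle : Fintype.card α ≤ ∑ b ∈ KK C, (Tc C b).card := by
    have h4 := (card_le_card hsub).trans card_biUnion_le
    rwa [card_univ] at h4
  have h2 : 2 * ∑ b ∈ KK C, (Tc C b).card ≤ (KK C).card * Fintype.card α := by
    rw [mul_sum, ← smul_eq_mul (KK C).card]
    exact sum_le_card_nsmul _ _ _ fun b _ => hsz b
  by_contra hlt
  have h5 : (KK C).card ≤ 1 := by omega
  have h6 : (KK C).card * Fintype.card α ≤ 1 * Fintype.card α := Nat.mul_le_mul_right _ h5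
  omega

end Pool.Agent.TRB
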