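import Pool.Agent.TRB.MCAC

/-!
# TRB (MP_e73337_co), module OUT: outerplanar blocks have few automorphisms
-/

set_option autoImplicit false

namespace Pool.Agent.TRB

open Finset Pool.Agent.Lib_helper61.SwitchBasic Pool.Agent.TRC Pool.Agent.NTW

/-- `C[X]` has a Hamiltonian cycle `f 0, …, f (m - 1)`, `m = |X|`, and no two edges of `C[X]` cross if it
is drawn as a convex polygon. -/
def Outer {α : Type} (C : SimpleGraph α) (X : Finset α) : Prop :=
  ∃ f : ℕ → α, (∀ x, x ∈ X ↔ ∃ i < X.card, f i = x) ∧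
    (∀ i < X.card, C.Adj (f i) (f ((i + 1) % X.card))) ∧
    ∀ a b c d, a < b → b < c → c < d → d < X.card → ¬ (C.Adj (f a) (f c) ∧ C.Adj (f b) (f d))

namespace OUT

variable {α : Type} [DecidableEq α] {C : SimpleGraph α} {X : Finset α} {f : ℕ → α}

theorem inj (hX : ∀ x, x ∈ X ↔ ∃ i < X.card, f i = x) {i j : ℕ} (hi : i < X.card)
    (hj : j < X.card) (h : f i = f j) : i = j := by
  have h1 : (range X.card).image f = X := by
    ext x
    rw [mem_image, hX]
    constructor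
    · rintro ⟨i, hi, h⟩
      exact ⟨i, mem_range.1 hi, h⟩
    · rintro ⟨i, hi, h⟩
      exact ⟨i, mem_range.2 hi, h⟩
  have h2 : ((range X.card).image f).card = (range X.card).card := by
    rw [h1, card_range]
  have h3 := card_image_iff.1 h2
  exact h3 (mem_coe.2 (mem_range.2 hi)) (mem_coe.2 (mem_range.2 hj)) h

omit [DecidableEq α] in
/-- Two adjacent vertices off a chord are on the same side. -/
theorem side (hc : ∀ a b c d, a < b → b < c → c < d → d < X.card →
      ¬ (C.Adj (f a) (f c) ∧ C.Adj (f b) (f d))) {x y : ℕ} (hxy : x < y) (hy : y < X.card)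
    (hadj : C.Adj (f x) (f y)) {k l : ℕ} (hk : k < X.card) (hl : l < X.card) (hkx : k ≠ x)
    (hky : k ≠ y) (hlx : l ≠ x) (hly : l ≠ y) (h : C.Adj (f k) (f l)) :
    (x < k ∧ k < y) → (x < l ∧ l < y) := by
  rintro ⟨h1, h2⟩
  by_contra hcon
  rcases Nat.lt_or_ge l x with h3 | h3
  · -- l < x < k < y
    exact hc l x k y h3 h1 h2 hy ⟨h.symm, hadj⟩
  · have h4 : x < l := by omega
    have h5 : y < l := by
      by_contra h6
      exact hcon ⟨h4, by omega⟩
    exact hc x k y l h1 h2 h5 hl ⟨hadj, h⟩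

/-- Automorphisms of an outerplanar block preserve the Hamiltonian cycle: the key step. -/
theorem key (hX : ∀ x, x ∈ X ↔ ∃ i < X.card, f i = x)
    (hcyc : ∀ i < X.card, C.Adj (f i) (f ((i + 1) % X.card)))
    (hc : ∀ a b c d, a < b → b < c → c < d → d < X.card →
      ¬ (C.Adj (f a) (f c) ∧ C.Adj (f b) (f d)))
    (φ : α → α) (hφX : ∀ x ∈ X, φ x ∈ X) (hφi : ∀ x ∈ X, ∀ y ∈ X, φ x = φ y → x = y)
    (hφs : ∀ y ∈ X, ∃ x ∈ X, φ x = y)
    (hφa : ∀ x ∈ X, ∀ y ∈ X, C.Adj x y → C.Adj (φ x) (φ y)) {i : ℕ} (hi : i < X.card)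
    {x y : ℕ} (hxy : x < y) (hy : y < X.card)
    (he : (φ (f i) = f x ∧ φ (f ((i + 1) % X.card)) = f y) ∨
      (φ (f i) = f y ∧ φ (f ((i + 1) % X.card)) = f x)) :
    y = x + 1 ∨ (x = 0 ∧ y + 1 = X.card) := by
  by_contra hcon
  push Not at hcon
  obtain ⟨hn1, hn2⟩ := hcon
  have hpos : 0 < X.card := by omega
  have hfX : ∀ k < X.card, f k ∈ X := fun k hk => (hX _).2 ⟨k, hk, rfl⟩
  have hmod : ∀ k, k % X.card < X.card := fun k => Nat.mod_lt _ hpos
  -- the rotated sequence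
  let g : ℕ → α := fun j => f ((i + j) % X.card)
  have hg : ∀ j, g j ∈ X := fun j => hfX _ (hmod _)
  have hg0 : g 0 = f i := by
    show f ((i + 0) % X.card) = f i
    rw [Nat.add_zero, Nat.mod_eq_of_lt hi]
  have hg1 : g 1 = f ((i + 1) % X.card) := rfl
  have hgadj : ∀ j, C.Adj (g j) (g (j + 1)) := by
    intro j
    have h := hcyc ((i + j) % X.card) (hmod _)
    have e : ((i + j) % X.card + 1) % X.card = (i + (j + 1)) % X.card := by
      rw [Nat.mod_add_mod]
      rfl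
    rw [e] at h
    exact h
  have hgs : ∀ z ∈ X, ∃ j < X.card, g j = z := by
    intro z hz
    obtain ⟨k, hk, rfl⟩ := (hX z).1 hz
    by_cases hki : i ≤ k
    · refine ⟨k - i, by omega, ?_⟩
      show f ((i + (k - i)) % X.card) = f k
      rw [show i + (k - i) = k by omega, Nat.mod_eq_of_lt hk]
    · refine ⟨k + X.card - i, by omega, ?_⟩
      show f ((i + (k + X.card - i)) % X.card) = f k
      rw [show i + (k + X.card - i) = k + X.card by omega, Nat.add_mod_right,
        Nat.mod_eq_of_lt hk]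
  have hginj : ∀ j < X.card, ∀ l < X.card, g j = g l → j = l := by
    intro j hj l hl h
    have h1 := inj hX (hmod _) (hmod _) h
    have h2 : (i + j) % X.card = (i + l) % X.card := h1
    have h3 : j % X.card = l % X.card := Nat.ModEq.add_left_cancel' i h2
    rwa [Nat.mod_eq_of_lt hj, Nat.mod_eq_of_lt hl] at h3
  -- positions of the images
  have hpo : ∀ j, ∃ k < X.card, f k = φ (g j) := fun j => (hX _).1 (hφX _ (hg j))
  choose p hp1 hp2 using hpo
  have hadj : C.Adj (f x) (f y) := by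
    have h := hφa (g 0) (hg 0) (g 1) (hg 1) (hgadj 0)
    rw [hg0, hg1] at h
    rcases he with ⟨h1, h2⟩ | ⟨h1, h2⟩
    · rw [h1, h2] at h
      exact h
    · rw [h1, h2] at h
      exact h.symm
  have hxm : x < X.card := by omega
  -- the other positions avoid `x` and `y`
  have hne : ∀ j, 2 ≤ j → j < X.card → p j ≠ x ∧ p j ≠ y := by
    intro j h2 hj
    have h0 : φ (g j) ≠ φ (f i) := by
      intro h
      have h3 := hφi _ (hg j) _ (hfX i hi) h
      rw [← hg0] at h3
      have := hginj j hj 0 hpos h3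
      omega
    have h1 : φ (g j) ≠ φ (f ((i + 1) % X.card)) := by
      intro h
      have h3 := hφi _ (hg j) _ (hfX _ (hmod _)) h
      rw [← hg1] at h3
      have := hginj j hj 1 (by omega) h3
      omega
    constructor
    · intro h
      rcases he with ⟨h3, h4⟩ | ⟨h3, h4⟩
      · exact h0 (by rw [← hp2, h, h3])
      · exact h1 (by rw [← hp2, h, h4])
    · intro h
      rcases he with ⟨h3, h4⟩ | ⟨h3, h4⟩
      · exact h1 (by rw [← hp2, h, h4])
      · exact h0 (by rw [← hp2, h, h3])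
  have hpadj : ∀ j, C.Adj (f (p j)) (f (p (j + 1))) := by
    intro j
    rw [hp2, hp2]
    exact hφa _ (hg j) _ (hg (j + 1)) (hgadj j)
  have hstep : ∀ j, 2 ≤ j → j + 1 < X.card →
      ((x < p j ∧ p j < y) ↔ (x < p (j + 1) ∧ p (j + 1) < y)) := by
    intro j h2 hj
    obtain ⟨a1, a2⟩ := hne j h2 (by omega)
    obtain ⟨b1, b2⟩ := hne (j + 1) (by omega) hj
    exact ⟨side hc hxy hy hadj (hp1 j) (hp1 (j + 1)) a1 a2 b1 b2 (hpadj j),
      side hc hxy hy hadj (hp1 (j + 1)) (hp1 j) b1 b2 a1 a2 (hpadj j).symm⟩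
  have hall : ∀ j, 2 ≤ j → j < X.card → ((x < p j ∧ p j < y) ↔ (x < p 2 ∧ p 2 < y)) := by
    intro j h2
    induction j, h2 using Nat.le_induction with
    | base => exact fun _ => Iff.rfl
    | succ j h2 ih =>
      intro hj
      exact (hstep j h2 hj).symm.trans (ih (by omega))
  -- every position other than `x`, `y` is the position of an image with `2 ≤ j`
  have hcov : ∀ k < X.card, k ≠ x → k ≠ y → ((x < k ∧ k < y) ↔ (x < p 2 ∧ p 2 < y)) := by
    intro k hk hkx hky
    obtain ⟨z, hz, hzk⟩ := hφs (f k) (hfX k hk)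
    obtain ⟨j, hj, rfl⟩ := hgs z hz
    have hpk : p j = k := inj hX (hp1 j) hk (by rw [hp2, hzk])
    have h2 : 2 ≤ j := by
      by_contra h
      have h01 : j = 0 ∨ j = 1 := by omega
      rcases h01 with rfl | rfl
      · rw [hg0] at hzk
        rcases he with ⟨h3, h4⟩ | ⟨h3, h4⟩
        · exact hkx (inj hX hk hxm (by rw [← hzk, h3]))
        · exact hky (inj hX hk hy (by rw [← hzk, h3]))
      · rw [hg1] at hzk
        rcases he with ⟨h3, h4⟩ | ⟨h3, h4⟩
        · exact hky (inj hX hk hy (by rw [← hzk, h4]))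
        · exact hkx (inj hX hk hxm (by rw [← hzk, h4]))
    rw [← hpk]
    exact hall j h2 hj
  have h1 := (hcov (x + 1) (by omega) (by omega) (by omega)).1 ⟨by omega, by omega⟩
  by_cases hx0 : x = 0
  · have h2 := (hcov (y + 1) (by omega) (by omega) (by omega)).2 h1
    omega
  · have h2 := (hcov 0 hpos (by omega) (by omega)).2 h1
    omega

/-- The Hamiltonian cycle as a graph. -/
def cyc (X : Finset α) (f : ℕ → α) : SimpleGraph {v | v ∈ X} where
  Adj u v := u ≠ v ∧ ∃ i, i < X.card ∧ ((f i = u.1 ∧ f ((i + 1) % X.card) = v.1) ∨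
    (f i = v.1 ∧ f ((i + 1) % X.card) = u.1))
  symm := ⟨fun _ _ h => ⟨h.1.symm, by
    obtain ⟨_, i, hi, h1⟩ := h
    exact ⟨i, hi, h1.symm⟩⟩⟩
  loopless := ⟨fun _ h => h.1 rfl⟩

omit [DecidableEq α] in
theorem cyc_adj {u v : {v | v ∈ X}} : (cyc X f).Adj u v ↔ (u ≠ v ∧ ∃ i, i < X.card ∧
    ((f i = u.1 ∧ f ((i + 1) % X.card) = v.1) ∨ (f i = v.1 ∧ f ((i + 1) % X.card) = u.1))) :=
  Iff.rfl

/-- Consecutive vertices are adjacent. -/
theorem cyc_step (hX : ∀ x, x ∈ X ↔ ∃ i < X.card, f i = x) (h3 : 3 ≤ X.card) {i : ℕ}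
    (hi : i < X.card) (u v : {v | v ∈ X}) (hu : f i = u.1) (hv : f ((i + 1) % X.card) = v.1) :
    (cyc X f).Adj u v := by
  refine ⟨?_, i, hi, Or.inl ⟨hu, hv⟩⟩
  intro h
  have h1 : f i = f ((i + 1) % X.card) := by rw [hu, hv, h]
  have h2 := inj hX hi (Nat.mod_lt _ (by omega)) h1
  by_cases h4 : i + 1 = X.card
  · rw [h4, Nat.mod_self] at h2
    omega
  · rw [Nat.mod_eq_of_lt (by omega)] at h2
    omega

theorem cyc_conn (hX : ∀ x, x ∈ X ↔ ∃ i < X.card, f i = x) (h3 : 3 ≤ X.card) :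
    (cyc X f).Connected := by
  have h0 : f 0 ∈ X := (hX _).2 ⟨0, by omega, rfl⟩
  have key : ∀ j, ∀ hj : j < X.card, ∀ hu : f j ∈ X,
      (cyc X f).Reachable ⟨f 0, h0⟩ ⟨f j, hu⟩ := by
    intro j
    induction j with
    | zero =>
      intro _ _
      exact SimpleGraph.Reachable.refl _
    | succ j ih =>
      intro hj hu
      have hju : f j ∈ X := (hX _).2 ⟨j, by omega, rfl⟩
      refine (ih (by omega) hju).trans (SimpleGraph.Adj.reachable ?_)
      refine cyc_step hX h3 (show j < X.card by omega) _ _ rfl ?_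
      rw [Nat.mod_eq_of_lt hj]
  have all : ∀ u : {v | v ∈ X}, (cyc X f).Reachable ⟨f 0, h0⟩ u := by
    rintro ⟨u, hu⟩
    obtain ⟨i, hi, rfl⟩ := (hX u).1 hu
    exact key i hi hu
  exact { preconnected := fun u v => (all u).symm.trans (all v), nonempty := ⟨⟨f 0, h0⟩⟩ }

theorem cyc_two (hX : ∀ x, x ∈ X ↔ ∃ i < X.card, f i = x)
    (x y z w : {v | v ∈ X}) (hy : (cyc X f).Adj x y) (hz : (cyc X f).Adj x z)
    (hw : (cyc X f).Adj x w) : y = z ∨ y = w ∨ z = w := by
  obtain ⟨k, hk, hkx⟩ := (hX x.1).1 x.2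
  have hpos : 0 < X.card := by omega
  have hA : ∀ y : {v | v ∈ X}, (cyc X f).Adj x y → (f ((k + 1) % X.card) = y.1 ∨
      ∃ i, i < X.card ∧ (i + 1) % X.card = k ∧ f i = y.1) := by
    rintro y ⟨_, i, hi, ⟨h1, h2⟩ | ⟨h1, h2⟩⟩
    · left
      have h3 : i = k := inj hX hi hk (by rw [h1, hkx])
      rw [← h3]
      exact h2
    · right
      exact ⟨i, hi, inj hX (Nat.mod_lt _ hpos) hk (by rw [h2, hkx]), h1⟩
  have hB : ∀ i j, i < X.card → j < X.card → (i + 1) % X.card = k → (j + 1) % X.card = k →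
      i = j := by
    intro i j hi hj h1 h2
    have h3 : (i + 1) % X.card = (j + 1) % X.card := by rw [h1, h2]
    have h4 : i % X.card = j % X.card := Nat.ModEq.add_right_cancel' 1 h3
    rwa [Nat.mod_eq_of_lt hi, Nat.mod_eq_of_lt hj] at h4
  rcases hA y hy with h1 | ⟨i1, a1, b1, c1⟩
  · rcases hA z hz with h2 | ⟨i2, a2, b2, c2⟩
    · left
      exact Subtype.ext (h1.symm.trans h2)
    · rcases hA w hw with h3 | ⟨i3, a3, b3, c3⟩
      · right; left
        exact Subtype.ext (h1.symm.trans h3)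
      · right; right
        have := hB i2 i3 a2 a3 b2 b3
        rw [this] at c2
        exact Subtype.ext (c2.symm.trans c3)
  · rcases hA z hz with h2 | ⟨i2, a2, b2, c2⟩
    · rcases hA w hw with h3 | ⟨i3, a3, b3, c3⟩
      · right; right
        exact Subtype.ext (h2.symm.trans h3)
      · right; left
        have := hB i1 i3 a1 a3 b1 b3
        rw [this] at c1
        exact Subtype.ext (c1.symm.trans c3)
    · left
      have := hB i1 i2 a1 a2 b1 b2
      rw [this] at c1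
      exact Subtype.ext (c1.symm.trans c2)

/-- Automorphisms of `C[X]` preserve the Hamiltonian cycle. -/
theorem cyc_map (hX : ∀ x, x ∈ X ↔ ∃ i < X.card, f i = x) (h3 : 3 ≤ X.card)
    (hcyc : ∀ i < X.card, C.Adj (f i) (f ((i + 1) % X.card)))
    (hc : ∀ a b c d, a < b → b < c → c < d → d < X.card →
      ¬ (C.Adj (f a) (f c) ∧ C.Adj (f b) (f d)))
    (φ : C.induce {v | v ∈ X} ≃g C.induce {v | v ∈ X}) {u v : {v | v ∈ X}}
    (h : (cyc X f).Adj u v) : (cyc X f).Adj (φ u) (φ v) := by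
  have hpos : 0 < X.card := by omega
  let Φ : α → α := fun a => if h : a ∈ X then (φ ⟨a, h⟩).1 else a
  have hΦ : ∀ a : {v | v ∈ X}, Φ a.1 = (φ a).1 := by
    intro a
    have ha : a.1 ∈ X := a.2
    simp only [Φ, dif_pos ha]
  have hφX : ∀ x ∈ X, Φ x ∈ X := by
    intro x hx
    rw [hΦ ⟨x, hx⟩]
    exact (φ ⟨x, hx⟩).2
  have hφi : ∀ x ∈ X, ∀ y ∈ X, Φ x = Φ y → x = y := by
    intro x hx y hy h
    rw [hΦ ⟨x, hx⟩, hΦ ⟨y, hy⟩] at h
    have h1 := φ.injective (Subtype.ext h)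
    exact congrArg Subtype.val h1
  have hφs : ∀ y ∈ X, ∃ x ∈ X, Φ x = y := by
    intro y hy
    refine ⟨(φ.symm ⟨y, hy⟩).1, (φ.symm ⟨y, hy⟩).2, ?_⟩
    rw [hΦ]
    exact congrArg Subtype.val (φ.apply_symm_apply ⟨y, hy⟩)
  have hφa : ∀ x ∈ X, ∀ y ∈ X, C.Adj x y → C.Adj (Φ x) (Φ y) := by
    intro x hx y hy hxy
    rw [hΦ ⟨x, hx⟩, hΦ ⟨y, hy⟩]
    have h1 : (C.induce {v | v ∈ X}).Adj ⟨x, hx⟩ ⟨y, hy⟩ := hxy
    exact φ.map_adj_iff.2 h1
  -- the main case
  have main : ∀ (u v : {v | v ∈ X}) (i : ℕ), i < X.card → f i = u.1 →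
      f ((i + 1) % X.card) = v.1 → (cyc X f).Adj (φ u) (φ v) := by
    intro u v i hi hu hv
    obtain ⟨x, hx, hxu⟩ := (hX (φ u).1).1 (φ u).2
    obtain ⟨y, hy, hyv⟩ := (hX (φ v).1).1 (φ v).2
    have hne : x ≠ y := by
      intro hxy
      have h1 : (φ u).1 = (φ v).1 := by rw [← hxu, ← hyv, hxy]
      have h2 : u = v := φ.injective (Subtype.ext h1)
      have h4 : (cyc X f).Adj u v := cyc_step hX h3 hi u v hu hv
      exact h4.1 h2
    have e1 : Φ (f i) = f x := by rw [hu, hΦ, hxu]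
    have e2 : Φ (f ((i + 1) % X.card)) = f y := by rw [hv, hΦ, hyv]
    rcases Nat.lt_or_gt_of_ne hne with hlt | hlt
    · rcases key hX hcyc hc Φ hφX hφi hφs hφa hi hlt hy (Or.inl ⟨e1, e2⟩) with h1 | ⟨h1, h2⟩
      · refine cyc_step hX h3 hx _ _ hxu ?_
        rw [Nat.mod_eq_of_lt (by omega), ← h1]
        exact hyv
      · refine (cyc_step hX h3 hy _ _ hyv ?_).symm
        rw [h2, Nat.mod_self, ← h1]
        exact hxu
    · rcases key hX hcyc hc Φ hφX hφi hφs hφa hi hlt hx (Or.inr ⟨e1, e2⟩) with h1 | ⟨h1, h2⟩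
      · refine (cyc_step hX h3 hy _ _ hyv ?_).symm
        rw [Nat.mod_eq_of_lt (by omega), ← h1]
        exact hxu
      · refine cyc_step hX h3 hx _ _ hxu ?_
        rw [h2, Nat.mod_self, ← h1]
        exact hyv
  obtain ⟨_, i, hi, ⟨h1, h2⟩ | ⟨h1, h2⟩⟩ := h
  · exact main u v i hi h1 h2
  · exact (main v u i hi h1 h2).symm

/-- An outerplanar block on `m` vertices has at most `2 m` automorphisms. -/
theorem card_aut (hO : Outer C X) (h3 : 3 ≤ X.card) :
    Nat.card (C.induce {v | v ∈ X} ≃g C.induce {v | v ∈ X}) ≤ 2 * X.card := by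
  obtain ⟨f, hX, hcyc, hc⟩ := hO
  have hfin : Finite {v | v ∈ X} := X.finite_toSet
  let F : (C.induce {v | v ∈ X} ≃g C.induce {v | v ∈ X}) → (cyc X f ≃g cyc X f) :=
    fun φ => ⟨φ.toEquiv, by
      intro a b
      constructor
      · intro h
        have h1 := cyc_map hX h3 hcyc hc φ.symm h
        have h2 : φ.symm (φ.toEquiv a) = a := φ.symm_apply_apply a
        have h4 : φ.symm (φ.toEquiv b) = b := φ.symm_apply_apply b
        rwa [h2, h4] at h1
      · intro h
        exact cyc_map hX h3 hcyc hc φ h⟩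
  have hF : Function.Injective F := by
    intro φ ψ h
    ext x
    have h1 : (F φ) x = (F ψ) x := by rw [h]
    have h2 : φ x = ψ x := h1
    rw [h2]
  have : Finite (cyc X f ≃g cyc X f) :=
    Finite.of_injective (fun φ : cyc X f ≃g cyc X f => (φ.toEquiv : {v | v ∈ X} ≃ {v | v ∈ X}))
      (fun φ ψ h => by
        ext x
        have h1 : φ.toEquiv x = ψ.toEquiv x := by
          have := congrArg (fun e : {v | v ∈ X} ≃ {v | v ∈ X} => e x) h
          exact this
        exact congrArg Subtype.val h1)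
  have h5 := Nat.card_le_card_of_injective F hF
  have h0 : f 0 ∈ X := (hX _).2 ⟨0, by omega, rfl⟩
  have h1 : f 1 ∈ X := (hX _).2 ⟨1, by omega, rfl⟩
  have h6 : (cyc X f).Adj ⟨f 0, h0⟩ ⟨f 1, h1⟩ := by
    refine cyc_step hX h3 (show 0 < X.card by omega) _ _ rfl ?_
    rw [Nat.mod_eq_of_lt (by omega)]
  have h7 := CAC.card_le (cyc X f) (cyc_conn hX h3) (cyc_two hX) h6
  have h10 : Nat.card {v | v ∈ X} = X.card := by
    rw [Nat.card_eq_fintype_card]
    simp
  rw [h10] at h7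
  exact h5.trans h7

end OUT

/-- In an outerplanar graph with at least 1057 vertices every block is small or has few
automorphisms. -/
theorem t_OUT {α : Type} [Fintype α] [DecidableEq α] (C : SimpleGraph α)
    (hp : 1057 ≤ Fintype.card α) (X : Finset α) (h3 : 3 ≤ X.card) (hO : Outer C X) :
    8 * X.card * (X.card - 1) < Fintype.card α ∨
      4 * Nat.card (C.induce {v | v ∈ X} ≃g C.induce {v | v ∈ X}) < 2 ^ (X.card - X.card / 2) := by
  by_cases hs : 8 * X.card * (X.card - 1) < Fintype.card α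
  · exact Or.inl hs
  right
  have hm : 13 ≤ X.card := by
    by_contra hlt
    have h1 : X.card ≤ 12 := by omega
    have h2 : X.card * (X.card - 1) ≤ 12 * 11 := Nat.mul_le_mul h1 (by omega)
    have h4 : 8 * X.card * (X.card - 1) = 8 * (X.card * (X.card - 1)) := by ring
    omega
  have h9 := OUT.card_aut hO h3
  have h11 := CAC.num hm
  omega

end Pool.Agent.TRB
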