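import Pool.Agent.TRB.QLoc

set_option autoImplicit false

namespace Pool.Agent.TRB.QEx

open Finset Pool.Agent.TRB.QComp Pool.Agent.Lib_helper61.SwitchBasic
  Pool.Agent.TRB.QSys Pool.Agent.TRB.QLoc

variable {α ι : Type*} [Fintype α] [DecidableEq α] [Fintype ι] [DecidableEq ι]
  {Γ : SimpleGraph α} {P : Parts Γ ι} {F : Finset α → ℚ}

/-- double flip -/
def fl (U : Finset α) (v w : α) : Finset α := symmDiff (symmDiff U {v}) {w}

instance finK : Finite P.K := by
  unfold Parts.K
  infer_instance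

theorem sum_two {f g : ι → ℕ} (c c' : ι) (hcc : c ≠ c') (h : ∀ x, x ≠ c → x ≠ c' → f x = g x) :
    ∑ x, f x + g c + g c' = ∑ x, g x + f c + f c' := by
  have h1 : ∀ f : ι → ℕ, ∑ x, f x = f c + (f c' + ∑ x ∈ (univ.erase c).erase c', f x) := by
    intro f
    rw [Finset.add_sum_erase (univ.erase c) f (Finset.mem_erase.2 ⟨hcc.symm, Finset.mem_univ _⟩),
      Finset.add_sum_erase univ f (Finset.mem_univ c)]
  rw [h1 f, h1 g]
  have h2 : ∑ x ∈ (univ.erase c).erase c', f x = ∑ x ∈ (univ.erase c).erase c', g x := by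
    refine Finset.sum_congr rfl (fun x hx => ?_)
    rw [Finset.mem_erase, Finset.mem_erase] at hx
    exact h x hx.2.1 hx.1
  rw [h2]
  ring

theorem κ_flip_other (c : ι) (U : Finset α) (v : α) (hv : P.cp v ≠ c) :
    P.κ c (symmDiff U {v}) = P.κ c U :=
  (P.κ_congr c U _ (P.flip_other c U v hv)).symm

theorem κ_flip_ne (U : Finset α) (v : α) : P.κ (P.cp v) (symmDiff U {v}) ≠ P.κ (P.cp v) U := by
  intro h
  have h1 := P.d_of_κ h
  by_cases hv : v ∈ U
  · have := P.d_flip_mem U v hv
    omega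
  · have := P.d_flip_not_mem U v hv
    omega

theorem κ_fl_other (c : ι) (U : Finset α) (v w : α) (hv : P.cp v ≠ c) (hw : P.cp w ≠ c) :
    P.κ c (fl U v w) = P.κ c U := by
  unfold fl
  rw [κ_flip_other c _ w hw, κ_flip_other c _ v hv]

/-- weight-maximal argument -/
theorem lemH (b : Prop) (Q : Finset α → Prop) (k : P.K) (hne : ∃ U, Q U)
    (h1 : ∀ U, Q U → ∃ v, P.κ (P.cp v) U = k ∧ (b → v ∈ U))
    (h2 : ∀ U, Q U → ∀ v, P.κ (P.cp v) U = k → (b → v ∈ U) → ∃ w, Q (fl U v w) ∧
      (b → w ∈ fl U v w) ∧ P.κ (P.cp w) (fl U v w) = k ∧ P.N (fl U v w) ≠ P.N U) : False := by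
  classical
  obtain ⟨wt, hwt⟩ := exists_injective_nat P.K
  let W : Finset α → ℕ := fun U => ∑ c, wt (P.κ c U)
  obtain ⟨U0, hU0⟩ := hne
  obtain ⟨U, hU, hUmax⟩ := Finset.exists_max_image (univ.filter Q) W
    ⟨U0, Finset.mem_filter.2 ⟨Finset.mem_univ _, hU0⟩⟩
  replace hU : Q U := (Finset.mem_filter.1 hU).2
  obtain ⟨v0, hv0, hv0b⟩ := h1 U hU
  obtain ⟨v, hv, hvmax⟩ := Finset.exists_max_image
    (univ.filter (fun v => P.cp v = P.cp v0 ∧ (b → v ∈ U)))
    (fun v => wt (P.κ (P.cp v0) (symmDiff U {v})))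
    ⟨v0, Finset.mem_filter.2 ⟨Finset.mem_univ _, rfl, hv0b⟩⟩
  obtain ⟨-, hvc, hvb⟩ := Finset.mem_filter.1 hv
  obtain ⟨w, hw1, hw2, hw3, hw4⟩ := h2 U hU v (by rw [hvc]; exact hv0) hvb
  rw [← hvc] at hv0 hvmax
  by_cases hwc : P.cp w = P.cp v
  · apply hw4
    refine P.N_eq_of_bij id Function.bijective_id (fun x => ?_)
    by_cases hx : x = P.cp v
    · subst hx
      rw [hwc] at hw3
      rw [id, hw3, hv0] 
    · rw [id, κ_fl_other x U v w (fun h => hx h.symm) (fun h => hx (by rw [← hwc, h]))]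
  · have e1 : P.κ (P.cp v) (fl U v w) = P.κ (P.cp v) (symmDiff U {v}) :=
      κ_flip_other _ _ w hwc
    have e2 : P.κ (P.cp w) (symmDiff U {v}) = P.κ (P.cp w) U :=
      κ_flip_other _ _ v (fun h => hwc h.symm)
    obtain ⟨v', hv'1, hv'2, hv'3⟩ := P.κ_flip (c := P.cp v) (c' := P.cp w) (U := U)
      (U' := fl U v w) (by rw [hv0, hw3]) w rfl
    have e3 : symmDiff (fl U v w) {w} = symmDiff U {v} := sd_cancel _ _
    rw [e3, e2] at hv'3
    have e4 : wt (P.κ (P.cp w) U) ≤ wt (P.κ (P.cp v) (symmDiff U {v})) := by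
      rw [← hv'3]
      refine hvmax v' (Finset.mem_filter.2 ⟨Finset.mem_univ _, ?_, ?_⟩)
      · rw [hv'1, hvc]
      · intro hb
        rw [hv'2]
        exact hw2 hb
    have e5 := sum_two (f := fun c => wt (P.κ c (fl U v w))) (g := fun c => wt (P.κ c U))
      (P.cp v) (P.cp w) (fun h => hwc h.symm)
      (fun x hx hx' => by rw [κ_fl_other x U v w hx.symm hx'.symm])
    have e6 : W (fl U v w) ≤ W U :=
      hUmax _ (Finset.mem_filter.2 ⟨Finset.mem_univ _, hw1⟩)
    rw [e1, hw3, hv0] at e5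
    have e7 : wt (P.κ (P.cp w) U) = wt (P.κ (P.cp v) (symmDiff U {v})) := by
      simp only [W] at e6
      omega
    have e8 := hwt e7
    apply hw4
    symm
    refine P.N_eq_of_bij (Equiv.swap (P.cp v) (P.cp w)) (Equiv.bijective _) (fun x => ?_)
    by_cases hx : x = P.cp v
    · subst hx
      rw [Equiv.swap_apply_left, hw3, hv0]
    · by_cases hx' : x = P.cp w
      · subst hx'
        rw [Equiv.swap_apply_right, e1, e8]
      · rw [Equiv.swap_apply_of_ne_of_ne hx hx', κ_fl_other x U v w (fun h => hx h.symm)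
          (fun h => hx' h.symm)]

/-- the number of parts of class `k` after a move that does not create a part of class `k` -/
theorem N_fl_lt (U : Finset α) (v w : α) (k : P.K) (hv : P.κ (P.cp v) U = k)
    (hw : P.κ (P.cp w) (fl U v w) ≠ k) : P.N (fl U v w) k < P.N U k := by
  classical
  unfold Parts.N
  refine Finset.card_lt_card ?_
  rw [Finset.ssubset_iff_of_subset]
  · refine ⟨P.cp v, Finset.mem_filter.2 ⟨Finset.mem_univ _, hv⟩, ?_⟩
    rw [Finset.mem_filter]
    rintro ⟨-, h⟩
    by_cases hwc : P.cp w = P.cp v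
    · rw [hwc] at hw
      exact hw h
    · have e1 : P.κ (P.cp v) (fl U v w) = P.κ (P.cp v) (symmDiff U {v}) :=
        κ_flip_other _ _ w hwc
      rw [e1, ← hv] at h
      exact κ_flip_ne U v h
  · intro x hx
    rw [Finset.mem_filter] at hx ⊢
    refine ⟨Finset.mem_univ _, ?_⟩
    by_cases hxv : x = P.cp v
    · rw [hxv, hv]
    · by_cases hxw : x = P.cp w
      · exfalso
        apply hw
        rw [← hxw]
        exact hx.2
      · rw [← κ_fl_other x U v w (fun h => hxv h.symm) (fun h => hxw h.symm)]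
        exact hx.2

theorem N_fl_le (U : Finset α) (v w : α) (k : P.K) (hv : P.κ (P.cp v) U = k) :
    P.N (fl U v w) k ≤ P.N U k := by
  classical
  by_cases hw : P.κ (P.cp w) (fl U v w) = k
  · by_cases hwc : P.cp w = P.cp v
    · unfold Parts.N
      refine Finset.card_le_card ?_
      intro x hx
      rw [Finset.mem_filter] at hx ⊢
      refine ⟨Finset.mem_univ _, ?_⟩
      by_cases hxv : x = P.cp v
      · rw [hxv, hv]
      · rw [← κ_fl_other x U v w (fun h => hxv h.symm) (fun h => hxv (by rw [← hwc, h]))]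
        exact hx.2
    · unfold Parts.N
      have e1 : P.κ (P.cp v) (fl U v w) = P.κ (P.cp v) (symmDiff U {v}) :=
        κ_flip_other _ _ w hwc
      have hsub : univ.filter (fun c => P.κ c (fl U v w) = k) ⊆
          insert (P.cp w) ((univ.filter (fun c => P.κ c U = k)).erase (P.cp v)) := by
        intro x hx
        rw [Finset.mem_filter] at hx
        rw [Finset.mem_insert, Finset.mem_erase, Finset.mem_filter]
        by_cases hxw : x = P.cp w
        · exact Or.inl hxw
        · right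
          have hxv : x ≠ P.cp v := by
            intro h
            rw [h, e1, ← hv] at hx
            exact κ_flip_ne U v hx.2
          refine ⟨hxv, Finset.mem_univ _, ?_⟩
          rw [← κ_fl_other x U v w (fun h => hxv h.symm) (fun h => hxw h.symm)]
          exact hx.2
      refine (Finset.card_le_card hsub).trans ((Finset.card_insert_le _ _).trans ?_)
      rw [Finset.card_erase_add_one]
      exact Finset.mem_filter.2 ⟨Finset.mem_univ _, hv⟩
  · exact (N_fl_lt U v w k hv hw).le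

/-- no class occurs in all members of the support -/
theorem lemG (S : Sys Γ F) (k : P.K) : ∃ W, F W ≠ 0 ∧ P.N W k = 0 := by
  classical
  by_contra hcon
  push Not at hcon
  obtain ⟨U0, hU0⟩ := S.hne
  obtain ⟨U1, hU1, hmin⟩ := Finset.exists_min_image (univ.filter (fun W => F W ≠ 0))
    (fun W => P.N W k) ⟨U0, Finset.mem_filter.2 ⟨Finset.mem_univ _, hU0⟩⟩
  replace hU1 : F U1 ≠ 0 := (Finset.mem_filter.1 hU1).2
  refine lemH (P := P) False (fun W => F W ≠ 0 ∧ P.N W k = P.N U1 k) k ⟨U1, hU1, rfl⟩ ?_ ?_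
  · rintro U ⟨hU, -⟩
    obtain ⟨c, hc⟩ := (P.N_pos U k).1 (Nat.pos_of_ne_zero (hcon U hU))
    obtain ⟨v, rfl⟩ := P.surj c
    exact ⟨v, hc, fun h => h.elim⟩
  · rintro U ⟨hU, hUk⟩ v hv -
    obtain ⟨w, hw⟩ := opp S.hT U hU v
    have hw0 : F (fl U v w) ≠ 0 := by
      intro h
      have hw' : F U * F (fl U v w) < 0 := hw
      rw [h] at hw'
      simp at hw'
    have hge : P.N U1 k ≤ P.N (fl U v w) k :=
      hmin _ (Finset.mem_filter.2 ⟨Finset.mem_univ _, hw0⟩)
    refine ⟨w, ⟨hw0, ?_⟩, fun h => h.elim, ?_, fun h => N_ne S hw h.symm⟩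
    · have := N_fl_le U v w k hv
      omega
    · by_contra hne
      have := N_fl_lt U v w k hv hne
      omega

/-- agreement outside one part -/
def Agr (P : Parts Γ ι) (c : ι) (U U' : Finset α) : Prop := ∀ x, P.cp x ≠ c → (x ∈ U' ↔ x ∈ U)

theorem Agr.κ {c : ι} {U U' : Finset α} (h : Agr P c U U') (x : ι) (hx : x ≠ c) :
    P.κ x U' = P.κ x U :=
  (P.κ_congr x U U' (fun v hv => h v (by rw [hv]; exact hx))).symm

theorem Agr.N_eq {c : ι} {U U' : Finset α} (h : Agr P c U U') (hc : P.κ c U' = P.κ c U) :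
    P.N U' = P.N U := by
  symm
  refine P.N_eq_of_bij id Function.bijective_id (fun x => ?_)
  by_cases hx : x = c
  · rw [hx]
    exact hc
  · exact h.κ x hx

theorem Agr.compl {c : ι} {U U' : Finset α} (h : Agr P c U U') : Agr P c Uᶜ U'ᶜ := by
  intro x hx
  rw [Finset.mem_compl, Finset.mem_compl, h x hx]

theorem exch (S : Sys Γ F) (c0 : ι) (M : ℤ)
    (hM : ∀ U, F U ≠ 0 → ∀ c, P.ty c0 c → |P.d c U| ≤ M) (U : Finset α) (hU : F U ≠ 0) (c : ι)
    (hc : P.ty c0 c) (hd : |P.d c U| = M) (hlt : M < (P.V c).card) :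
    ∃ U', F U * F U' < 0 ∧ Agr P c U U' := by
  have hv : ∃ v, P.cp v = c ∧ |P.d c (symmDiff U {v})| = M + 2 := by
    by_cases hs : P.d c U ≤ 0
    · have h1 : ∃ v ∈ P.V c, v ∉ U := by
        by_contra hcon
        push Not at hcon
        have h2 : U ∩ P.V c = P.V c := Finset.inter_eq_right.2 hcon
        have h3 : P.d c U = - (P.V c).card := by
          unfold Parts.d Parts.u
          rw [h2]
          ring
        rw [h3] at hd
        rw [abs_neg, Nat.abs_cast] at hd
        omega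
      obtain ⟨v, hv1, hv2⟩ := h1
      rw [P.mem_V] at hv1
      refine ⟨v, hv1, ?_⟩
      have h4 := P.d_flip_not_mem U v hv2
      rw [hv1] at h4
      rw [h4]
      rw [abs_of_nonpos hs] at hd
      rw [abs_of_nonpos (by omega)]
      omega
    · have h1 : ∃ v ∈ P.V c, v ∈ U := by
        by_contra hcon
        push Not at hcon
        have h2 : U ∩ P.V c = ∅ := by
          ext x
          simp only [Finset.mem_inter, Finset.notMem_empty, iff_false, not_and]
          exact fun hx hx' => hcon x hx' hx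
        have h3 : P.d c U = (P.V c).card := by
          unfold Parts.d Parts.u
          rw [h2]
          simp
        rw [h3, Nat.abs_cast] at hd
        omega
      obtain ⟨v, hv1, hv2⟩ := h1
      rw [P.mem_V] at hv1
      refine ⟨v, hv1, ?_⟩
      have h4 := P.d_flip_mem U v hv2
      rw [hv1] at h4
      rw [h4]
      rw [abs_of_nonneg (by omega)] at hd
      rw [abs_of_nonneg (by omega)]
      omega
  obtain ⟨v, hv1, hv2⟩ := hv
  obtain ⟨w, hw⟩ := opp S.hT U hU v
  have hw0 : F (fl U v w) ≠ 0 := by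
    intro h
    have hw' : F U * F (fl U v w) < 0 := hw
    rw [h] at hw'
    simp at hw'
  have hwc : P.cp w = c := by
    by_contra hne
    have h1 := P.d_of_κ (κ_flip_other (P := P) c (symmDiff U {v}) w hne)
    have h2 := hM _ hw0 c hc
    unfold fl at h2
    rw [h1, hv2] at h2
    omega
  refine ⟨fl U v w, hw, ?_⟩
  intro x hx
  unfold fl
  have hxv : x ≠ v := fun h => hx (by rw [h, hv1])
  have hxw : x ≠ w := fun h => hx (by rw [h, hwc])
  simp [Finset.mem_symmDiff, hxv, hxw]

/-- exchanges at parts of different classes give different statistics -/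
theorem lemX {c1 c2 : ι} {U U1 U2 : Finset α} (hne : P.κ c1 U ≠ P.κ c2 U)
    (h1 : Agr P c1 U U1) (hd : P.κ c1 U1 ≠ P.κ c1 U) (h2 : Agr P c2 U U2) :
    P.N U1 ≠ P.N U2 := by
  classical
  intro h
  have h3 := congrFun h (P.κ c1 U)
  have h4 : P.N U1 (P.κ c1 U) < P.N U (P.κ c1 U) := by
    unfold Parts.N
    refine Finset.card_lt_card ?_
    rw [Finset.ssubset_iff_of_subset]
    · refine ⟨c1, Finset.mem_filter.2 ⟨Finset.mem_univ _, rfl⟩, ?_⟩
      rw [Finset.mem_filter]
      exact fun h => hd h.2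
    · intro x hx
      rw [Finset.mem_filter] at hx ⊢
      refine ⟨Finset.mem_univ _, ?_⟩
      have hxc : x ≠ c1 := by
        rintro rfl
        exact hd hx.2
      rw [← h1.κ x hxc]
      exact hx.2
  have h5 : P.N U (P.κ c1 U) ≤ P.N U2 (P.κ c1 U) := by
    unfold Parts.N
    refine Finset.card_le_card ?_
    intro x hx
    rw [Finset.mem_filter] at hx ⊢
    refine ⟨Finset.mem_univ _, ?_⟩
    have hxc : x ≠ c2 := by
      rintro rfl
      exact hne hx.2.symm
    rw [h2.κ x hxc]
    exact hx.2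
  omega

end Pool.Agent.TRB.QEx
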