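import Pool.Agent.TRB.QSide
import Pool.Agent.Lib_helper61.SwMain

/-!
# TRB (MP_e73337_co): partitions with marked vertices

The files Q*.lean are copies of the files Lib_helper61/Sw*.lean with a weaker hypothesis on the parts: there
may be edges between different parts, namely all edges between marked vertices.
-/

set_option autoImplicit false

namespace Pool.Agent.TRB.QFin

open Finset Pool.Agent.TRB.QComp Pool.Agent.Lib_helper61.SwitchBasic
open Pool.Agent.TRB.QSys Pool.Agent.TRB.QLoc Pool.Agent.TRB.QEx Pool.Agent.TRB.QMid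
  Pool.Agent.TRB.QMidB Pool.Agent.TRB.QSide

variable {α ι : Type*} [Fintype α] [DecidableEq α] [Fintype ι] [DecidableEq ι]

theorem sys_false {Γ : SimpleGraph α} {F : Finset α → ℚ} (S : Sys Γ F) (P : Parts Γ ι)
    (hn4 : Fintype.card α ≠ 4) (hn0 : Fintype.card α ≠ 0) (h4 : 4 ∣ Fintype.card α)
    (h3 : 3 ≤ Fintype.card ι) (hsz : ∀ c, (P.V c).card + 3 ≤ Fintype.card α) : False := by
  obtain ⟨m, hm⟩ := h4
  obtain ⟨U0, hU0⟩ := S.hne
  rcases level S hn4 hn0 ⟨2 * m, by omega⟩ U0 hU0 with h | h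
  · refine mid_false S hn4 hn0 (fun U hU => ?_) P h3
    have h1 := Leq S hn4 hn0 U U0 hU hU0
    rw [h] at h1
    have h2 : (Fintype.card α : ℤ) - 2 * U.card = 0 := by
      exact pow_eq_zero_iff (two_ne_zero) |>.1 h1
    omega
  · refine side_false S (fun U hU => ?_) P ⟨m, hm⟩ (by omega) hsz
    have h1 := Leq S hn4 hn0 U U0 hU hU0
    rw [h] at h1
    have h2 : ((Fintype.card α : ℤ) - 2 * U.card - 2) * ((Fintype.card α : ℤ) - 2 * U.card + 2) = 0 := by
      nlinarith
    rcases mul_eq_zero.1 h2 with h3 | h3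
    · left
      omega
    · right
      omega

theorem main_parts {G H Γ : SimpleGraph α} (P : Parts Γ ι) (hn4 : Fintype.card α ≠ 4)
    (h3 : 3 ≤ Fintype.card ι) (hsz : ∀ c, (P.V c).card + 3 ≤ Fintype.card α)
    (hA : ∀ σ : Equiv.Perm α, IsClassAut Γ σ → ∀ u v, Γ.Adj (σ u) (σ v) ↔ Γ.Adj u v)
    (S0 : Finset α) (hΓ : sw G S0 = Γ) (hdeck : SameDeck G H) : Nonempty (G ≃g H) := by
  by_contra hne
  obtain ⟨h4, hn0⟩ := Pool.Agent.Lib_helper61.SwMain.four_dvd hdeck hne
  have S := Pool.Agent.Lib_helper61.SwMain.mkSys hdeck hne S0 hΓ hA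
  have S' : Sys Γ (fun U => ff G H (symmDiff S0 U)) :=
    { hT := S.hT
      hc := S.hc
      hφ := S.hφ
      hs := S.hs
      hne := S.hne }
  exact sys_false S' P hn4 hn0 h4 h3 hsz

end Pool.Agent.TRB.QFin
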