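import Pool.Agent.TRB.QMid

set_option autoImplicit false

namespace Pool.Agent.TRB.QMidB

open Finset Pool.Agent.TRB.QComp Pool.Agent.Lib_helper61.SwitchBasic
  Pool.Agent.TRB.QSys Pool.Agent.TRB.QLoc Pool.Agent.TRB.QEx
  Pool.Agent.TRB.QMid

variable {α ι : Type*} [Fintype α] [DecidableEq α] [Fintype ι] [DecidableEq ι]
  {Γ : SimpleGraph α} {P : Parts Γ ι} {F : Finset α → ℚ}

variable (S : Sys Γ F) (hn4 : Fintype.card α ≠ 4) (hn0 : Fintype.card α ≠ 0)
  (hmid : ∀ U, F U ≠ 0 → 2 * U.card = Fintype.card α)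

include S hmid hn4 hn0

section ext

variable (c0 : ι) (hc0 : 2 ≤ (P.V c0).card) (M : ℤ)
  (hM : ∀ U, F U ≠ 0 → ∀ c, P.ty c0 c → |P.d c U| ≤ M) (hM2 : 2 ≤ M)

include hc0 hM hM2

theorem ext_lt (U : Finset α) (hU : F U ≠ 0) (c : ι) (hc : P.ty c0 c) (hd : |P.d c U| = M) :
    M < (P.V c).card := by
  rw [← hd]
  refine d_lt S hn4 hn0 hmid U hU c ?_
  rw [← P.V_card_of_ty hc]
  exact hc0

theorem ext_class (U : Finset α) (hU : F U ≠ 0) (c1 c2 : ι) (h1 : P.ty c0 c1) (h2 : P.ty c0 c2)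
    (d1 : |P.d c1 U| = M) (d2 : |P.d c2 U| = M) : P.κ c1 U = P.κ c2 U := by
  by_contra hne
  obtain ⟨U1, ho1, ha1⟩ := exch S c0 M hM U hU c1 h1 d1
    (ext_lt S hn4 hn0 hmid c0 hc0 M hM hM2 U hU c1 h1 d1)
  obtain ⟨U2, ho2, ha2⟩ := exch S c0 M hM U hU c2 h2 d2
    (ext_lt S hn4 hn0 hmid c0 hc0 M hM hM2 U hU c2 h2 d2)
  obtain ⟨c3, hc3, d3⟩ := exW S hn4 hn0 hmid c0 M hM hM2 U hU c1 h1 d1
  have h31 : c3 ≠ c1 := by
    rintro rfl
    omega
  have h32 : c3 ≠ c2 := by
    rintro rfl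
    omega
  refine lemY S hne ho1 ho2 ha1 ha2 h31 h32 (fun h => ?_)
  exfalso
  have e1 := P.d_of_κ h
  rw [P.d_compl, agr_u (P := P) S hmid hU (ne_of_opp ho1).2 ha1] at e1
  rw [← e1, abs_neg] at d3
  omega

theorem ext_unique (U : Finset α) (hU : F U ≠ 0) (c1 c2 : ι) (h1 : P.ty c0 c1) (h2 : P.ty c0 c2)
    (d1 : |P.d c1 U| = M) (d2 : |P.d c2 U| = M) : c1 = c2 := by
  by_contra hne
  obtain ⟨U1, ho1, ha1⟩ := exch S c0 M hM U hU c1 h1 d1
    (ext_lt S hn4 hn0 hmid c0 hc0 M hM hM2 U hU c1 h1 d1)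
  have hU1 := (ne_of_opp ho1).2
  have e1 := agr_u (P := P) S hmid hU hU1 ha1
  have e2 : P.κ c2 U1 = P.κ c2 U := ha1.κ c2 (fun h => hne h.symm)
  have e3 := ext_class S hn4 hn0 hmid c0 hc0 M hM hM2 U hU c1 c2 h1 h2 d1 d2
  have e4 := ext_class S hn4 hn0 hmid c0 hc0 M hM hM2 U1 hU1 c1 c2 h1 h2 (by rw [e1]; exact d1)
    (by rw [P.d_of_κ e2]; exact d2)
  exact N_ne_κ S ho1 ha1 (by rw [e4, e2, e3])

theorem ext_false_neg (U : Finset α) (hU : F U ≠ 0) (c1 : ι) (h1 : P.ty c0 c1)
    (d1 : P.d c1 U = - M) : False := by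
  have d1' : |P.d c1 U| = M := by
    rw [d1, abs_neg, abs_of_nonneg (by omega)]
  obtain ⟨c2, h2, d2⟩ := exW S hn4 hn0 hmid c0 M hM hM2 U hU c1 h1 d1'
  have h12 : c1 ≠ c2 := by
    rintro rfl
    omega
  obtain ⟨U1, ho1, ha1⟩ := exch S c0 M hM U hU c1 h1 d1'
    (ext_lt S hn4 hn0 hmid c0 hc0 M hM hM2 U hU c1 h1 d1')
  have hU1 := (ne_of_opp ho1).2
  have e1 := agr_u (P := P) S hmid hU hU1 ha1
  have hc2 : 2 ≤ (P.V c2).card := by
    rw [← P.V_card_of_ty h2]
    exact hc0
  have hne := no_full S hn4 hn0 hmid Uᶜ (by rw [S.hc]; exact hU) c2 hc2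
  obtain ⟨v, hv, hvU⟩ := Finset.not_subset.1 hne
  rw [Finset.mem_compl, not_not] at hvU
  rw [P.mem_V] at hv
  obtain ⟨w, hw1, hw2⟩ := mv_out S hmid U hU v hvU
  have hU2 := (ne_of_opp hw2).2
  have hwv : w ≠ v := by
    rintro rfl
    exact hw1 hvU
  have hwc : P.cp w ≠ c1 := by
    intro h
    have h3 : w ∉ symmDiff U {v} := by
      simp [Finset.mem_symmDiff, hw1, hwv]
    have h4 := P.d_flip_not_mem (symmDiff U {v}) w h3
    have h5 := P.d_of_κ (κ_flip_other (P := P) c1 U v (by rw [hv]; exact h12.symm))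
    rw [h] at h4
    have h6 := hM _ hU2 c1 h1
    unfold fl at h6
    rw [h4, h5, d1] at h6
    have := (abs_le.1 h6).1
    omega
  have hκ : P.κ c1 (fl U v w) = P.κ c1 U :=
    κ_fl_other c1 U v w (by rw [hv]; exact h12.symm) hwc
  have hpos : 0 < P.N (fl U v w) (P.κ c1 U) := N_pos' hκ
  rcases N_same (P := P) S (same_of_opp ho1 hw2) with h | h
  · rw [h] at hpos
    obtain ⟨c', hc'⟩ := (P.N_pos _ _).1 hpos
    have e5 := P.d_of_κ hc'
    have e6 : c1 = c' := ext_unique S hn4 hn0 hmid c0 hc0 M hM hM2 U1 hU1 c1 c' h1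
      (P.ty_trans h1 (P.ty_symm (P.κ_ty hc'))) (by rw [e1]; exact d1') (by rw [e5]; exact d1')
    rw [← e6] at hc'
    exact N_ne_κ S ho1 ha1 hc'
  · rw [h] at hpos
    obtain ⟨c', hc'⟩ := (P.N_pos _ _).1 hpos
    have e5 := P.d_of_κ hc'
    rw [P.d_compl] at e5
    have e6 : c1 = c' := ext_unique S hn4 hn0 hmid c0 hc0 M hM hM2 U1 hU1 c1 c' h1
      (P.ty_trans h1 (P.ty_symm (P.κ_ty hc'))) (by rw [e1]; exact d1')
      (by
        have : P.d c' U1 = M := by omega
        rw [this, abs_of_nonneg (by omega)])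
    rw [← e6] at e5
    omega

theorem ext_false (U : Finset α) (hU : F U ≠ 0) (c1 : ι) (h1 : P.ty c0 c1)
    (d1 : |P.d c1 U| = M) : False := by
  rcases abs_eq (by omega) |>.1 d1 with h | h
  · exact ext_false_neg S hn4 hn0 hmid c0 hc0 M hM hM2 Uᶜ (by rw [S.hc]; exact hU) c1 h1
      (by rw [P.d_compl, h])
  · exact ext_false_neg S hn4 hn0 hmid c0 hc0 M hM hM2 U hU c1 h1 h

end ext

theorem d_le_one (c0 : ι) (hc0 : 2 ≤ (P.V c0).card) (U : Finset α) (hU : F U ≠ 0) :
    |P.d c0 U| ≤ 1 := by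
  classical
  by_contra hcon
  push Not at hcon
  obtain ⟨x, hx, hmax⟩ := Finset.exists_max_image
    (univ.filter (fun x : ι × Finset α => P.ty c0 x.1 ∧ F x.2 ≠ 0)) (fun x => |P.d x.1 x.2|)
    ⟨(c0, U), Finset.mem_filter.2 ⟨Finset.mem_univ _, P.ty_refl c0, hU⟩⟩
  obtain ⟨-, hx1, hx2⟩ := Finset.mem_filter.1 hx
  have h1 : |P.d c0 U| ≤ |P.d x.1 x.2| :=
    hmax (c0, U) (Finset.mem_filter.2 ⟨Finset.mem_univ _, P.ty_refl c0, hU⟩)
  refine ext_false S hn4 hn0 hmid c0 hc0 |P.d x.1 x.2| ?_ (by omega) x.2 hx2 x.1 hx1 rfl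
  intro W hW c hc
  exact hmax (c, W) (Finset.mem_filter.2 ⟨Finset.mem_univ _, hc, hW⟩)

/-- every part with at least two vertices admits an exchange -/
theorem exchBig (U : Finset α) (hU : F U ≠ 0) (c : ι) (hc : 2 ≤ (P.V c).card) :
    ∃ U', F U * F U' < 0 ∧ Agr P c U U' := by
  have h1 := d_le_one S hn4 hn0 hmid c hc U hU
  refine exch S c (|P.d c U|) ?_ U hU c (P.ty_refl c) rfl (by omega)
  intro W hW c' hc'
  have hcard := P.V_card_of_ty hc'
  have hc2 : 2 ≤ (P.V c').card := by omega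
  have h2 := d_le_one S hn4 hn0 hmid c' hc2 W hW
  have h3 : P.d c U = (P.V c).card - 2 * (P.u c U : ℤ) := rfl
  have h4 : P.d c' W = (P.V c').card - 2 * (P.u c' W : ℤ) := rfl
  rw [abs_le] at h1 h2
  rcases abs_cases (P.d c U) with h | h <;> rcases abs_cases (P.d c' W) with h' | h' <;> omega

theorem three (U : Finset α) (hU : F U ≠ 0) (c1 c2 c3 : ι) (h1 : 2 ≤ (P.V c1).card)
    (h2 : 2 ≤ (P.V c2).card) (h3 : 2 ≤ (P.V c3).card) (h12 : P.κ c1 U ≠ P.κ c2 U)
    (h13 : P.κ c1 U ≠ P.κ c3 U) (h23 : P.κ c2 U ≠ P.κ c3 U) : False := by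
  obtain ⟨U1, ho1, ha1⟩ := exchBig S hn4 hn0 hmid U hU c1 h1
  obtain ⟨U2, ho2, ha2⟩ := exchBig S hn4 hn0 hmid U hU c2 h2
  obtain ⟨U3, ho3, ha3⟩ := exchBig S hn4 hn0 hmid U hU c3 h3
  have e1 := N_compl_eq S ho1 ho2 (lemX h12 ha1 (N_ne_κ S ho1 ha1) ha2)
  have e2 := N_compl_eq S ho1 ho3 (lemX h13 ha1 (N_ne_κ S ho1 ha1) ha3)
  exact lemX h23 ha2 (N_ne_κ S ho2 ha2) ha3 (by rw [e1, e2])

omit S hn4 hn0 hmid in
theorem small_κ {c c' : ι} (hc : (P.V c).card = 1) (hc' : (P.V c').card = 1) {U U' : Finset α}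
    (hd : P.d c U = P.d c' U') : P.κ c U = P.κ c' U' := by
  obtain ⟨x, hx⟩ := Finset.card_eq_one.1 hc
  obtain ⟨y, hy⟩ := Finset.card_eq_one.1 hc'
  have hxc : ∀ v, P.cp v = c ↔ v = x := by
    intro v
    rw [← P.mem_V, hx, Finset.mem_singleton]
  have hyc : ∀ v, P.cp v = c' ↔ v = y := by
    intro v
    rw [← P.mem_V, hy, Finset.mem_singleton]
  have hmem : x ∈ U ↔ y ∈ U' := by
    unfold Parts.d Parts.u at hd
    rw [hc, hc', hx, hy] at hd
    by_cases h1 : x ∈ U <;> by_cases h2 : y ∈ U'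
    · simp [h1, h2]
    · rw [Finset.inter_singleton_of_mem h1, Finset.inter_singleton_of_notMem h2] at hd
      simp at hd
    · rw [Finset.inter_singleton_of_notMem h1, Finset.inter_singleton_of_mem h2] at hd
      simp at hd
    · simp [h1, h2]
  have hr : P.r x ↔ P.r y := by
    apply P.single
    · intro w hw
      rw [(hxc x).2 rfl] at hw
      exact (hxc w).1 hw
    · intro w hw
      rw [(hyc y).2 rfl] at hw
      exact (hyc w).1 hw
  have same : ∀ v, v ≠ x → v ≠ y → (Γ.Adj y v ↔ Γ.Adj x v) := by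
    intro v hvx hvy
    rw [P.cross y v, P.cross x v, hr]
    · rw [(hxc x).2 rfl]
      exact fun g => hvx ((hxc v).1 g.symm)
    · rw [(hyc y).2 rfl]
      exact fun g => hvy ((hyc v).1 g.symm)
  let φ : Γ ≃g Γ :=
    { toEquiv := Equiv.swap x y
      map_rel_iff' := by
        intro a b
        have hfix : ∀ a, a ≠ x → a ≠ y → Equiv.swap x y a = a :=
          fun a h h' => Equiv.swap_apply_of_ne_of_ne h h'
        by_cases ha : a = x
        · subst ha
          rw [Equiv.swap_apply_left]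
          by_cases hb : b = a
          · subst hb
            rw [Equiv.swap_apply_left]
            exact ⟨fun h => absurd h (Γ.irrefl), fun h => absurd h (Γ.irrefl)⟩
          · by_cases hb' : b = y
            · subst hb'
              rw [Equiv.swap_apply_right]
              exact Γ.adj_comm _ _
            · rw [hfix b hb hb']
              exact same b hb hb'
        · by_cases ha' : a = y
          · subst ha'
            rw [Equiv.swap_apply_right]
            by_cases hb : b = x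
            · subst hb
              rw [Equiv.swap_apply_left]
              exact Γ.adj_comm _ _
            · by_cases hb' : b = a
              · subst hb'
                rw [Equiv.swap_apply_right]
                exact ⟨fun h => absurd h (Γ.irrefl), fun h => absurd h (Γ.irrefl)⟩
              · rw [hfix b hb hb']
                exact (same b hb hb').symm
          · rw [hfix a ha ha']
            by_cases hb : b = x
            · subst hb
              rw [Equiv.swap_apply_left, Γ.adj_comm a y, Γ.adj_comm a b]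
              exact same a ha ha'
            · by_cases hb' : b = y
              · subst hb'
                rw [Equiv.swap_apply_right, Γ.adj_comm a x, Γ.adj_comm a b]
                exact (same a ha ha').symm
              · rw [hfix b hb hb'] }
  rw [P.κ_eq]
  refine ⟨φ, ?_, ?_⟩
  · intro v
    rw [hxc v, hyc]
    change v = x ↔ Equiv.swap x y v = y
    constructor
    · rintro rfl
      exact Equiv.swap_apply_left _ _
    · intro h
      have := congrArg (Equiv.swap x y) h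
      rw [Equiv.swap_apply_self, Equiv.swap_apply_right] at this
      exact this
  · intro v hv
    simp only at hv ⊢
    rw [hxc] at hv
    subst hv
    change Equiv.swap v y v ∈ U' ↔ v ∈ U
    rw [Equiv.swap_apply_left]
    exact hmem.symm

omit S hn4 hn0 hmid in
theorem sum_V : ∑ c, (P.V c).card = Fintype.card α := by
  rw [← Finset.card_univ (α := α)]
  unfold Parts.V
  rw [← Finset.card_eq_sum_card_fiberwise (f := P.cp) (s := univ) (t := univ)
    (fun _ _ => Finset.mem_coe.2 (Finset.mem_univ _))]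

omit S hn4 hn0 hmid in
theorem sum_u (U : Finset α) : ∑ c, P.u c U = U.card := by
  rw [Finset.card_eq_sum_card_fiberwise (f := P.cp) (s := U) (t := univ)
    (fun _ _ => Finset.mem_coe.2 (Finset.mem_univ _))]
  refine Finset.sum_congr rfl (fun c _ => ?_)
  unfold Parts.u Parts.V
  congr 1
  ext x
  simp

omit S hn4 hn0 hmid in
theorem sum_d (U : Finset α) : ∑ c, P.d c U = Fintype.card α - 2 * (U.card : ℤ) := by
  unfold Parts.d
  rw [Finset.sum_sub_distrib, ← Finset.mul_sum, ← sum_V (P := P), ← sum_u (P := P) U]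
  push_cast
  ring

theorem two (h3 : 3 ≤ Fintype.card ι) (U : Finset α) (hU : F U ≠ 0) (c1 c2 : ι)
    (h1 : 2 ≤ (P.V c1).card) (h2 : 2 ≤ (P.V c2).card) : P.κ c1 U = P.κ c2 U := by
  by_contra h12
  have hc12 : c1 ≠ c2 := by
    rintro rfl
    exact h12 rfl
  obtain ⟨c3, hc3⟩ : ∃ c3 : ι, c3 ≠ c1 ∧ c3 ≠ c2 := by
    by_contra hcon
    push Not at hcon
    have hsub : (univ : Finset ι) ⊆ {c1, c2} := by
      intro x _
      by_cases hx : x = c1
      · simp [hx]
      · simp [hcon x hx]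
    have := Finset.card_le_card hsub
    rw [Finset.card_univ] at this
    have h4 := Finset.card_le_two (a := c1) (b := c2)
    omega
  obtain ⟨h31, h32⟩ := hc3
  by_cases hb : 2 ≤ (P.V c3).card
  · -- all three parts are big: the class of the third is one of the two classes
    have key : ∀ (a b : ι), 2 ≤ (P.V a).card → 2 ≤ (P.V b).card → P.κ a U ≠ P.κ b U → c3 ≠ a →
        c3 ≠ b → P.κ c3 U = P.κ a U → False := by
      intro a b ha hb' hab h3a h3b h3κ
      have hab' : a ≠ b := by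
        rintro rfl
        exact hab rfl
      obtain ⟨U1, ho1, ha1⟩ := exchBig S hn4 hn0 hmid U hU a ha
      obtain ⟨U2, ho2, ha2⟩ := exchBig S hn4 hn0 hmid U hU b hb'
      have hU1 := (ne_of_opp ho1).2
      have e1 : P.κ a U1 ≠ P.κ a U := N_ne_κ S ho1 ha1
      have e2 : P.κ c3 U1 = P.κ a U := by rw [ha1.κ c3 h3a, h3κ]
      have e3 : P.κ b U1 = P.κ b U := ha1.κ b hab'.symm
      have e4 : P.κ a U1 = P.κ b U := by
        by_contra hne
        refine three S hn4 hn0 hmid U1 hU1 a b c3 ha hb' hb ?_ ?_ ?_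
        · rw [e3]
          exact hne
        · rw [e2]
          exact e1
        · rw [e2, e3]
          exact hab.symm
      refine lemY S hab ho1 ho2 ha1 ha2 h3a h3b (fun h => ?_)
      refine ⟨b, ?_⟩
      have e5 : P.κ a U1ᶜ = P.κ b U1ᶜ := P.κ_compl (by rw [e4, e3])
      have e6 : P.κ b U1ᶜ = P.κ b Uᶜ := ha1.compl.κ b hab'.symm
      rw [← e6, ← e5, h]
    by_cases h5 : P.κ c3 U = P.κ c1 U
    · exact key c1 c2 h1 h2 h12 h31 h32 h5
    · by_cases h6 : P.κ c3 U = P.κ c2 U
      · exact key c2 c1 h2 h1 (fun h => h12 h.symm) h32 h31 h6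
      · exact three S hn4 hn0 hmid U hU c1 c2 c3 h1 h2 hb h12 (fun h => h5 h.symm)
          (fun h => h6 h.symm)
  · obtain ⟨U1, ho1, ha1⟩ := exchBig S hn4 hn0 hmid U hU c1 h1
    obtain ⟨U2, ho2, ha2⟩ := exchBig S hn4 hn0 hmid U hU c2 h2
    refine lemY S h12 ho1 ho2 ha1 ha2 h31 h32 (fun h => ?_)
    exfalso
    have := P.V_card_of_ty (P.κ_ty h)
    omega

theorem mid_false (P : Parts Γ ι) (h3 : 3 ≤ Fintype.card ι) : False := by
  obtain ⟨U, hU⟩ := S.hne
  by_cases hbig : ∃ c1, 2 ≤ (P.V c1).card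
  · obtain ⟨c1, hc1⟩ := hbig
    obtain ⟨U1, ho1, ha1⟩ := exchBig S hn4 hn0 hmid U hU c1 hc1
    have hU1 := (ne_of_opp ho1).2
    have hsmall : ∀ c, c ≠ c1 → (P.V c).card = 1 := by
      intro c hc
      by_contra hne
      have hc2 : 2 ≤ (P.V c).card := by
        have := P.V_nonempty c
        omega
      have e1 := two S hn4 hn0 hmid h3 U hU c1 c hc1 hc2
      have e2 := two S hn4 hn0 hmid h3 U1 hU1 c1 c hc1 hc2
      exact N_ne_κ S ho1 ha1 (by rw [e2, ha1.κ c hc, e1])
    have hd1 := d_le_one S hn4 hn0 hmid c1 hc1 U hU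
    have hsum := sum_d (P := P) U
    have hm := hmid U hU
    have hds : ∀ c, c ≠ c1 → P.d c U = 1 ∨ P.d c U = -1 := by
      intro c hc
      have h4 := hsmall c hc
      have h5 := P.u_le c U
      have h6 : P.d c U = (P.V c).card - 2 * (P.u c U : ℤ) := rfl
      omega
    have hcard : (univ.erase c1).card + 1 = Fintype.card ι := by
      rw [Finset.card_erase_add_one (Finset.mem_univ c1), Finset.card_univ]
    rw [← Finset.add_sum_erase univ (fun c => P.d c U) (Finset.mem_univ c1)] at hsum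
    have hplus : ∃ c2, c2 ≠ c1 ∧ P.d c2 U = 1 := by
      by_contra hcon
      push Not at hcon
      have : ∑ c ∈ univ.erase c1, P.d c U = ∑ c ∈ univ.erase c1, (-1 : ℤ) := by
        refine Finset.sum_congr rfl (fun c hc => ?_)
        have hne := Finset.ne_of_mem_erase hc
        rcases hds c hne with h | h
        · exact absurd h (hcon c hne)
        · exact h
      rw [this] at hsum
      simp only [Finset.sum_const, nsmul_eq_mul] at hsum
      have := (abs_le.1 hd1).2
      omega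
    have hminus : ∃ c3, c3 ≠ c1 ∧ P.d c3 U = -1 := by
      by_contra hcon
      push Not at hcon
      have : ∑ c ∈ univ.erase c1, P.d c U = ∑ c ∈ univ.erase c1, (1 : ℤ) := by
        refine Finset.sum_congr rfl (fun c hc => ?_)
        have hne := Finset.ne_of_mem_erase hc
        rcases hds c hne with h | h
        · exact h
        · exact absurd h (hcon c hne)
      rw [this] at hsum
      simp only [Finset.sum_const, nsmul_eq_mul] at hsum
      have := (abs_le.1 hd1).1
      omega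
    obtain ⟨c2, hc2, hd2⟩ := hplus
    obtain ⟨c3, hc3, hd3⟩ := hminus
    have e3 : P.κ c3 Uᶜ = P.κ c2 U := by
      refine small_κ (hsmall c3 hc3) (hsmall c2 hc2) ?_
      rw [P.d_compl, hd3, hd2]
      norm_num
    have p1 : 0 < P.N U (P.κ c2 U) := N_pos' rfl
    have p2 : 0 < P.N Uᶜ (P.κ c2 U) := N_pos' e3
    have p3 : 0 < P.N U1 (P.κ c2 U) := N_pos' (ha1.κ c2 hc2)
    have p4 : 0 < P.N U1ᶜ (P.κ c2 U) := by
      refine N_pos' (c := c3) ?_
      rw [ha1.compl.κ c3 hc3, e3]
    obtain ⟨W, hW, hW0⟩ := lemG S (P.κ c2 U)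
    rcases four (P := P) S ho1 W hW with h | h | h | h <;> rw [h] at hW0 <;> omega
  · push Not at hbig
    have hsmall : ∀ c, (P.V c).card = 1 := by
      intro c
      have := hbig c
      have := P.V_nonempty c
      omega
    have hm := hmid U hU
    have hpos : 0 < U.card := by omega
    obtain ⟨v, hv⟩ := Finset.card_pos.1 hpos
    obtain ⟨w, hw1, hw2⟩ := mv_out S hmid U hU v hv
    have hwv : w ≠ v := by
      rintro rfl
      exact hw1 hv
    have hcc : P.cp v ≠ P.cp w := by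
      intro h
      have h4 := hsmall (P.cp v)
      obtain ⟨x, hx⟩ := Finset.card_eq_one.1 h4
      have h5 : v ∈ P.V (P.cp v) := (P.mem_V _ _).2 rfl
      have h6 : w ∈ P.V (P.cp v) := (P.mem_V _ _).2 h.symm
      rw [hx, Finset.mem_singleton] at h5 h6
      exact hwv (by rw [h5, h6])
    have hw3 : w ∉ symmDiff U {v} := by
      simp [Finset.mem_symmDiff, hw1, hwv]
    have du1 : ∀ (c : ι) (W : Finset α), P.d c W = 1 ∨ P.d c W = -1 := by
      intro c W
      have h4 := hsmall c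
      have h5 := P.u_le c W
      have h6 : P.d c W = (P.V c).card - 2 * (P.u c W : ℤ) := rfl
      omega
    have d1 : P.d (P.cp v) (fl U v w) = P.d (P.cp v) U + 2 := by
      have h1 := P.d_of_κ (κ_flip_other (P := P) (P.cp v) (symmDiff U {v}) w hcc.symm)
      have h2 := P.d_flip_mem U v hv
      unfold fl
      omega
    have d2 : P.d (P.cp w) (fl U v w) = P.d (P.cp w) U - 2 := by
      have h1 := P.d_of_κ (κ_flip_other (P := P) (P.cp w) U v hcc)
      have h2 := P.d_flip_not_mem (symmDiff U {v}) w hw3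
      unfold fl
      omega
    have a1 := du1 (P.cp v) U
    have a2 := du1 (P.cp v) (fl U v w)
    have a3 := du1 (P.cp w) U
    have a4 := du1 (P.cp w) (fl U v w)
    refine N_ne (P := P) S hw2 ?_
    refine P.N_eq_of_bij (Equiv.swap (P.cp v) (P.cp w)) (Equiv.bijective _) (fun x => ?_)
    by_cases hx : x = P.cp v
    · subst hx
      rw [Equiv.swap_apply_left]
      exact small_κ (hsmall _) (hsmall _) (by omega)
    · by_cases hx' : x = P.cp w
      · subst hx'
        rw [Equiv.swap_apply_right]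
        exact small_κ (hsmall _) (hsmall _) (by omega)
      · rw [Equiv.swap_apply_of_ne_of_ne hx hx', κ_fl_other x U v w (fun h => hx h.symm)
          (fun h => hx' h.symm)]

end Pool.Agent.TRB.QMidB
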