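import Pool.Agent.TRB.QComp

set_option autoImplicit false

namespace Pool.Agent.TRB.QSys

open Finset Pool.Agent.TRB.QComp Pool.Agent.Lib_helper61.SwitchBasic

variable {α ι : Type*} [Fintype α] [DecidableEq α] [Fintype ι] [DecidableEq ι]
  {Γ : SimpleGraph α} (P : Parts Γ ι)

/-- signed orbit function on the vertex sets of `Γ` -/
structure Sys (Γ : SimpleGraph α) (F : Finset α → ℚ) : Prop where
  hT : ∀ U, ∑ i, F (symmDiff U {i}) = 0
  hc : ∀ U, F Uᶜ = F U
  hφ : ∀ (φ : Γ ≃g Γ) U, F (im φ U) = F U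
  hs : ∀ U U', 0 < F U * F U' → ∃ φ : Γ ≃g Γ, im φ U = U' ∨ im φ U = U'ᶜ
  hne : ∃ U, F U ≠ 0

section basic

variable {P} {F : Finset α → ℚ}

theorem opp (hT : ∀ U, ∑ i, F (symmDiff U {i}) = 0) (U : Finset α) (hU : F U ≠ 0) (v : α) :
    ∃ w, F U * F (symmDiff (symmDiff U {v}) {w}) < 0 := by
  by_contra hcon
  push Not at hcon
  have h1 : ∑ w, F U * F (symmDiff (symmDiff U {v}) {w}) = 0 := by
    rw [← Finset.mul_sum, hT, mul_zero]
  have h2 := (Finset.sum_eq_zero_iff_of_nonneg (fun w _ => hcon w)).1 h1 v (Finset.mem_univ v)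
  rw [sd_cancel] at h2
  exact hU (by simpa using h2)

omit [DecidableEq ι] in
theorem N_compl {U U' : Finset α} (h : P.N U = P.N U') : P.N Uᶜ = P.N U'ᶜ := by
  obtain ⟨φ, hφ⟩ := P.exists_aut h
  rw [← hφ, ← im_compl, P.N_im]

omit [DecidableEq ι] in
theorem N_ne (S : Sys Γ F) {U U' : Finset α} (h : F U * F U' < 0) : P.N U ≠ P.N U' := by
  intro h1
  obtain ⟨φ, hφ⟩ := P.exists_aut h1
  rw [← hφ, S.hφ] at h
  nlinarith [mul_self_nonneg (F U)]

omit [DecidableEq ι] in
theorem N_same (S : Sys Γ F) {U U' : Finset α} (h : 0 < F U * F U') :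
    P.N U' = P.N U ∨ P.N U' = P.N Uᶜ := by
  obtain ⟨φ, hφ | hφ⟩ := S.hs U U' h
  · left
    rw [← hφ, P.N_im]
  · right
    have : P.N U'ᶜ = P.N U := by rw [← hφ, P.N_im]
    have := N_compl this
    rwa [compl_compl] at this

omit [DecidableEq ι] in
theorem four (S : Sys Γ F) {U U1 : Finset α} (h : F U * F U1 < 0) (W : Finset α) (hW : F W ≠ 0) :
    P.N W = P.N U ∨ P.N W = P.N Uᶜ ∨ P.N W = P.N U1 ∨ P.N W = P.N U1ᶜ := by
  have hU : F U ≠ 0 := by
    intro h0
    rw [h0] at h
    simp at h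
  rcases lt_or_gt_of_ne (mul_ne_zero hU hW) with h1 | h1
  · have h2 : 0 < F U1 * F W := by
      have h3 : 0 < (F U * F U1) * (F U * F W) := mul_pos_of_neg_of_neg h h1
      have h4 : (F U * F U1) * (F U * F W) = (F U * F U) * (F U1 * F W) := by ring
      rw [h4] at h3
      exact (pos_iff_pos_of_mul_pos h3).1 (mul_self_pos.2 hU)
    rcases N_same (P := P) S h2 with h | h
    · exact Or.inr (Or.inr (Or.inl h))
    · exact Or.inr (Or.inr (Or.inr h))
  · rcases N_same (P := P) S h1 with h | h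
    · exact Or.inl h
    · exact Or.inr (Or.inl h)

/-- the sum of the flips is self-adjoint -/
theorem adjoint (F Q : Finset α → ℚ) :
    ∑ U : Finset α, F U * ∑ i, Q (symmDiff U {i}) = ∑ U : Finset α, (∑ i, F (symmDiff U {i})) * Q U := by
  simp only [Finset.mul_sum, Finset.sum_mul]
  rw [Finset.sum_comm]
  rw [Finset.sum_comm (f := fun (U : Finset α) (i : α) => F (symmDiff U {i}) * Q U)]
  refine Finset.sum_congr rfl (fun i _ => ?_)
  rw [← Equiv.sum_comp (flipE i) (fun U => F (symmDiff U {i}) * Q U)]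
  refine Finset.sum_congr rfl (fun U _ => ?_)
  rw [flipE_apply, sd_cancel]

theorem inv_eq (S : Sys Γ F) (hn : Fintype.card α ≠ 0) (Q : Finset α → ℚ) (l : ℚ) (hl : l ≠ 0)
    (hQT : ∀ U, ∑ i, Q (symmDiff U {i}) = l * Q U) (hQφ : ∀ (φ : Γ ≃g Γ) U, Q (im φ U) = Q U)
    (hQc : ∀ U, Q Uᶜ = Q U) (U U' : Finset α) (hU : F U ≠ 0) (hU' : F U' ≠ 0) : Q U = Q U' := by
  have same : ∀ A B : Finset α, 0 < F A * F B → Q A = Q B := by
    intro A B h
    obtain ⟨φ, hφ | hφ⟩ := S.hs A B h
    · rw [← hφ, hQφ]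
    · rw [← hQc B, ← hφ, hQφ]
  have hsum : ∑ V : Finset α, F V = 0 := by
    have h1 := adjoint F (fun _ => (1 : ℚ))
    simp only [S.hT, zero_mul, Finset.sum_const_zero] at h1
    simp only [Finset.sum_const, Finset.card_univ, nsmul_eq_mul, mul_one] at h1
    rw [← Finset.sum_mul] at h1
    rcases mul_eq_zero.1 h1 with h | h
    · exact h
    · exact absurd (by exact_mod_cast h) hn
  have hI : ∑ V : Finset α, F V * Q V = 0 := by
    have h1 := adjoint F Q
    simp only [S.hT, zero_mul, Finset.sum_const_zero, hQT] at h1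
    have h2 : ∑ V : Finset α, F V * (l * Q V) = l * ∑ V : Finset α, F V * Q V := by
      rw [Finset.mul_sum]
      exact Finset.sum_congr rfl (fun V _ => by ring)
    rw [h2] at h1
    rcases mul_eq_zero.1 h1 with h | h
    · exact absurd h hl
    · exact h
  have main : ∀ A B : Finset α, 0 < F A → F B < 0 → Q A = Q B := by
    intro A B hA hB
    have h3 : ∑ V : Finset α, F V * Q V
        = ∑ V : Finset α, (max (F V) 0 * Q A + min (F V) 0 * Q B) := by
      refine Finset.sum_congr rfl (fun V _ => ?_)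
      rcases lt_trichotomy (F V) 0 with h | h | h
      · rw [max_eq_right h.le, min_eq_left h.le, same V B (mul_pos_of_neg_of_neg h hB)]
        ring
      · rw [h]
        simp
      · rw [max_eq_left h.le, min_eq_right h.le, same V A (mul_pos h hA)]
        ring
    rw [hI, Finset.sum_add_distrib, ← Finset.sum_mul, ← Finset.sum_mul] at h3
    have h4 : ∑ V : Finset α, max (F V) 0 + ∑ V : Finset α, min (F V) 0 = 0 := by
      rw [← Finset.sum_add_distrib]
      refine Eq.trans (Finset.sum_congr rfl (fun V _ => ?_)) hsum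
      rw [max_add_min, add_zero]
    have h5 : 0 < ∑ V : Finset α, max (F V) 0 := by
      refine Finset.sum_pos' (fun V _ => le_max_right _ _) ⟨A, Finset.mem_univ _, ?_⟩
      rw [max_eq_left hA.le]
      exact hA
    have h6 : ∑ V : Finset α, min (F V) 0 = - ∑ V : Finset α, max (F V) 0 := by linarith
    rw [h6] at h3
    have h7 : (∑ V : Finset α, max (F V) 0) * (Q A - Q B) = 0 := by linarith
    rcases mul_eq_zero.1 h7 with h | h
    · exact absurd h h5.ne'
    · linarith
  rcases lt_or_gt_of_ne hU with h1 | h1 <;> rcases lt_or_gt_of_ne hU' with h2 | h2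
  · exact same _ _ (mul_pos_of_neg_of_neg h1 h2)
  · exact (main _ _ h2 h1).symm
  · exact main _ _ h1 h2
  · exact same _ _ (mul_pos h1 h2)

/-- quadratic form of a vertex set -/
def qV (V U : Finset α) : ℚ := (((V.card : ℤ) - 2 * ((U ∩ V).card : ℤ) : ℤ) : ℚ) ^ 2 - V.card

omit [Fintype α] in
theorem inter_flip_mem (V U : Finset α) (i : α) (hV : i ∈ V) (hU : i ∈ U) :
    (symmDiff U {i} ∩ V).card + 1 = (U ∩ V).card := by
  have h1 : symmDiff U {i} ∩ V = (U ∩ V).erase i := by
    ext x
    simp only [Finset.mem_inter, Finset.mem_symmDiff, Finset.mem_singleton, Finset.mem_erase]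
    by_cases hx : x = i
    · subst hx
      simp [hU]
    · simp [hx]
  rw [h1, Finset.card_erase_add_one]
  rw [Finset.mem_inter]
  exact ⟨hU, hV⟩

omit [Fintype α] in
theorem inter_flip_not_mem (V U : Finset α) (i : α) (hV : i ∈ V) (hU : i ∉ U) :
    (symmDiff U {i} ∩ V).card = (U ∩ V).card + 1 := by
  have h1 : i ∈ symmDiff U {i} := by simp [Finset.mem_symmDiff, hU]
  have h2 := inter_flip_mem V (symmDiff U {i}) i hV h1
  rw [sd_cancel] at h2
  exact h2.symm

omit [Fintype α] in
theorem inter_flip_out (V U : Finset α) (i : α) (hV : i ∉ V) :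
    symmDiff U {i} ∩ V = U ∩ V := by
  ext x
  simp only [Finset.mem_inter, Finset.mem_symmDiff, Finset.mem_singleton]
  by_cases hx : x = i
  · subst hx
    simp [hV]
  · simp [hx]

theorem qV_T (V U : Finset α) :
    ∑ i, qV V (symmDiff U {i}) = ((Fintype.card α : ℚ) - 4) * qV V U := by
  set dd : ℚ := (((V.card : ℤ) - 2 * ((U ∩ V).card : ℤ) : ℤ) : ℚ) with hdd
  have h1 : ∀ i, qV V (symmDiff U {i}) = qV V U +
      (if i ∈ V then (if i ∈ U then 4 * dd + 4 else - 4 * dd + 4) else 0) := by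
    intro i
    by_cases hV : i ∈ V
    · by_cases hU : i ∈ U
      · rw [if_pos hV, if_pos hU]
        have h2 := inter_flip_mem V U i hV hU
        unfold qV
        have h3 : (((V.card : ℤ) - 2 * ((symmDiff U {i} ∩ V).card : ℤ) : ℤ) : ℚ) = dd + 2 := by
          rw [hdd, ← h2]
          push_cast
          ring
        rw [h3, ← hdd]
        ring
      · rw [if_pos hV, if_neg hU]
        have h2 := inter_flip_not_mem V U i hV hU
        unfold qV
        have h3 : (((V.card : ℤ) - 2 * ((symmDiff U {i} ∩ V).card : ℤ) : ℤ) : ℚ) = dd - 2 := by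
          rw [hdd, h2]
          push_cast
          ring
        rw [h3, ← hdd]
        ring
    · rw [if_neg hV, add_zero]
      unfold qV
      rw [inter_flip_out V U i hV]
  simp only [h1]
  rw [Finset.sum_add_distrib, Finset.sum_const, Finset.card_univ, Finset.sum_ite_mem,
    Finset.univ_inter, Finset.sum_ite, Finset.sum_const, Finset.sum_const]
  have h4 : (V.filter (fun i => i ∈ U)).card = (U ∩ V).card := by
    congr 1
    ext x
    simp [and_comm]
  have h5 : (V.filter (fun i => i ∈ U)).card + (V.filter (fun i => ¬ i ∈ U)).card = V.card :=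
    Finset.card_filter_add_card_filter_not _
  have h6 : ((V.filter (fun i => ¬ i ∈ U)).card : ℚ) = V.card - (U ∩ V).card := by
    rw [← h5, h4]
    push_cast
    ring
  rw [h4]
  simp only [nsmul_eq_mul]
  rw [h6]
  unfold qV
  rw [← hdd]
  have h7 : ((U ∩ V).card : ℚ) = (V.card - dd) / 2 := by
    rw [hdd]
    push_cast
    ring
  rw [h7]
  ring

end basic

end Pool.Agent.TRB.QSys
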