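import Pool.Agent.TRC.Fin
import Pool.Agent.NTW.MHOM

/-!
# TRB (MP_e73337_co): switching classes of graphs with a central block. Definitions, statements

Every `S_xxx` is proved in the file `Pool/Agent/TRB/Mxxx.lean` as `theorem t_xxx : S_xxx` (namespace
`Pool.Agent.TRB`), with other statements as hypotheses where the doc string says so. Known: `im s S` (image
of a set, `TRC/Grp.lean`: `mem_im`, `im_mul`, `im_one`), `AA C` (automorphisms, `TRC/App.lean`: `mem_AA`,
`mul_AA`, `inv_AA`, `im_compl`, `im_sd`, `swC_compl`, `sw_eq`, `iso_im`, `iso_iff`), `blk C c x` (the component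
of `x` in `C - c`, `TRC/Fin.lean`: `mem_blk`, `blk_eq`, `blk_perm`), `homChi`, `hom_F_zero`, `hom_F_ne`
(`NTW/MHOM.lean`), `ff`, `sum_ff`, `ind_of`, `ind_of_not`, `cnt_pos` (`Lib_helper61/SwitchBasic.lean`).
-/

set_option autoImplicit false

namespace Pool.Agent.TRB

open Finset Pool.Agent.Lib_helper61.SwitchBasic Pool.Agent.TRC Pool.Agent.NTW

/-- All graphs of the class of `C` are reconstructible. -/
def AllRec {α : Type} (C : SimpleGraph α) : Prop :=
  ∀ t t' : Finset α, SameDeck (sw C t) (sw C t') → Nonempty (sw C t ≃g sw C t')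

/-- A centre: a set `K` preserved by all automorphisms and for every `b ∈ K` a branch `T b` at `b`; an
automorphism that fixes `b` may be restricted to `T b`. -/
structure Central {α : Type} [DecidableEq α] (C : SimpleGraph α) (K : Finset α)
    (T : α → Finset α) : Prop where
  root : ∀ b ∈ K, b ∈ T b
  cover : ∀ v, ∃ b ∈ K, v ∈ T b
  disj : ∀ b ∈ K, ∀ b' ∈ K, b ≠ b' → Disjoint (T b) (T b')
  invK : ∀ s, IsAut C s → ∀ x, s x ∈ K ↔ x ∈ K
  invT : ∀ s, IsAut C s → ∀ b ∈ K, im s (T b) = T (s b)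
  loc : ∀ s, IsAut C s → ∀ b ∈ K, s b = b →
    ∃ s', IsAut C s' ∧ (∀ v ∈ T b, s' v = s v) ∧ ∀ v, v ∉ T b → s' v = v

/-- MIS. PROOF. Let `g R = ∑ Z ∈ X.powerset, F (Z ∪ R)` for `R ⊆ Y`, `Y = Xᶜ`, and suppose `g R ≠ 0` for
some `R`. Let `g' S = if S ⊆ Y then g S else 0`. By `hom_F_ne` there is `E₀` with
`∑ S, homChi S E₀ * g' S ≠ 0`; as only `S ⊆ Y` count, `E = E₀ ∩ Y` has the same coefficient, which is
`∑ S, homChi S E * F S` (write `S = Z ∪ R`; `homChi S E = homChi R E` as `E ⊆ Y`). By `hom_F_zero`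
`2 |E| = card α`. For `Z ⊆ X` let `u Z = ∑ R ∈ Y.powerset, homChi R E * F (Z ∪ R)`. For `D ⊆ X`:
`∑ Z ∈ X.powerset, homChi Z D * u Z = ∑ S, homChi S (D ∪ E) * F S = 0` for `D ≠ ∅` (`hom_F_zero`). So for
all `Z₁ ⊆ X`: `2 ^ |X| * u Z₁ = ∑ D ∈ X.powerset, homChi Z₁ D * (∑ Z, homChi Z D * u Z) = ∑ Z, u Z ≠ 0`
(only `D = ∅` counts). But `u Z₀ = 0`. -/
def S_MIS : Prop :=
  ∀ (α : Type) [Fintype α] [DecidableEq α] (F : Finset α → ℚ),
    (∀ S, ∑ i : α, F (symmDiff S {i}) = 0) → ∀ X Z₀ : Finset α, Z₀ ⊆ X →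
    (∀ S, S ∩ X = Z₀ → F S = 0) → ∀ R, Disjoint R X → ∑ Z ∈ X.powerset, F (Z ∪ R) = 0

/-- CRD. PROOF. By `iso_iff` every such `S` is `im s t`, `(im s t)ᶜ`, `im s t'` or `(im s t')ᶜ` (up to
inverting `s`), and `(im s t) ∩ (T b).erase b = im s (t ∩ (T b').erase b')` with `b' = s⁻¹ b ∈ K` (`invT`).
So the cardinality is one of the `4 |K|` numbers `|t ∩ (T b').erase b'|`,
`|(T b).erase b| - |t ∩ (T b').erase b'|` and the same for `t'`, `b' ∈ K`; and `|(T b).erase b| ≥ 4 |K|`,
so one of `0, …, |(T b).erase b|` is missing. -/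
def S_CRD : Prop :=
  ∀ (α : Type) [Fintype α] [DecidableEq α] (C : SimpleGraph α) (K : Finset α) (T : α → Finset α),
    Central C K T → (∀ σ, IsClassAut C σ → IsAut C σ) → ∀ (t t' : Finset α), ∀ b ∈ K,
    4 * K.card < (T b).card → ∃ k ≤ ((T b).erase b).card,
      ∀ S, (Nonempty (sw C S ≃g sw C t) ∨ Nonempty (sw C S ≃g sw C t')) →
        (S ∩ (T b).erase b).card ≠ k

/-- EXS (prove `theorem t_EXS : S_MIS → S_CRD → S_EXS`). PROOF. Let
`F S = ff (sw C t) (sw C t') (symmDiff t S)`, so `F S = cnt (sw C t) (sw C t') * ind (sw C S) (sw C t) -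
cnt (sw C t) (sw C t) * ind (sw C S) (sw C t')` (`sw_sw`, `symmDiff_symmDiff_cancel_left`). It satisfies the
hypothesis of MIS (`sum_ff`, compare the proof of `main_lemma` in `TRC/App.lean`). Let
`X = (T b).erase b`, `k` as in CRD, `Z₀ ⊆ X` with `k` elements. `F S = 0` if `S ∩ X = Z₀` (both indicators
vanish). Let `S` be isomorphic to `t`, `R = S \ X`. By MIS `∑ Z ∈ X.powerset, F (Z ∪ R) = 0`; the term
`Z = S ∩ X` is `F S > 0` (`cnt_pos`, with `exists_sw` for some vertex; the second indicator is 0 because `t`,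
`t'` are not isomorphic), so some term `F (Z ∪ R)` is negative, so `S' = Z ∪ R` is isomorphic to `t'`.
The second part in the same way (`F S' < 0` by `cnt_pos`, so some term is positive). -/
def S_EXS : Prop :=
  ∀ (α : Type) [Fintype α] [DecidableEq α] (C : SimpleGraph α) (K : Finset α) (T : α → Finset α),
    Central C K T → (∀ σ, IsClassAut C σ → IsAut C σ) → ∀ (t t' : Finset α),
    SameDeck (sw C t) (sw C t') → ¬ Nonempty (sw C t ≃g sw C t') → ∀ b ∈ K,
    4 * K.card < (T b).card →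
    (∀ S, Nonempty (sw C S ≃g sw C t) → ∃ S', Nonempty (sw C S' ≃g sw C t') ∧
      S' \ (T b).erase b = S \ (T b).erase b) ∧
    (∀ S', Nonempty (sw C S' ≃g sw C t') → ∃ S, Nonempty (sw C S ≃g sw C t) ∧
      S \ (T b).erase b = S' \ (T b).erase b)

/-- The class of the trace of `S` on the branch at `b`, up to complement. -/
def kap {α : Type} [DecidableEq α] (C : SimpleGraph α) (T : α → Finset α) (S : Finset α) (b : α) :
    Set (Finset α × α) :=
  {p | ∃ s, IsAut C s ∧ p.2 = s b ∧ (p.1 = im s (S ∩ T b) ∨ p.1 = im s (T b \ S))}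

/-- KAP. PROOF. (1) `S' = im s S`: `S' ∩ T (s b) = im s (S ∩ T b)` by `invT`; compose with `s⁻¹`.
(2) `Sᶜ ∩ T b = T b \ S`, `T b \ Sᶜ = S ∩ T b`. (3) `(S ∩ T b, b)` lies in `kap C T S b` (`s = 1`), so in
`kap C T S' b`: `s b = b` and `S ∩ T b = im s (S' ∩ T b)` or `= im s (T b \ S')`. In the second case
`b ∈ S ↔ b ∉ S'` (`b ∈ T b`, `s b = b`), a contradiction. In the first case take `s'` of `loc`:
`im s' S' = S` (`s'` maps `T b` to itself as `s` does; outside `T b` use the hypothesis), so `iso_im`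
(`mem_AA`) gives the isomorphism. -/
def S_KAP : Prop :=
  ∀ (α : Type) [Fintype α] [DecidableEq α] (C : SimpleGraph α) (K : Finset α) (T : α → Finset α),
    Central C K T →
    (∀ s, IsAut C s → ∀ S, ∀ b ∈ K, kap C T (im s S) (s b) = kap C T S b) ∧
    (∀ S, ∀ b ∈ K, kap C T Sᶜ b = kap C T S b) ∧
    (∀ S S', ∀ b ∈ K, S' \ (T b).erase b = S \ (T b).erase b → kap C T S b = kap C T S' b →
      Nonempty (sw C S ≃g sw C S'))

/-- TWO (prove `theorem t_TWO : S_EXS → S_KAP → S_TWO`). PROOF. By contradiction: `t`, `t'` with the same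
deck, not isomorphic. For `S` let `N S k = |{b ∈ K | kap C T S b = k}|` (classical). By KAP (1), (2) and
`iso_iff` `N S = N t` for all `S` isomorphic to `t` and `N S' = N t'` for all `S'` isomorphic to `t'`
(bijection `b ↦ s b` of `K`, `invK`). Let `b` be large, `S`, `S'` as in the first part of EXS. For
`b' ∈ K`, `b' ≠ b`: `S ∩ T b' = S' ∩ T b'` (`disj`), so `kap C T S b' = kap C T S' b'`; for `b` they differ
(KAP (3); `S ≃ t`, `S' ≃ t'`). So `N t' k - N t k = [k = kap S' b] - [k = kap S b]` (in `ℤ`). So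
`kap C T S b` is the only `k` with `N t' k < N t k`: for all `S ≃ t` and all large `b`, `N t' < N t` at
`kap C T S b`, and `N t' ≥ N t` elsewhere. With the second part of EXS: for all `S' ≃ t'` and large `b`:
`N t' > N t` at `kap C T S' b`. Now let `b₁ ≠ b₂` be large, `S' ≃ t'` with `S' = t` outside
`(T b₁).erase b₁`. Then `S' ∩ T b₂ = t ∩ T b₂`, so `kap C T S' b₂ = kap C T t b₂`, and at this `k`
`N t' > N t` and `N t' < N t`: contradiction. -/
def S_TWO : Prop :=
  ∀ (α : Type) [Fintype α] [DecidableEq α] (C : SimpleGraph α) (K : Finset α) (T : α → Finset α),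
    Central C K T → (∀ σ, IsClassAut C σ → IsAut C σ) → ∀ b₁ ∈ K, ∀ b₂ ∈ K, b₁ ≠ b₂ →
    4 * K.card < (T b₁).card → 4 * K.card < (T b₂).card → AllRec C

/-! ## The central block -/

open Classical in
/-- The vertex `c` and the components of `C - c` with less than half of the vertices. -/
noncomputable def Tc {α : Type} [Fintype α] (C : SimpleGraph α) (c : α) : Finset α :=
  univ.filter fun v => v = c ∨ 2 * (blk C c v).card < Fintype.card α

open Classical in
/-- The central block. -/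
noncomputable def KK {α : Type} [Fintype α] (C : SimpleGraph α) : Finset α :=
  univ.filter fun v => ∀ c, c ≠ v → v ∉ Tc C c

/-- No central vertex. -/
def NoC {α : Type} [Fintype α] (C : SimpleGraph α) : Prop :=
  ∀ c, ∃ x, x ≠ c ∧ Fintype.card α ≤ 2 * (blk C c x).card

/-- CE1. PROOF. `c ∉ blk C c x` for `x ≠ c` (`c` is isolated in `del C c`). If `v`, `w` are not in `Tc C c`,
their components have at least half of the vertices each and do not contain `c`, so they are not disjoint,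
so they are equal (`blk_eq`). `Tc C c` is disjoint from the `blk C c x` of `NoC`, so
`|Tc| ≤ card α - card α / 2`. Last part: `w = c` is in `Tc C c`; if `w ≠ c` then `vw` is an edge of
`del C c`, so `blk C c w = blk C c v`. -/
def S_CE1 : Prop :=
  ∀ (α : Type) [Fintype α] [DecidableEq α] (C : SimpleGraph α), NoC C →
    (∀ c, 2 * (Tc C c).card ≤ Fintype.card α) ∧
    (∀ c v w, v ∉ Tc C c → w ∉ Tc C c → (del C c).Reachable v w) ∧
    (∀ c v w, v ∈ Tc C c → v ≠ c → C.Adj v w → w ∈ Tc C c)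

/-- CE2 (prove `theorem t_CE2 : S_CE1 → S_CE2`). If `c ∈ Tc C c'`, `c ≠ c'`, then `Tc C c ⊆ Tc C c'` and
`c' ∉ Tc C c`. PROOF. First `c' ∉ Tc C c`: otherwise let `D = (Tc C c)ᶜ` (not empty: at least half of the
vertices). All vertices of `D` are joined to each other in `del C c` by walks inside `D` (CE1), which do not
contain `c' ∈ Tc C c`, and `c` has a neighbour in `D` (`C` connected, last part of CE1), so
`D ∪ {c} ⊆ blk C c' c`, which has more than half of the vertices; but `c ∈ Tc C c'`, `c ≠ c'`. Now let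
`v ∈ Tc C c`, `v ≠ c`. A shortest path of `C` from `v` to `c` stays in `Tc C c` (CE1: from a vertex
`≠ c` of `Tc C c` one only gets to vertices of `Tc C c`; it stops when it meets `c` first), so it avoids
`c'`, and `v ∈ blk C c' c ⊆ Tc C c'`. (Formally: for a walk from `v` to `c` by induction on the walk:
`v ∈ Tc C c → (del C c').Reachable v c`.) -/
def S_CE2 : Prop :=
  ∀ (α : Type) [Fintype α] [DecidableEq α] (C : SimpleGraph α), C.Connected → NoC C →
    ∀ c c', c ≠ c' → c ∈ Tc C c' → Tc C c ⊆ Tc C c' ∧ c' ∉ Tc C c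

/-- CE3 (prove `theorem t_CE3 : S_CE1 → S_CE2 → S_CE3`). PROOF. root: clear. cover: among the `c` with
`v ∈ Tc C c` (`c = v` is one) take one with `|Tc C c|` maximal; if `c ∉ KK C` there is `c' ≠ c` with
`c ∈ Tc C c'`, and `Tc C c ⊆ Tc C c'` (CE2), `c' ∈ Tc C c'`, `c' ∉ Tc C c`, so `|Tc C c'|` is larger.
disj: let `v ∈ Tc C b ∩ Tc C b'`. `b ∉ Tc C b'`, `b' ∉ Tc C b` as `b, b' ∈ KK C`. So `v ≠ b, b'`. As in CE2
`v` is joined to `b` by a walk in `Tc C b`, which avoids `b'`: so `blk C b' v = blk C b' b`, and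
`v ∈ Tc C b'`, `v ≠ b'` gives `b ∈ Tc C b'`, contradiction. invK, invT: `|blk C (s c) (s v)| = |blk C c v|`
(an automorphism maps `del C c` to `del C (s c)`), so `s v ∈ Tc C (s c) ↔ v ∈ Tc C c`. loc: `s' v = s v` for
`v ∈ Tc C b`, `= v` otherwise; `s` maps `Tc C b` onto itself, and an edge with exactly one end in `Tc C b`
has this end `b` (CE1). -/
def S_CE3 : Prop :=
  ∀ (α : Type) [Fintype α] [DecidableEq α] (C : SimpleGraph α), C.Connected → NoC C →
    Central C (KK C) (Tc C)

/-- CE4 (prove `theorem t_CE4 : S_CE1 → S_CE3 → S_CE4`). PROOF. Let `u, w ∈ K := KK C`, both `≠ x`, `x ∈ K`.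
They are not in `Tc C x` (as `x ≠ u`), so by CE1 there is a walk from `u` to `w` in `del C x`. For a vertex
`v` let `r v ∈ K` with `v ∈ Tc C (r v)` (`cover`; unique by `disj`; `r v = v` for `v ∈ K`). If `v w'` is an
edge of `C` then `r v = r w'`, or `v = r v` and `w' = r w'` (CE1: if `v ≠ r v`, then `w' ∈ Tc C (r v)`; the
same for `w'`). All vertices `v` of the walk are outside `Tc C x` (they are in the component of `u`), so
`r v ≠ x`. By induction on the walk `r v` and `w` are joined in `C.induce {v | v ∈ K ∧ v ≠ x}`. Not empty: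
there are at least two elements of `K` besides `x`. -/
def S_CE4 : Prop :=
  ∀ (α : Type) [Fintype α] [DecidableEq α] (C : SimpleGraph α), C.Connected → NoC C →
    3 ≤ (KK C).card → ∀ x ∈ KK C, (C.induce {v | v ∈ KK C ∧ v ≠ x}).Connected

/-- DEG. PROOF. `σ` maps `C` onto `sw C S`, so both have the same number of edges. Let `k = |S|`,
`k ≤ card α / 2` (else take the complement: `sw C Sᶜ = sw C S`). The number of pairs with exactly one end in
`S` is `k (p - k)`, of which `e` are edges of `C`, `e ≤ ∑ v ∈ S, degree v`, so if `k ≥ 1` then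
`4 e < k p ≤ 2 k (p - k)`, and `sw C S` has `k (p - k) - 2 e > 0` edges more than `C`. So `k = 0`, `sw C S = C`.
(Compare `Pool/Agent/TRC/MTAU.lean`, which counts the edges of `sw T S`.) -/
def S_DEG : Prop :=
  ∀ (α : Type) [Fintype α] [DecidableEq α] (C : SimpleGraph α) [DecidableRel C.Adj],
    (∀ v, 4 * C.degree v < Fintype.card α) → ∀ σ, IsClassAut C σ → IsAut C σ

/-- BLK (prove `theorem t_BLK : S_CE1 → S_CE3 → S_CE4 → S_TWO → S_BLK`). PROOF. `K = KK C`, `m = |K|`. By
`cover` `card α ≤ ∑ b ∈ K, |Tc C b|` and `2 |Tc C b| ≤ card α` (CE1), so `m ≥ 2`. If `m ≥ 3` then CE4 and the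
hypothesis give `8 m ^ 2 ≤ card α`; if `m = 2` this holds as `card α ≥ 32`. If at most one `b ∈ K` had
`4 m < |Tc C b|` then `card α ≤ card α / 2 + (m - 1) * 4 m`, `card α ≤ 8 m (m - 1) < 8 m ^ 2`. So there are two
such `b`, and TWO applies. -/
def S_BLK : Prop :=
  ∀ (α : Type) [Fintype α] [DecidableEq α] (C : SimpleGraph α), C.Connected → NoC C →
    (∀ σ, IsClassAut C σ → IsAut C σ) → 32 ≤ Fintype.card α →
    (∀ X : Finset α, 3 ≤ X.card → (∀ x ∈ X, (C.induce {v | v ∈ X ∧ v ≠ x}).Connected) →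
      8 * X.card ^ 2 ≤ Fintype.card α) → AllRec C

end Pool.Agent.TRB
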