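import Pool.Agent.TRB.St

/-!
# TRB (MP_e73337_co): further statements
-/

set_option autoImplicit false

namespace Pool.Agent.TRB

open Finset Pool.Agent.Lib_helper61.SwitchBasic Pool.Agent.TRC Pool.Agent.NTW

/-- BLQ (prove `theorem t_BLQ : S_CE1 → S_CE3 → S_TWO → S_BLQ`). PROOF. `K = KK C`, `m = |K|`. By
`cover` `card α ≤ ∑ b ∈ K, |Tc C b|` and `2 |Tc C b| ≤ card α` (CE1). If at most one `b ∈ K` had
`4 m < |Tc C b|` then `card α ≤ card α / 2 + (m - 1) * 4 m`, `card α ≤ 8 m (m - 1)`. So there are two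
such `b` (`m ≥ 2`: otherwise `card α ≤ card α / 2`), and TWO applies. -/
def S_BLQ : Prop :=
  ∀ (α : Type) [Fintype α] [DecidableEq α] (C : SimpleGraph α), C.Connected → NoC C →
    (∀ σ, IsClassAut C σ → IsAut C σ) →
    8 * (KK C).card * ((KK C).card - 1) < Fintype.card α → AllRec C

/-- KKT (prove `theorem t_KKT : S_CE1 → S_CE3 → S_KKT`): at least two vertices in the centre.
PROOF. `card α ≤ ∑ b ∈ K, |Tc C b| ≤ |K| * (card α / 2)`, `card α > 0` (`NoC` needs a vertex:
`C.Connected`). -/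
def S_KKT : Prop :=
  ∀ (α : Type) [Fintype α] [DecidableEq α] (C : SimpleGraph α), C.Connected → NoC C →
    2 ≤ (KK C).card

/-- IMG. PROOF. `local_bound` (`RGP15/Main2.lean` or near): for non-isomorphic graphs with the same deck
`2 ^ (|K| - |K| / 2) ≤ 4 * (Rest G K).ncard`, `G = sw C t`; the class automorphisms of `G` are those of `C`
(`classAut_unsw`), so automorphisms of `C`; they map `K` to itself, so their restrictions to `K` are
automorphisms of `C.induce K` (injection from `Rest G K`). -/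
def S_IMG : Prop :=
  ∀ (α : Type) [Fintype α] [DecidableEq α] (C : SimpleGraph α) (K : Finset α),
    (∀ σ, IsClassAut C σ → IsAut C σ) → (∀ s, IsAut C s → ∀ x, s x ∈ K ↔ x ∈ K) →
    4 * Nat.card (C.induce {v | v ∈ K} ≃g C.induce {v | v ∈ K}) < 2 ^ (K.card - K.card / 2) →
    AllRec C

end Pool.Agent.TRB
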